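import Pool.Agent.RDS.Defs

set_option autoImplicit false

/-!
# Truth-table (non-adaptive) self-reducibility relative to an oracle, in the general sense
-/

namespace Pool.Agent.RTT

open Pool.Agent.DSR (Lang PolyTime encPair encBool Ans Letter encAns)
open Pool.Agent.RDS (Orc Mv encMv encH run OTime)

/-- A list of strings as a word: the strings are written one after the other, each followed by the
letter `stop`. -/
def encLst (l : List (List Bool)) : List Letter := encAns (.ask l)

open Classical in
/-- Truth-table self-reducibility of `A` relative to `O` in the general sense: at `x` an algorithm
with the oracle `O` computes a list `f x` of strings, and another one, which sees `x` and the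
answers to the questions `y ∈ A` for all `y` in this list, decides whether `x ∈ A`; the lengths of
the chains which start at `x`, and the lengths of the strings in these chains, are bounded by a
polynomial in the length of `x`. -/
def GenTTSelfRed (O : Orc) (A : Lang) : Prop :=
  ∃ (f : List Bool → List (List Bool)) (V : List Bool × List Bool → Bool) (q : Polynomial ℕ),
    OTime O id encLst f ∧ OTime O encPair encBool V ∧
    (∀ x, x ∈ A ↔ V (x, (f x).map fun y => decide (y ∈ A)) = true) ∧
    ∀ (c : ℕ → List Bool) (k : ℕ), (∀ i < k, c (i + 1) ∈ f (c i)) →
      k ≤ q.eval (c 0).length ∧ (c k).length ≤ q.eval (c 0).length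

end Pool.Agent.RTT
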