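import Pool.Agent.RAD.Core
import Pool.Agent.RTT.Defs

set_option autoImplicit false

/-!
# RTT: an NP-complete set which is adaptively but not non-adaptively self-reducible

The oracle and the set are those of RAD. This file contains the abstract setting of the negative
part.
-/

namespace Pool.Agent.RTT

open Pool.Agent.DSR (Lang PolyTime encPair encBool Ans Letter encAns)
open Pool.Agent.RDS
open Pool.Agent.RTS (Cer SS)
open Pool.Agent.RAD (AD pv pq)

/-! ### Non-adaptive algorithms -/

/-- the list of the questions at `x` -/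
def lst (G : Alg) (R : Str → Str) (x : Str) : List Str :=
  match G.g R x with
  | some (.ask l) => l
  | _ => []

open Classical in
/-- the answers -/
noncomputable def bts (A : Lang) (l : List Str) : Str := l.map fun y => decide (y ∈ A)

/-- what is used about non-adaptive algorithms: the list of the questions is computed by `G`; `v R x
b` is the result when the answers are `b`, and `T R x b` the set of the strings `u` such that a
question about `R u` is asked in this second part -/
structure AlgV where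
  G : Alg
  v : (Str → Str) → Str → Str → Option Bool
  T : (Str → Str) → Str → Str → Finset Str
  P : Polynomial ℕ
  loc : ∀ (R R' : Str → Str) (x b : Str), (∀ u ∈ T R x b, R u = R' u) → v R' x b = v R x b
  cardT : ∀ R x b, (T R x b).card ≤ P.eval (x.length + b.length)

/-- a bound for both parts -/
noncomputable def AlgV.PP (G : AlgV) : Polynomial ℕ := G.G.P + G.P.comp (Polynomial.X + G.G.P)

/-- the algorithm `G` with the bound `q` for the chains is a self-reduction for the oracle `R` -/
def CorrV (K : (Str → Str) → Set Str) (G : AlgV) (q : Polynomial ℕ) (R : Str → Str) : Prop :=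
  (∀ x, ∃ b, G.v R x (bts (AD K R) (lst G.G R x)) = some b ∧ (b = true ↔ x ∈ AD K R)) ∧
  ∀ (c : ℕ → Str) (k : ℕ), (∀ i < k, c (i + 1) ∈ lst G.G R (c i)) →
    k ≤ q.eval (c 0).length ∧ (c k).length ≤ q.eval (c 0).length

/-- the hypothesis which will be refuted -/
def HHV (K : (Str → Str) → Set Str) (G : AlgV) (q : Polynomial ℕ) (R₀ : Str → Str) (m₀ : ℕ) :
    Prop := ∀ R, Reg R → Agr m₀ R₀ R → CorrV K G q R

/-! ### Planted values -/

/-- `z` begins with `n + 1` zeros -/
def Pl (n : ℕ) (z : Str) : Prop := ∀ j ≤ n, z.getD j false = false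

/-- what is used about the universal set: certificates, and instances `κ w` of length `M |w|` which
say that some value at a string `w u`, `|u| = |w|`, begins with `|w| + 1` zeros -/
structure KOkV (K : (Str → Str) → Set Str) (M : Polynomial ℕ) (κ : Str → Str) : Prop where
  cert : ∀ (R : Str → Str) (ψ : Str), ψ ∈ K R → ∃ S, Cer K R ψ S
  len : ∀ w, (κ w).length = M.eval w.length
  big : ∀ n, 4 * n < M.eval n
  plant : ∀ (R : Str → Str) (w : Str),
    κ w ∈ K R ↔ ∃ u : Str, u.length = w.length ∧ Pl w.length (R (w ++ u))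

theorem SS_spec {K : (Str → Str) → Set Str} {M : Polynomial ℕ} {κ : Str → Str}
    (hK : KOkV K M κ) {R : Str → Str} {ψ : Str} (h : ψ ∈ K R) : Cer K R ψ (SS K R ψ) := by
  have h1 := hK.cert R ψ h
  unfold SS
  rw [dif_pos h1]
  exact h1.choose_spec

/-! ### Sets of strings -/

/-- the strings which are reached from `x` by at most `i` steps -/
def Tre (G : Alg) (R : Str → Str) (x : Str) : ℕ → Finset Str
  | 0 => {x}
  | i + 1 => Tre G R x i ∪ (Tre G R x i).biUnion fun y => (lst G R y).toFinset

/-- the instances reached from `ψ` by at most `i` steps, by looking at the values of `R` -/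
def Rea (G : Alg) (R : Str → Str) (N : ℕ) (ψ : Str) : ℕ → Finset Str
  | 0 => {ψ}
  | i + 1 => Rea G R N ψ i ∪ ((Rea G R N ψ i).filter fun u => u.length ≤ N).biUnion
      fun u => G.T R (false :: R u)

/-- the strings which are touched by the computation at `x` -/
def TouV (K : (Str → Str) → Set Str) (G : AlgV) (R : Str → Str) (x : Str) : Set Str :=
  {a | a ∈ G.G.T R x ∨ a ∈ G.T R x (bts (AD K R) (lst G.G R x)) ∨
    (false :: R a ∈ lst G.G R x ∨ ∃ v, true :: v ∈ lst G.G R x ∧ (pv v).1 = R a) ∨
    ∃ ψ, ψ ∈ K R ∧ false :: R ψ ∈ lst G.G R x ∧ a ∈ SS K R ψ}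

/-- the values which are asked about at `x` -/
def Vls (G : Alg) (R : Str → Str) (x : Str) : Set Str :=
  {z | false :: z ∈ lst G R x ∨ ∃ v, true :: v ∈ lst G R x ∧ (pv v).1 = z}

/-- the strings in the certificates of the short instances which are asked about at `0 R ψ` -/
def The (K : (Str → Str) → Set Str) (G : Alg) (R : Str → Str) (ψ : Str) : Set Str :=
  {a | ∃ ψ' : Str, ψ' ∈ K R ∧ false :: R ψ' ∈ lst G R (false :: R ψ) ∧
    ψ'.length < 2 * ψ.length ∧ a ∈ SS K R ψ'}

/-! ### Bad events for a world `R`, `a = w u` -/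

/-- the computation at `0 R ψ` asks about `R ψ`, for an instance `ψ` with `a` in its certificate -/
def Ev4 (K : (Str → Str) → Set Str) (G : Alg) (N : ℕ) (R : Str → Str) (a : Str) : Prop :=
  Reg R ∧ ∃ ψ ∈ K R, a ∈ SS K R ψ ∧ ψ.length ≤ N ∧ ψ ∈ G.T R (false :: R ψ)

/-- a value is guessed -/
def Ev5 (G : Alg) (n N : ℕ) (R : Str → Str) : Prop :=
  ∃ ψ' ψ : Str, 2 * ψ'.length ≤ ψ.length ∧ ψ ∈ FF n N ∧
    false :: R ψ ∈ lst G R (false :: R ψ') ∧ ψ ∉ G.T R (false :: R ψ')

/-- a path `p 0, ..., p i` of instances, whose lengths are doubled, each seen by the computation at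
the one before -/
def Pth (G : Alg) (R : Str → Str) (p : ℕ → Str) (i : ℕ) : Prop :=
  ∀ j < i, 2 * (p j).length ≤ (p (j + 1)).length ∧ p (j + 1) ∈ G.T R (false :: R (p j))

/-- at the end `ψ` of a path from `κ w` the computation at `0 R ψ` does not ask about `R ψ`, but
asks about a short instance with `a` in its certificate -/
def Ev3 (K : (Str → Str) → Set Str) (G : Alg) (N D : ℕ) (R : Str → Str) (ψ₀ a ψ : Str) : Prop :=
  Reg R ∧ ∃ (p : ℕ → Str) (i : ℕ), i ≤ D ∧ p 0 = ψ₀ ∧ p i = ψ ∧ Pth G R p i ∧ ψ.length ≤ N ∧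
    2 * a.length < ψ.length ∧
    ψ ∉ G.T R (false :: R ψ) ∧ ∃ ψ' : Str, ψ' ≠ ψ ∧ ψ' ∈ K R ∧ ψ'.length < 2 * ψ.length ∧
      false :: R ψ' ∈ lst G R (false :: R ψ) ∧ a ∈ SS K R ψ'

/-! ### The parameters -/

/-- the hypotheses about the numbers `n`, `N`, `s`; all oracles agree with `R₀` below `n + 1` -/
structure Par (K : (Str → Str) → Set Str) (M : Polynomial ℕ) (κ : Str → Str) (G : AlgV)
    (q : Polynomial ℕ) (R₀ : Str → Str) (n N s : ℕ) : Prop where
  ok : KOkV K M κ
  reg : Reg R₀
  corr : ∀ R, Reg R → Agr (n + 1) R₀ R → CorrV K G q R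
  hN : q.eval (10 * M.eval n + 2) = N
  hNs : N ≤ 2 ^ s
  hP : ∀ l, l ≤ 10 * N + 2 → G.PP.eval l ≤ 2 ^ s
  hs : s * s + 6 * s + 28 ≤ n

theorem eval_mono (p : Polynomial ℕ) {a b : ℕ} (h : a ≤ b) : p.eval a ≤ p.eval b := by
  rw [Polynomial.eval_eq_sum, Polynomial.eval_eq_sum]
  exact Finset.sum_le_sum fun i _ => Nat.mul_le_mul_left _ (Nat.pow_le_pow_left h i)

theorem AlgV.PP_eval (G : AlgV) (l : ℕ) :
    G.PP.eval l = G.G.P.eval l + G.P.eval (l + G.G.P.eval l) := by
  unfold AlgV.PP
  rw [Polynomial.eval_add, Polynomial.eval_comp, Polynomial.eval_add, Polynomial.eval_X]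

theorem Par.hG {K : (Str → Str) → Set Str} {M : Polynomial ℕ} {κ : Str → Str} {G : AlgV}
    {q : Polynomial ℕ} {R₀ : Str → Str} {n N s : ℕ} (h : Par K M κ G q R₀ n N s) (l : ℕ)
    (hl : l ≤ 10 * N + 2) : G.G.P.eval l ≤ 2 ^ s := by
  have h1 := h.hP l hl
  rw [G.PP_eval] at h1
  omega

/-- `10 M n + 2 ≤ N` (a chain with one member) -/
theorem Par.big {K : (Str → Str) → Set Str} {M : Polynomial ℕ} {κ : Str → Str} {G : AlgV}
    {q : Polynomial ℕ} {R₀ : Str → Str} {n N s : ℕ} (h : Par K M κ G q R₀ n N s) :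
    10 * M.eval n + 2 ≤ N := by
  have h1 := ((h.corr R₀ h.reg fun _ _ => rfl).2
    (fun _ => false :: R₀ (κ (List.replicate n false))) 0 (by simp)).2
  simp only [List.length_cons, h.reg.len, h.ok.len, List.length_replicate] at h1
  have h2 : 10 * M.eval n + 1 + 1 = 10 * M.eval n + 2 := rfl
  rw [h2, h.hN] at h1
  exact h1

/-! ### The sample space -/

/-- a world, two strings `w`, `u` of length `n`, and a value for `w u` -/
abbrev Smp (m N n : ℕ) : Type :=
  Om m N × List.Vector Bool n × List.Vector Bool n × List.Vector Bool (20 * n + 1)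

/-- the string `w u` -/
def aa {m N n : ℕ} (t : Smp m N n) : Str := t.2.1.toList ++ t.2.2.1.toList

/-- the value -/
def zz {m N n : ℕ} (t : Smp m N n) : Str := t.2.2.2.toList

/-- the world before planting -/
noncomputable def wd (R₀ : Str → Str) {m N n : ℕ} (t : Smp m N n) : Str → Str := ex R₀ t.1

/-- the world after planting -/
noncomputable def wp (R₀ : Str → Str) {m N n : ℕ} (t : Smp m N n) : Str → Str :=
  up (wd R₀ t) (aa t) (zz t)

end Pool.Agent.RTT
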