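import Pool.Agent.RTT.Targets
import Pool.Agent.RTS.P_ALT
import Pool.Agent.RDS.P_ALG

set_option autoImplicit false

/-!
# RTT, ALV: non-adaptive algorithms with an oracle in the abstract setting
-/

namespace Pool.Agent.RTT

open Pool.Agent.DSR (Lang PolyTime encPair encBool Ans Letter encAns)
open Pool.Agent.RDS

namespace ALV_

/-- the result as a value of type `Ans` -/
def mvA : Mv (List Str) → Mv Ans
  | .ask v => .ask v
  | .out l => .out (.ask l)

theorem encMv_mvA (m : Mv (List Str)) : encMv encAns (mvA m) = encMv encLst m := by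
  cases m with
  | ask v => rfl
  | out l => rfl

/-- the same machine computes a function with the same encodings of the values -/
theorem poly_congr {α β β' Γ Δ : Type} {ea : α → List Γ} {eb : β → List Δ} {eb' : β' → List Δ}
    {f : α → β} {f' : α → β'} (h : ∀ a, eb' (f' a) = eb (f a)) (hf : PolyTime ea eb f) :
    PolyTime ea eb' f' := by
  obtain ⟨M⟩ := hf
  refine ⟨{ toTM2ComputableAux := M.toTM2ComputableAux, time := M.time, outputsFun := ?_ }⟩
  intro a
  have h1 := M.outputsFun a
  rw [← h a] at h1
  exact h1

theorem run_mvA (O : Orc) (G : Str × List Bool → Mv (List Str)) (x : Str) :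
    ∀ (n : ℕ) (h : List Bool),
      run O (fun p => mvA (G p)) x n h = (run O G x n h).map Ans.ask := by
  intro n
  induction n with
  | zero => intro h; rfl
  | succ n ih =>
    intro h
    unfold run
    cases hG : G (x, h) with
    | out l => simp [mvA]
    | ask v =>
      simp only [mvA]
      exact ih _

theorem run_eq {α β : Type} (O O' : Orc) (G : α × List Bool → Mv β) (a : α) :
    ∀ (n : ℕ) (h : List Bool), (∀ v ∈ Pool.Agent.RTS.asked O G a n h, O' v = O v) →
      run O' G a n h = run O G a n h := by
  intro n
  induction n with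
  | zero => intro h _; rfl
  | succ n ih =>
    intro h hv
    unfold Pool.Agent.RTS.asked at hv
    unfold run
    cases hG : G (a, h) with
    | out b => rfl
    | ask v =>
      rw [hG] at hv
      simp only [List.mem_cons] at hv
      have h1 : O' v = O v := hv v (Or.inl rfl)
      simp only
      rw [h1]
      exact ih (h ++ [O v]) (fun u hu => hv u (Or.inr hu))

end ALV_

open ALV_ in
theorem p_ALV (h1 : Pool.Agent.RDS.T_ALG) : T_ALV := by
  intro U G₁ G₂ r₁ r₂ hG
  obtain ⟨G, hg⟩ := h1 U (fun p => mvA (G₁ p)) r₁ (poly_congr (fun p => encMv_mvA (G₁ p)) hG)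
  refine ⟨{
    G := G
    v := fun R x b => run (orc U R) G₂ (x, b) (r₂.eval (encPair (x, b)).length) []
    T := fun R x b => ((Pool.Agent.RTS.asked (orc U R) G₂ (x, b)
      (r₂.eval (encPair (x, b)).length) []).flatMap Pool.Agent.RDS.ALG_.tk).toFinset
    P := r₂
    loc := fun R R' x b h => ?_
    cardT := fun R x b => ?_ }, fun R x => ?_, fun R x b => rfl⟩
  · refine run_eq _ _ _ _ _ _ fun v hv => ?_
    refine Pool.Agent.RDS.ALG_.orc_eq U R R' v fun u hu => h u ?_
    rw [List.mem_toFinset, List.mem_flatMap]
    exact ⟨v, hv, hu⟩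
  · have h2 : (encPair (x, b)).length = x.length + b.length := by simp [encPair]
    rw [← h2]
    exact (List.toFinset_card_le _).trans ((Pool.Agent.RTS.ALT_.flat_length _
      Pool.Agent.RDS.ALG_.tk_length _).trans (Pool.Agent.RTS.ALT_.asked_length _ _ _ _ _))
  · show G.g R x = _
    rw [hg R x]
    exact run_mvA _ _ _ _ _

end Pool.Agent.RTT
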