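import Pool.Agent.RTT.Targets

set_option autoImplicit false

/-!
# RTT: the chain of instances whose lengths are doubled (CHV)
-/

namespace Pool.Agent.RTT

open Pool.Agent.DSR (Lang PolyTime encPair encBool Ans Letter encAns)
open Pool.Agent.RDS
open Pool.Agent.RTS (Cer SS)
open Pool.Agent.RAD (AD pv pq K3 CorrD)

namespace CHV_

/-- the sets of the strings which are reached increase -/
theorem tre_mono (G : Alg) (R : Str → Str) (x : Str) {i j : ℕ} (h : i ≤ j) :
    Tre G R x i ⊆ Tre G R x j := by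
  induction j with
  | zero =>
    obtain rfl : i = 0 := by omega
    exact Finset.Subset.refl _
  | succ j ih =>
    rcases Nat.lt_or_ge j i with h1 | h1
    · obtain rfl : i = j + 1 := by omega
      exact Finset.Subset.refl _
    · intro y hy
      exact Finset.mem_union_left _ (ih h1 hy)

/-- one more step -/
theorem tre_step (G : Alg) (R : Str → Str) (x : Str) {i : ℕ} {y y' : Str}
    (hy : y ∈ Tre G R x i) (hy' : y' ∈ lst G R y) : y' ∈ Tre G R x (i + 1) := by
  refine Finset.mem_union_right _ ?_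
  rw [Finset.mem_biUnion]
  exact ⟨y, hy, List.mem_toFinset.2 hy'⟩

/-- the strings which are reached are the ends of chains -/
theorem tre_chain (G : Alg) (R : Str → Str) (x : Str) (i : ℕ) :
    ∀ y ∈ Tre G R x i, ∃ (c : ℕ → Str) (k : ℕ), c 0 = x ∧ c k = y ∧
      ∀ j < k, c (j + 1) ∈ lst G R (c j) := by
  induction i with
  | zero =>
    intro y hy
    have h1 : y = x := Finset.mem_singleton.1 hy
    exact ⟨fun _ => x, 0, rfl, h1.symm, fun j hj => absurd hj (Nat.not_lt_zero j)⟩
  | succ i ih =>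
    intro y hy
    rcases Finset.mem_union.1 hy with h1 | h1
    · exact ih y h1
    · rw [Finset.mem_biUnion] at h1
      obtain ⟨y₁, hy₁, h2⟩ := h1
      obtain ⟨c, k, hc0, hck, hc⟩ := ih y₁ hy₁
      refine ⟨fun j => if j ≤ k then c j else y, k + 1, ?_, ?_, ?_⟩
      · simp only [Nat.zero_le, if_true]
        exact hc0
      · have h3 : ¬ k + 1 ≤ k := by omega
        simp only [h3, if_false]
      · intro j hj
        have h3 : j ≤ k := by omega
        rcases Nat.lt_or_ge j k with h4 | h4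
        · have h5 : j + 1 ≤ k := h4
          simp only [h3, h5, if_true]
          exact hc j h4
        · obtain rfl : j = k := by omega
          have h5 : ¬ j + 1 ≤ j := by omega
          simp only [le_refl, h5, if_true, if_false, hck]
          exact List.mem_toFinset.1 h2

/-- they have length at most `N` -/
theorem tre_len {K : (Str → Str) → Set Str} {M : Polynomial ℕ} {κ : Str → Str} {G : AlgV}
    {q : Polynomial ℕ} {R₀ : Str → Str} {n N s : ℕ} (hP : Par K M κ G q R₀ n N s)
    {R : Str → Str} (hR : Reg R) (hA : Agr (n + 1) R₀ R) {w : Str} (hw : w.length = n)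
    {i : ℕ} {y : Str} (hy : y ∈ Tre G.G R (false :: R (κ w)) i) : y.length ≤ N := by
  obtain ⟨c, k, hc0, hck, hc⟩ := tre_chain G.G R _ i y hy
  have h1 := ((hP.corr R hR hA).2 c k hc).2
  rw [hck, hc0, List.length_cons, hR.len, hP.ok.len, hw] at h1
  have h2 : 10 * M.eval n + 1 + 1 = 10 * M.eval n + 2 := rfl
  rw [h2, hP.hN] at h1
  exact h1

/-- an instance which becomes true has `a` in its certificate -/
theorem mem_SS {K : (Str → Str) → Set Str} {M : Polynomial ℕ} {κ : Str → Str}
    (hK : KOkV K M κ) {R : Str → Str} {a z ψ : Str} (h1 : ψ ∈ K (up R a z)) (h2 : ψ ∉ K R) :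
    a ∈ SS K (up R a z) ψ := by
  by_contra h3
  refine h2 ((SS_spec hK h1).2.2 R fun v hv => ?_)
  have h4 : v ≠ a := fun h => h3 (h ▸ hv)
  exact (up_ne R z h4).symm

/-- the lengths on a path -/
theorem pth_len (G : Alg) (R : Str → Str) (p : ℕ → Str) (i : ℕ) (h : Pth G R p i)
    (h0 : 1 ≤ (p 0).length) : ∀ j ≤ i, 2 ^ j ≤ (p j).length := by
  intro j
  induction j with
  | zero =>
    intro _
    simpa using h0
  | succ j ih =>
    intro hj
    have h1 := ih (by omega)
    have h2 := (h j (by omega)).1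
    rw [pow_succ]
    omega

/-- one step of the chain -/
theorem step (h1 : T_STP) {K : (Str → Str) → Set Str} {M : Polynomial ℕ} {κ : Str → Str}
    {G : AlgV} {q : Polynomial ℕ} {R₀ : Str → Str} {n N s : ℕ} (hP : Par K M κ G q R₀ n N s)
    {R : Str → Str} {w a z : Str} (hR : Reg R) (hA : Agr (n + 1) R₀ R) (hw : w.length = n)
    (ha : a.length = 2 * n) (hW : Reg (up R a z)) (hCW : CorrV K G q (up R a z))
    (hbad : ∀ x ∈ Tre G.G R (false :: R (κ w)) (s + 1), a ∉ TouV K G R x ∧ z ∉ Vls G.G R x)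
    (h5 : ¬ Ev5 G.G n N R) (h4 : ¬ Ev4 K G.G N (up R a z) a)
    (h3 : ∀ ψ, ¬ Ev3 K G.G N (s + 1) (up R a z) (κ w) a ψ) {i : ℕ} (hi : i ≤ s)
    {p : ℕ → Str} (hp0 : p 0 = κ w) (hp : Pth G.G (up R a z) p i)
    (hpW : p i ∈ K (up R a z)) (hpR : p i ∉ K R)
    (hpT : false :: R (p i) ∈ Tre G.G R (false :: R (κ w)) i) :
    ∃ ψ : Str, 2 * (p i).length ≤ ψ.length ∧
      ψ ∈ G.G.T (up R a z) (false :: up R a z (p i)) ∧ ψ ∈ K (up R a z) ∧ ψ ∉ K R ∧
      false :: R ψ ∈ Tre G.G R (false :: R (κ w)) (i + 1) := by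
  have hS := mem_SS hP.ok hpW hpR
  have hlen := Pool.Agent.RTS.SS_len hS
  have hne : p i ≠ a := by
    intro h
    rw [h] at hlen
    omega
  obtain ⟨hT, hV⟩ := hbad _ (tre_mono G.G R _ (show i ≤ s + 1 by omega) hpT)
  obtain ⟨ψ, hψa, hψp, hψW, hψR, hψl⟩ := h1 K M κ hP.ok G q R a z (p i) hR hW
    (hP.corr R hR hA) hCW hne hpW hpR hT hV
  have hWp : up R a z (p i) = R (p i) := up_ne R z hne
  have hWψ : up R a z ψ = R ψ := up_ne R z hψa
  have hpN : (p i).length ≤ N := by
    have h := tre_len hP hR hA hw hpT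
    rw [List.length_cons, hR.len] at h
    omega
  have hψT : false :: R ψ ∈ Tre G.G R (false :: R (κ w)) (i + 1) := tre_step G.G R _ hpT hψl
  have hψN : ψ.length ≤ N := by
    have h := tre_len hP hR hA hw hψT
    rw [List.length_cons, hR.len] at h
    omega
  have hSψ := mem_SS hP.ok hψW hψR
  have hnT : p i ∉ G.G.T (up R a z) (false :: up R a z (p i)) := by
    intro h
    exact h4 ⟨hW, p i, hpW, hS, hpN, h⟩
  have haT : a ∉ G.G.T R (false :: R (p i)) := fun h => hT (Or.inl h)
  obtain ⟨hg, hTT⟩ := G.G.loc R (up R a z) (false :: R (p i)) (by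
    intro v hv
    have hva : v ≠ a := fun h => haT (h ▸ hv)
    exact (up_ne R z hva).symm)
  have hlst : lst G.G (up R a z) (false :: R (p i)) = lst G.G R (false :: R (p i)) := by
    unfold lst
    rw [hg]
  have h2 : 2 * (p i).length ≤ ψ.length := by
    by_contra hlt
    refine h3 (p i) ⟨hW, p, i, by omega, hp0, rfl, hp, hpN, hlen, hnT, ψ, hψp, hψW,
      by omega, ?_, hSψ⟩
    rw [hWψ, hWp, hlst]
    exact hψl
  refine ⟨ψ, h2, ?_, hψW, hψR, hψT⟩
  rw [hWp, hTT]
  by_contra hnot
  refine h5 ⟨p i, ψ, h2, mem_FF.2 ⟨?_, hψN⟩, hψl, hnot⟩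
  have h6 := Pool.Agent.RTS.SS_len hSψ
  omega

end CHV_

open CHV_ in
theorem p_CHV (h1 : T_STP) : T_CHV := by
  intro K M κ G q R₀ n N s hP R w u z hR hA hw hu hz hpl hκ hnew hbad h5 h4 h3
  have hn : 28 ≤ n := by
    have h := hP.hs
    omega
  have ha : (w ++ u).length = 2 * n := by
    rw [List.length_append, hw, hu]
    omega
  have hW : Reg (up R (w ++ u) z) := by
    refine up_reg hR ?_ hnew
    rw [hz, ha]
    omega
  have hAW : Agr (n + 1) R₀ (up R (w ++ u) z) := by
    intro v hv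
    rw [hA v hv]
    exact up_agr R z (m := n + 1) (by omega) v hv
  have hCW := hP.corr _ hW hAW
  have key : ∀ i, i ≤ s + 1 → ∃ p : ℕ → Str, p 0 = κ w ∧ Pth G.G (up R (w ++ u) z) p i ∧
      p i ∈ K (up R (w ++ u) z) ∧ p i ∉ K R ∧
      false :: R (p i) ∈ Tre G.G R (false :: R (κ w)) i := by
    intro i
    induction i with
    | zero =>
      intro _
      refine ⟨fun _ => κ w, rfl, fun j hj => absurd hj (Nat.not_lt_zero j), ?_, hκ,
        Finset.mem_singleton_self _⟩
      refine (hP.ok.plant _ w).2 ⟨u, hu.trans hw.symm, ?_⟩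
      rw [up_self, hw]
      exact hpl
    | succ i ih =>
      intro hi
      obtain ⟨p, hp0, hp, hpW, hpR, hpT⟩ := ih (by omega)
      obtain ⟨ψ, h6, h7, h8, h9, h10⟩ := step h1 hP hR hA hw ha hW hCW hbad h5 h4 h3
        (show i ≤ s by omega) hp0 hp hpW hpR hpT
      have e1 : ∀ j, j ≤ i → (fun j => if j ≤ i then p j else ψ) j = p j := by
        intro j hj
        simp only [hj, if_true]
      have e2 : (fun j => if j ≤ i then p j else ψ) (i + 1) = ψ := by
        have h : ¬ i + 1 ≤ i := by omega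
        simp only [h, if_false]
      refine ⟨fun j => if j ≤ i then p j else ψ, ?_, ?_, ?_, ?_, ?_⟩
      · exact (e1 0 (Nat.zero_le _)).trans hp0
      · intro j hj
        rcases Nat.lt_or_ge j i with h | h
        · rw [e1 j h.le, e1 (j + 1) h]
          exact hp j h
        · obtain rfl : j = i := by omega
          rw [e1 j le_rfl, e2]
          exact ⟨h6, h7⟩
      · rw [e2]
        exact h8
      · rw [e2]
        exact h9
      · rw [e2]
        exact h10
  obtain ⟨p, hp0, hp, -, -, hpT⟩ := key (s + 1) le_rfl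
  have hlen := tre_len hP hR hA hw hpT
  rw [List.length_cons, hR.len] at hlen
  have h0 : 1 ≤ (p 0).length := by
    rw [hp0, hP.ok.len]
    have h := hP.ok.big w.length
    omega
  have h6 := pth_len G.G _ p (s + 1) hp h0 (s + 1) le_rfl
  have h7 := hP.hNs
  rw [pow_succ] at h6
  omega

end Pool.Agent.RTT
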