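import Pool.Agent.RTT.Targets

set_option autoImplicit false

/-!
# RTT, block CORE: the hypothesis HHV is refuted (assembly)
-/

namespace Pool.Agent.RTT

open Pool.Agent.RDS

theorem p_CORE (hCOV : T_COV) (hASY : Pool.Agent.RDS.T_ASY) : T_CORE := by
  intro K M κ hK G q R₀ m₀ hR₀ H
  obtain ⟨n, s, hm₀, hn1, hcn, hq, hP, hs⟩ := hASY (G.PP.comp (Polynomial.X + 1))
    (q.comp (Polynomial.C 10 * M + Polynomial.C 2)) 20 m₀
  obtain ⟨N, hN⟩ : ∃ N, N = q.eval (10 * M.eval n + 2) := ⟨_, rfl⟩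
  have hle : N ≤ (q.comp (Polynomial.C 10 * M + Polynomial.C 2)).eval (10 * n + 1) := by
    rw [hN, Polynomial.eval_comp, Polynomial.eval_add, Polynomial.eval_mul, Polynomial.eval_C,
      Polynomial.eval_C]
    refine eval_mono q ?_
    have := eval_mono M (show n ≤ 10 * n + 1 by omega)
    omega
  refine hCOV K M κ G q R₀ n N s ⟨hK, hR₀, fun R hR hA => H R hR fun u hu => hA u (by omega),
    hN.symm, hle.trans hq, fun l hl => ?_, by omega⟩
  have h1 := hP (l - 1) (by omega)
  rw [Polynomial.eval_comp, Polynomial.eval_add, Polynomial.eval_X, Polynomial.eval_one] at h1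
  exact (eval_mono G.PP (by omega)).trans h1

end Pool.Agent.RTT
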