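import Pool.Agent.RTT.Targets

/-!
# RTT, target COV: a good sample exists, contradiction
-/

set_option autoImplicit false

namespace Pool.Agent.RTT

open Pool.Agent.RDS

namespace COV_

theorem ncard_ors {α : Type*} [Finite α] (S B0 B1 B2 B3 B4 B5 B6 : Set α) (T : ℕ) (hT : 0 < T)
    (hS : S.ncard = T) (h0 : B0.ncard * 2 ≤ T) (h1 : B1.ncard * 16 ≤ T) (h2 : B2.ncard * 16 ≤ T)
    (h3 : B3.ncard * 16 ≤ T) (h4 : B4.ncard * 16 ≤ T) (h5 : B5.ncard * 16 ≤ T)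
    (h6 : B6.ncard * 8 ≤ T) :
    ∃ t ∈ S, t ∉ B0 ∧ t ∉ B1 ∧ t ∉ B2 ∧ t ∉ B3 ∧ t ∉ B4 ∧ t ∉ B5 ∧ t ∉ B6 := by
  by_contra hcon
  push Not at hcon
  have hU : S ⊆ B0 ∪ B1 ∪ B2 ∪ B3 ∪ B4 ∪ B5 ∪ B6 := by
    intro t ht
    by_contra hn
    simp only [Set.mem_union, not_or] at hn
    obtain ⟨⟨⟨⟨⟨⟨c0, c1⟩, c2⟩, c3⟩, c4⟩, c5⟩, c6⟩ := hn
    exact c6 (hcon t ht c0 c1 c2 c3 c4 c5)
  have e := Set.ncard_le_ncard hU (Set.toFinite _)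
  have e1 := Set.ncard_union_le B0 B1
  have e2 := Set.ncard_union_le (B0 ∪ B1) B2
  have e3 := Set.ncard_union_le (B0 ∪ B1 ∪ B2) B3
  have e4 := Set.ncard_union_le (B0 ∪ B1 ∪ B2 ∪ B3) B4
  have e5 := Set.ncard_union_le (B0 ∪ B1 ∪ B2 ∪ B3 ∪ B4) B5
  have e6 := Set.ncard_union_le (B0 ∪ B1 ∪ B2 ∪ B3 ∪ B4 ∪ B5) B6
  omega

end COV_

open COV_ in
theorem p_COV (h1 : T_PRJ) (h2 : Pool.Agent.RDS.T_INJC) (h3 : T_EV0) (h4 : T_EV1) (h5 : T_EV2)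
    (h6 : T_EV3) (h7 : T_EV4) (h8 : T_EV5) (h9 : T_CHV) : T_COV := by
  intro K M κ G q R₀ n N s hP
  have hC : 0 < Fintype.card (Om n N) :=
    Fintype.card_pos_iff.2 ⟨fun u => List.Vector.replicate _ false⟩
  have hsn : s ≤ n := by
    have := hP.hs
    nlinarith
  have hn1 : 1 ≤ n := by
    have := hP.hs
    omega
  have hNn : N ≤ 2 ^ n := hP.hNs.trans (Nat.pow_le_pow_right (by norm_num) hsn)
  -- all samples
  have hS : {t : Smp n N n | Pl n (zz t)}.ncard = Fintype.card (Om n N) * 2 ^ (21 * n) := by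
    have e := h1.1 n N n (fun _ => True)
    simp only [and_true, Set.ofPred_true, Set.ncard_univ, Nat.card_eq_fintype_card] at e
    exact e
  -- the events of the world
  have hb5 : {t : Smp n N n | Pl n (zz t) ∧ Ev5 G.G n N (ex R₀ t.1)}.ncard * 16 ≤
      Fintype.card (Om n N) * 2 ^ (21 * n) := by
    rw [h1.1 n N n (fun ω => Ev5 G.G n N (ex R₀ ω)), mul_right_comm]
    exact Nat.mul_le_mul_right _ (h8 K M κ G q R₀ n N s hP)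
  have hb6 : {t : Smp n N n | Pl n (zz t) ∧ ¬ Reg (ex R₀ t.1)}.ncard * 8 ≤
      Fintype.card (Om n N) * 2 ^ (21 * n) := by
    rw [h1.1 n N n (fun ω => ¬ Reg (ex R₀ ω)), mul_right_comm]
    exact Nat.mul_le_mul_right _ (h2 R₀ n N hP.reg hn1 hNn)
  obtain ⟨t, ht, t0, t1, t2, t3, t4, t5, t6⟩ := ncard_ors _ _ _ _ _ _ _ _ _
    (by positivity) hS (h3 K M κ G q R₀ n N s hP) (h4 K M κ G q R₀ n N s hP)
    (h5 K M κ G q R₀ n N s hP) (h6 K M κ G q R₀ n N s hP) (h7 K M κ G q R₀ n N s hP) hb5 hb6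
  have hPl : Pl n (zz t) := ht
  have hreg : Reg (wd R₀ t) := by
    by_contra hn
    exact t6 ⟨hPl, hn⟩
  have hagr : Agr (n + 1) R₀ (wd R₀ t) := by
    intro u hu
    show R₀ u = ex R₀ t.1 u
    unfold ex
    rw [dif_neg]
    rw [mem_FF]
    omega
  refine h9 K M κ G q R₀ n N s hP (wd R₀ t) t.2.1.toList t.2.2.1.toList (zz t) hreg hagr
    t.2.1.toList_length t.2.2.1.toList_length t.2.2.2.toList_length hPl
    (fun h => t0 ⟨hPl, h⟩) (fun b hb he => t2 ⟨hreg, Or.inl ⟨b, hb, he⟩⟩)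
    (fun x hx => ⟨fun h => t1 ⟨hPl, hreg, x, hx, h⟩, fun h => t2 ⟨hreg, Or.inr ⟨x, hx, h⟩⟩⟩)
    (fun h => t5 ⟨hPl, h⟩) (fun h => t4 h) (fun ψ h => t3 ⟨ψ, h⟩)

end Pool.Agent.RTT
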