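import Pool.Agent.RTT.Targets

set_option autoImplicit false

/-!
# RTT, target D2V: disjunctive self-reductions as non-adaptive ones
-/

namespace Pool.Agent.RTT

open Pool.Agent.DSR (Lang PolyTime encPair encBool Ans Letter encAns)
open Pool.Agent.RDS
open Pool.Agent.RAD (AD pv pq CorrD)

namespace D2V_

/-- the result for the answers `b` -/
def res : Option Ans → Str → Option Bool
  | none, _ => none
  | some .accept, _ => some true
  | some .reject, _ => some false
  | some (.ask _), b => some (decide (true ∈ b))

theorem mem_lst {G : Alg} {R : Str → Str} {x y : Str} (h : y ∈ lst G R x) : Kid G R x y := by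
  unfold lst at h
  split at h
  · exact ⟨_, by assumption, h⟩
  · simp at h

open Classical in
theorem true_mem_bts (A : Lang) (l : List Str) : true ∈ bts A l ↔ ∃ y ∈ l, y ∈ A := by
  unfold bts
  rw [List.mem_map]
  constructor
  · rintro ⟨y, hy, h⟩
    exact ⟨y, hy, by simpa using h⟩
  · rintro ⟨y, hy, h⟩
    exact ⟨y, hy, by simpa using h⟩

end D2V_

open D2V_ in
/-- **D2V** -/
theorem p_D2V : T_D2V := by
  intro G
  refine ⟨{ G := G
            v := fun R x b => res (G.g R x) b
            T := fun R x _ => G.T R x
            P := G.P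
            loc := fun R R' x b h => ?_
            cardT := fun R x b => (G.cardT R x).trans (eval_mono G.P (Nat.le_add_right _ _)) }, ?_⟩
  · show res (G.g R' x) b = res (G.g R x) b
    rw [(G.loc R R' x h).1]
  · intro K q R hC
    refine ⟨fun x => ?_, fun c k hc => hC.2 c k fun i hi => mem_lst (hc i hi)⟩
    obtain ⟨a, ha, hR⟩ := hC.1 x
    show ∃ b, res (G.g R x) (bts (AD K R) (lst G R x)) = some b ∧ (b = true ↔ x ∈ AD K R)
    rw [ha]
    cases a with
    | accept => exact ⟨true, rfl, ⟨fun _ => hR, fun _ => rfl⟩⟩
    | reject => exact ⟨false, rfl, ⟨fun h => absurd h (by simp), fun h => absurd h hR⟩⟩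
    | ask l =>
      refine ⟨_, rfl, ?_⟩
      have hl : lst G R x = l := by
        unfold lst
        rw [ha]
      rw [decide_eq_true_eq, hl, true_mem_bts]
      exact hR.symm

end Pool.Agent.RTT
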