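import Pool.Agent.RTT.Targets

set_option autoImplicit false

/-!
# RTT, target E3L: the exchange argument, counting
-/

namespace Pool.Agent.RTT

open Pool.Agent.DSR (Lang PolyTime encPair encBool Ans Letter encAns)
open Pool.Agent.RDS
open Pool.Agent.RTS (Cer SS)
open Pool.Agent.RAD (AD pv pq K3 CorrD)

namespace E3L_

theorem ncard_sum {α : Type} [Fintype α] (p : α → Prop) [DecidablePred p] :
    {x : α | p x}.ncard = ∑ x, if p x then 1 else 0 := by
  rw [← Finset.card_filter, ← Set.ncard_coe_finset]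
  congr 1
  ext x
  simp

theorem card_vec (k : ℕ) : Fintype.card (List.Vector Bool k) = 2 ^ k := by
  rw [card_vector, Fintype.card_bool]

open Classical in
/-- The number of strings which are no values. -/
theorem new_card {R : Str → Str} (hR : Reg R) (l : ℕ) :
    2 ^ (10 * l) ≤ ∑ y : List.Vector Bool (10 * l + 1), if (∀ u, R u ≠ y.toList) then 1 else 0 := by
  rw [← Finset.card_filter]
  have h1 : (Finset.univ.filter fun y : List.Vector Bool (10 * l + 1) =>
      ¬ ∀ u, R u ≠ y.toList).card ≤ 2 ^ l := by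
    have h2 : (Finset.univ.filter fun y : List.Vector Bool (10 * l + 1) =>
        ¬ ∀ u, R u ≠ y.toList) ⊆ (Finset.univ : Finset (List.Vector Bool l)).image
          fun v => (⟨R v.toList, by rw [hR.len, v.toList_length]⟩ :
            List.Vector Bool (10 * l + 1)) := by
      intro y hy
      rw [Finset.mem_filter] at hy
      have h3 := hy.2
      push Not at h3
      obtain ⟨u, hu⟩ := h3
      rw [Finset.mem_image]
      have hul : u.length = l := by
        have h4 := hR.len u
        rw [hu, y.toList_length] at h4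
        omega
      exact ⟨⟨u, hul⟩, Finset.mem_univ _, Subtype.ext hu⟩
    refine (Finset.card_le_card h2).trans (Finset.card_image_le.trans ?_)
    rw [Finset.card_univ, card_vec]
  have h3 := Finset.card_filter_add_card_filter_not
    (s := (Finset.univ : Finset (List.Vector Bool (10 * l + 1)))) (fun y => ∀ u, R u ≠ y.toList)
  rw [Finset.card_univ, card_vec, pow_succ] at h3
  have h4 : 2 ^ l ≤ 2 ^ (10 * l) := Nat.pow_le_pow_right (by norm_num) (by omega)
  omega

theorem arith (s n l : ℕ) (hs : s * s + 6 * s + 28 ≤ n) (hn : n < l) :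
    1 + 2 ^ ((s + 1) * (s + 2)) + 2 ^ s ≤ 2 ^ (l - 1) := by
  have h1 : (s + 1) * (s + 2) ≤ l - 3 := by
    have : (s + 1) * (s + 2) = s * s + 3 * s + 2 := by ring
    omega
  have h2 : s ≤ l - 3 := by
    have : 0 ≤ s * s := Nat.zero_le _
    omega
  have h3 : 2 ^ ((s + 1) * (s + 2)) ≤ 2 ^ (l - 3) := Nat.pow_le_pow_right (by norm_num) h1
  have h4 : 2 ^ s ≤ 2 ^ (l - 3) := Nat.pow_le_pow_right (by norm_num) h2
  have h5 : 1 ≤ 2 ^ (l - 3) := Nat.one_le_two_pow
  have h6 : l - 1 = (l - 3) + 2 := by omega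
  rw [h6, pow_add]
  omega

open Classical in
/-- The number of allowed strings. -/
theorem allow_card {R : Str → Str} (hR : Reg R) (s n l : ℕ) (T : Finset Str) (L : List Str)
    (ψ : List.Vector Bool l) (hT : T.card ≤ 2 ^ ((s + 1) * (s + 2))) (hL : L.length ≤ 2 ^ s)
    (hs : s * s + 6 * s + 28 ≤ n) (hn : n < l) :
    2 ^ (l - 1) ≤ (Finset.univ.filter fun ψ' : List.Vector Bool l =>
      ψ' ≠ ψ ∧ ψ'.toList ∉ T ∧ false :: R ψ'.toList ∉ L).card := by
  have h0 := Finset.card_filter_add_card_filter_not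
    (s := (Finset.univ : Finset (List.Vector Bool l)))
    (fun ψ' => ψ' ≠ ψ ∧ ψ'.toList ∉ T ∧ false :: R ψ'.toList ∉ L)
  rw [Finset.card_univ, card_vec] at h0
  have h1 : (Finset.univ.filter fun ψ' : List.Vector Bool l =>
      ¬ (ψ' ≠ ψ ∧ ψ'.toList ∉ T ∧ false :: R ψ'.toList ∉ L)) ⊆
      ({ψ} ∪ Finset.univ.filter fun ψ' : List.Vector Bool l => ψ'.toList ∈ T) ∪
        Finset.univ.filter fun ψ' : List.Vector Bool l => false :: R ψ'.toList ∈ L := by
    intro v hv
    rw [Finset.mem_filter] at hv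
    rw [Finset.mem_union, Finset.mem_union, Finset.mem_singleton, Finset.mem_filter,
      Finset.mem_filter]
    by_contra hc
    push Not at hc
    exact hv.2 ⟨hc.1.1, hc.1.2 (Finset.mem_univ _), hc.2 (Finset.mem_univ _)⟩
  have h2 : (Finset.univ.filter fun ψ' : List.Vector Bool l => ψ'.toList ∈ T).card ≤ T.card := by
    refine Finset.card_le_card_of_injOn (fun v => v.toList) ?_ ?_
    · intro v hv
      simpa using hv
    · intro v _ v' _ h
      exact Subtype.ext h
  have h3 : (Finset.univ.filter fun ψ' : List.Vector Bool l =>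
      false :: R ψ'.toList ∈ L).card ≤ L.length := by
    refine le_trans ?_ (List.toFinset_card_le L)
    refine Finset.card_le_card_of_injOn (fun v => false :: R v.toList) ?_ ?_
    · intro v hv
      simpa using hv
    · intro v _ v' _ h
      have h' : R v.toList = R v'.toList := by simpa using h
      exact Subtype.ext (hR.inj h')
  have h4 := (Finset.card_le_card h1).trans (Finset.card_union_le _ _)
  have h5 := Finset.card_union_le {ψ} (Finset.univ.filter fun ψ' : List.Vector Bool l =>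
    ψ'.toList ∈ T)
  rw [Finset.card_singleton] at h5
  have h6 := arith s n l hs hn
  have h7 : 2 ^ l = 2 * 2 ^ (l - 1) := by
    have : l = (l - 1) + 1 := by omega
    rw [← pow_succ', ← this]
  omega

open Classical in
/-- The number of triples for a fixed oracle. -/
theorem cnt {K : (Str → Str) → Set Str} {G : Alg} (h3 : T_RCC) (Z : Str → Str) (N s n l : ℕ)
    (κ : Str → Str) (hN : N ≤ 2 ^ s) (hP : ∀ l, l ≤ 10 * N + 2 → G.P.eval l ≤ 2 ^ s) (ψ' : Str)
    (hψ' : ψ'.length ≤ N) :
    ∑ w : List.Vector Bool n, ∑ u : List.Vector Bool n, ∑ ψ : List.Vector Bool l,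
      (if (Reg Z ∧ ψ.toList ∈ Rea G Z N (κ w.toList) (s + 1) ∧
        w.toList ++ u.toList ∈ The K G Z ψ') then 1 else 0) ≤
      2 ^ (2 * s + 1) * 2 ^ ((s + 1) * (s + 1)) := by
  by_cases hZ : Reg Z
  swap
  · simp [hZ]
  obtain ⟨hRe, hTh⟩ := h3 K G Z N s hZ hN hP
  obtain ⟨hfin, hcard⟩ := hTh ψ' hψ'
  have h1 : ∀ w u : List.Vector Bool n, (∑ ψ : List.Vector Bool l,
      (if (Reg Z ∧ ψ.toList ∈ Rea G Z N (κ w.toList) (s + 1) ∧
        w.toList ++ u.toList ∈ The K G Z ψ') then 1 else 0)) ≤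
      (if w.toList ++ u.toList ∈ The K G Z ψ' then 1 else 0) * 2 ^ ((s + 1) * (s + 1)) := by
    intro w u
    by_cases hw : w.toList ++ u.toList ∈ The K G Z ψ'
    · rw [if_pos hw, one_mul, ← Finset.card_filter]
      refine le_trans ?_ (hRe (κ w.toList) (s + 1))
      refine Finset.card_le_card_of_injOn (fun v => v.toList) ?_ ?_
      · intro v hv
        have hv' : v ∈ Finset.univ.filter fun ψ : List.Vector Bool l =>
          (Reg Z ∧ ψ.toList ∈ Rea G Z N (κ w.toList) (s + 1) ∧
            w.toList ++ u.toList ∈ The K G Z ψ') := hv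
        rw [Finset.mem_filter] at hv'
        exact hv'.2.2.1
      · intro v _ v' _ h
        exact Subtype.ext h
    · rw [if_neg hw, zero_mul]
      refine le_of_eq (Finset.sum_eq_zero fun ψ _ => ?_)
      rw [if_neg fun h => hw h.2.2]
  refine (Finset.sum_le_sum fun w _ => Finset.sum_le_sum fun u _ => h1 w u).trans ?_
  simp only [← Finset.sum_mul]
  refine Nat.mul_le_mul_right _ ?_
  have h2 : ∑ w : List.Vector Bool n, ∑ u : List.Vector Bool n,
      (if w.toList ++ u.toList ∈ The K G Z ψ' then 1 else 0) =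
      (Finset.univ.filter fun p : List.Vector Bool n × List.Vector Bool n =>
        p.1.toList ++ p.2.toList ∈ The K G Z ψ').card := by
    rw [Finset.card_filter, Fintype.sum_prod_type]
  rw [h2]
  refine le_trans ?_ hcard
  rw [Set.ncard_eq_toFinset_card _ hfin]
  refine Finset.card_le_card_of_injOn (fun p => p.1.toList ++ p.2.toList) ?_ ?_
  · intro p hp
    have hp' : p ∈ Finset.univ.filter fun p : List.Vector Bool n × List.Vector Bool n =>
        p.1.toList ++ p.2.toList ∈ The K G Z ψ' := hp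
    rw [Finset.mem_filter] at hp'
    exact (Set.Finite.mem_toFinset hfin).2 hp'.2
  · intro p _ p' _ h
    have h' : p.1.toList ++ p.2.toList = p'.1.toList ++ p'.2.toList := h
    have h'' := List.append_inj h' (by rw [p.1.toList_length, p'.1.toList_length])
    exact Prod.ext (Subtype.ext h''.1) (Subtype.ext h''.2)

/-- The exchange, for a length `l`. -/
theorem swt (h1 : T_SWT) (R₀ : Str → Str) (m N l : ℕ) (ψ ψ' : Str) (h : ψ ∈ FF m N)
    (h' : ψ' ∈ FF m N) (hne : ψ ≠ ψ') (hl : ψ.length = l) (hl' : ψ'.length = l)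
    (d : (Str → Str) → Prop) :
    ∑ ω : Om m N, {y : List.Vector Bool (10 * l + 1) |
        d (up (up (ex R₀ ω) ψ y.toList) ψ' (ex R₀ ω ψ))}.ncard =
      {ω : Om m N | d (ex R₀ ω)}.ncard * 2 ^ (10 * l + 1) := by
  subst hl
  exact h1 R₀ m N ψ ψ' h h' hne hl'.symm d

theorem comm5 {A B C D E : Type} [Fintype A] [Fintype B] [Fintype C] [Fintype D] [Fintype E]
    (a : A → B → C → D → E → ℕ) :
    ∑ w, ∑ u, ∑ ψ, ∑ ψ', ∑ ω, a w u ψ ψ' ω = ∑ ψ', ∑ ω, ∑ w, ∑ u, ∑ ψ, a w u ψ ψ' ω := by
  have h := Finset.sum_comm (s := (Finset.univ : Finset (A × B × C)))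
    (t := (Finset.univ : Finset (D × E))) (f := fun p r => a p.1 p.2.1 p.2.2 r.1 r.2)
  simpa only [Fintype.sum_prod_type] using h

theorem comm3 {A B C : Type} [Fintype A] [Fintype B] [Fintype C] (a : A → B → C → ℕ) :
    ∑ ω, ∑ ψ, ∑ ψ', a ω ψ ψ' = ∑ ψ, ∑ ψ', ∑ ω, a ω ψ ψ' := by
  have h := Finset.sum_comm (s := (Finset.univ : Finset A))
    (t := (Finset.univ : Finset (B × C))) (f := fun p r => a p r.1 r.2)
  simpa only [Fintype.sum_prod_type] using h

end E3L_

open E3L_ in
theorem p_E3L (h1 : T_SWT) (h2 : T_RCH) (h3 : T_RCC) : T_E3L := by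
  classical
  intro K M κ G q R₀ n N s hPar l hnl hlN
  -- the event for one string
  let E : Om n N → List.Vector Bool n → List.Vector Bool n → List.Vector Bool l → Prop :=
    fun ω w u ψ => Ev3 K G.G N (s + 1) (ex R₀ ω) (κ w.toList) (w.toList ++ u.toList) ψ.toList
  let d : List.Vector Bool n → List.Vector Bool n → List.Vector Bool l → List.Vector Bool l →
      (Str → Str) → Prop := fun w u ψ ψ' Z =>
    Reg Z ∧ ψ.toList ∈ Rea G.G Z N (κ w.toList) (s + 1) ∧
      w.toList ++ u.toList ∈ The K G.G Z ψ'.toList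
  have hGP : ∀ l, l ≤ 10 * N + 2 → G.G.P.eval l ≤ 2 ^ s := fun l hl => hPar.hG l hl
  have step1 : ∀ w u : List.Vector Bool n, {ω : Om n N | ∃ ψ : Str, ψ.length = l ∧
      Ev3 K G.G N (s + 1) (ex R₀ ω) (κ w.toList) (w.toList ++ u.toList) ψ}.ncard ≤
      ∑ ω, ∑ ψ, if E ω w u ψ then 1 else 0 := by
    intro w u
    rw [ncard_sum]
    refine Finset.sum_le_sum fun ω _ => ?_
    split_ifs with h
    · obtain ⟨ψ, hψ, hE⟩ := h
      let v : List.Vector Bool l := ⟨ψ, hψ⟩
      have hE' : E ω w u v := hE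
      refine le_trans ?_ (Finset.single_le_sum
        (f := fun ψ : List.Vector Bool l => if E ω w u ψ then 1 else 0)
        (fun _ _ => Nat.zero_le _) (Finset.mem_univ v))
      rw [if_pos hE']
    · exact Nat.zero_le _
  have step2 : ∀ (w u : List.Vector Bool n) (ω : Om n N) (ψ : List.Vector Bool l),
      (if E ω w u ψ then 1 else 0) * (2 ^ (l - 1) * 2 ^ (10 * l)) ≤
      ∑ ψ' : List.Vector Bool l, if ψ' ≠ ψ then ∑ y : List.Vector Bool (10 * l + 1),
        (if d w u ψ ψ' (up (up (ex R₀ ω) ψ.toList y.toList) ψ'.toList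
          (ex R₀ ω ψ.toList)) then 1 else 0) else 0 := by
    intro w u ω ψ
    by_cases hE : E ω w u ψ
    swap
    · rw [if_neg hE, zero_mul]
      exact Nat.zero_le _
    rw [if_pos hE, one_mul]
    have hR : Reg (ex R₀ ω) := hE.1
    have hlst : (lst G.G (ex R₀ ω) (false :: ex R₀ ω ψ.toList)).length ≤ 2 ^ s := by
      unfold lst
      split
      · rename_i L hL
        refine (G.G.kids _ _ _ hL).trans (hGP _ ?_)
        rw [List.length_cons, hR.len, ψ.toList_length]
        omega
      · exact Nat.zero_le _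
    have hTc : (Rea G.G (ex R₀ ω) N (κ w.toList) (s + 2)).card ≤ 2 ^ ((s + 1) * (s + 2)) :=
      (h3 K G.G (ex R₀ ω) N s hR hPar.hNs hGP).1 _ _
    have hal := allow_card hR s n l (Rea G.G (ex R₀ ω) N (κ w.toList) (s + 2))
      (lst G.G (ex R₀ ω) (false :: ex R₀ ω ψ.toList)) ψ hTc hlst hPar.hs hnl
    have hnew := new_card hR l
    calc 2 ^ (l - 1) * 2 ^ (10 * l)
        ≤ (Finset.univ.filter fun ψ' : List.Vector Bool l =>
            ψ' ≠ ψ ∧ ψ'.toList ∉ Rea G.G (ex R₀ ω) N (κ w.toList) (s + 2) ∧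
              false :: ex R₀ ω ψ'.toList ∉
                lst G.G (ex R₀ ω) (false :: ex R₀ ω ψ.toList)).card * 2 ^ (10 * l) :=
          Nat.mul_le_mul_right _ hal
      _ = ∑ ψ' : List.Vector Bool l, if (ψ' ≠ ψ ∧ ψ'.toList ∉
              Rea G.G (ex R₀ ω) N (κ w.toList) (s + 2) ∧ false :: ex R₀ ω ψ'.toList ∉
                lst G.G (ex R₀ ω) (false :: ex R₀ ω ψ.toList)) then 2 ^ (10 * l) else 0 := by
          rw [← Finset.sum_filter, Finset.sum_const, smul_eq_mul]
      _ ≤ _ := by
          refine Finset.sum_le_sum fun ψ' _ => ?_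
          split_ifs with ha hb hb
          · refine hnew.trans (Finset.sum_le_sum fun y _ => ?_)
            split_ifs with hy hd hd
            · exact le_refl _
            · exact absurd (h2 K M κ hPar.ok G.G (ex R₀ ω) N s (κ w.toList)
                (w.toList ++ u.toList) ψ.toList ψ'.toList y.toList hE
                (by rw [ψ'.toList_length, ψ.toList_length]) ha.2.1 ha.2.2
                (by rw [y.toList_length, ψ.toList_length]) hy) hd
            · exact Nat.zero_le _
            · exact Nat.zero_le _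
          · exact absurd ha.1 hb
          · exact Nat.zero_le _
          · exact Nat.zero_le _
  have step3 : ∀ (w u : List.Vector Bool n) (ψ ψ' : List.Vector Bool l),
      (∑ ω : Om n N, if ψ' ≠ ψ then ∑ y : List.Vector Bool (10 * l + 1),
        (if d w u ψ ψ' (up (up (ex R₀ ω) ψ.toList y.toList) ψ'.toList
          (ex R₀ ω ψ.toList)) then 1 else 0) else 0) ≤
      (∑ ω : Om n N, if d w u ψ ψ' (ex R₀ ω) then 1 else 0) * 2 ^ (10 * l + 1) := by
    intro w u ψ ψ'
    by_cases hne : ψ' = ψ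
    · simp [hne]
    · have hne' : ψ.toList ≠ ψ'.toList := fun h => hne (Subtype.ext h).symm
      have hF : ψ.toList ∈ FF n N := mem_FF.2 (by rw [ψ.toList_length]; exact ⟨hnl, hlN⟩)
      have hF' : ψ'.toList ∈ FF n N := mem_FF.2 (by rw [ψ'.toList_length]; exact ⟨hnl, hlN⟩)
      have h := swt h1 R₀ n N l ψ.toList ψ'.toList hF hF' hne' ψ.toList_length
        ψ'.toList_length (d w u ψ ψ')
      rw [ncard_sum (fun ω : Om n N => d w u ψ ψ' (ex R₀ ω))] at h
      rw [← h]
      refine le_of_eq (Finset.sum_congr rfl fun ω _ => ?_)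
      rw [if_pos hne, ncard_sum (fun y : List.Vector Bool (10 * l + 1) => d w u ψ ψ'
        (up (up (ex R₀ ω) ψ.toList y.toList) ψ'.toList (ex R₀ ω ψ.toList)))]
  have step4 : ∀ (ψ' : List.Vector Bool l) (ω : Om n N),
      (∑ w, ∑ u, ∑ ψ, if d w u ψ ψ' (ex R₀ ω) then 1 else 0) ≤
      2 ^ (2 * s + 1) * 2 ^ ((s + 1) * (s + 1)) := by
    intro ψ' ω
    exact cnt h3 (ex R₀ ω) N s n l κ hPar.hNs hGP ψ'.toList (by rw [ψ'.toList_length]; exact hlN)
  -- the sums
  have hmain : (∑ w : List.Vector Bool n, ∑ u : List.Vector Bool n,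
      {ω : Om n N | ∃ ψ : Str, ψ.length = l ∧
      Ev3 K G.G N (s + 1) (ex R₀ ω) (κ w.toList) (w.toList ++ u.toList) ψ}.ncard) *
        (2 ^ (l - 1) * 2 ^ (10 * l)) ≤
      (2 ^ l * (Fintype.card (Om n N) * (2 ^ (2 * s + 1) * 2 ^ ((s + 1) * (s + 1))))) *
        2 ^ (10 * l + 1) := by
    calc _ ≤ (∑ w : List.Vector Bool n, ∑ u : List.Vector Bool n,
          ∑ ω : Om n N, ∑ ψ : List.Vector Bool l, if E ω w u ψ then 1 else 0) *
            (2 ^ (l - 1) * 2 ^ (10 * l)) :=
          Nat.mul_le_mul_right _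
            (Finset.sum_le_sum fun w _ => Finset.sum_le_sum fun u _ => step1 w u)
      _ = ∑ w : List.Vector Bool n, ∑ u : List.Vector Bool n,
          ∑ ω : Om n N, ∑ ψ : List.Vector Bool l,
            (if E ω w u ψ then 1 else 0) * (2 ^ (l - 1) * 2 ^ (10 * l)) := by
          simp only [Finset.sum_mul]
      _ ≤ ∑ w : List.Vector Bool n, ∑ u : List.Vector Bool n,
          ∑ ω : Om n N, ∑ ψ : List.Vector Bool l, ∑ ψ' : List.Vector Bool l,
            if ψ' ≠ ψ then ∑ y : List.Vector Bool (10 * l + 1),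
            (if d w u ψ ψ' (up (up (ex R₀ ω) ψ.toList y.toList) ψ'.toList
              (ex R₀ ω ψ.toList)) then 1 else 0) else 0 :=
          Finset.sum_le_sum fun w _ => Finset.sum_le_sum fun u _ =>
            Finset.sum_le_sum fun ω _ => Finset.sum_le_sum fun ψ _ => step2 w u ω ψ
      _ = ∑ w : List.Vector Bool n, ∑ u : List.Vector Bool n,
          ∑ ψ : List.Vector Bool l, ∑ ψ' : List.Vector Bool l, ∑ ω : Om n N,
            if ψ' ≠ ψ then ∑ y : List.Vector Bool (10 * l + 1),
            (if d w u ψ ψ' (up (up (ex R₀ ω) ψ.toList y.toList) ψ'.toList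
              (ex R₀ ω ψ.toList)) then 1 else 0) else 0 :=
          Finset.sum_congr rfl fun w _ => Finset.sum_congr rfl fun u _ => comm3 _
      _ ≤ ∑ w : List.Vector Bool n, ∑ u : List.Vector Bool n,
          ∑ ψ : List.Vector Bool l, ∑ ψ' : List.Vector Bool l,
            (∑ ω : Om n N, if d w u ψ ψ' (ex R₀ ω) then 1 else 0) * 2 ^ (10 * l + 1) :=
          Finset.sum_le_sum fun w _ => Finset.sum_le_sum fun u _ =>
            Finset.sum_le_sum fun ψ _ => Finset.sum_le_sum fun ψ' _ => step3 w u ψ ψ'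
      _ = (∑ w : List.Vector Bool n, ∑ u : List.Vector Bool n,
          ∑ ψ : List.Vector Bool l, ∑ ψ' : List.Vector Bool l,
            ∑ ω : Om n N, if d w u ψ ψ' (ex R₀ ω) then 1 else 0) * 2 ^ (10 * l + 1) := by
          simp only [← Finset.sum_mul]
      _ = (∑ ψ' : List.Vector Bool l, ∑ ω : Om n N, ∑ w : List.Vector Bool n,
          ∑ u : List.Vector Bool n, ∑ ψ : List.Vector Bool l,
            if d w u ψ ψ' (ex R₀ ω) then 1 else 0) * 2 ^ (10 * l + 1) := by
          rw [comm5]
      _ ≤ (∑ _ψ' : List.Vector Bool l, ∑ _ω : Om n N,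
            2 ^ (2 * s + 1) * 2 ^ ((s + 1) * (s + 1))) * 2 ^ (10 * l + 1) :=
          Nat.mul_le_mul_right _
            (Finset.sum_le_sum fun ψ' _ => Finset.sum_le_sum fun ω _ => step4 ψ' ω)
      _ = _ := by
          rw [Finset.sum_const, Finset.sum_const, Finset.card_univ, Finset.card_univ, card_vec,
            smul_eq_mul, smul_eq_mul]
  have hpos : 0 < 2 ^ (l - 1) * 2 ^ (10 * l) := by positivity
  refine Nat.le_of_mul_le_mul_right (hmain.trans (le_of_eq ?_)) hpos
  have hl1 : l = (l - 1) + 1 := by omega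
  generalize Fintype.card (Om n N) = C
  generalize l - 1 = k at hl1
  subst hl1
  rw [show s * s + 4 * s + 4 = (2 * s + 1) + ((s + 1) * (s + 1)) + 2 by ring]
  rw [pow_add 2 ((2 * s + 1) + ((s + 1) * (s + 1))) 2, pow_add 2 (2 * s + 1), pow_succ 2 k,
    pow_succ 2 (10 * (k + 1))]
  ring

end Pool.Agent.RTT
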