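import Pool.Agent.RTT.Targets

/-!
# RTT, target EV0: half of the instances have no witness
-/

set_option autoImplicit false

namespace Pool.Agent.RTT

open Pool.Agent.DSR (Lang PolyTime encPair encBool Ans Letter encAns)
open Pool.Agent.RDS
open Pool.Agent.RTS (Cer SS)
open Pool.Agent.RAD (AD pv pq)

namespace EV0_

/-- the probability that the value at `a` begins with `n + 1` zeros -/
theorem one (h1 : T_PLC) (h2 : T_UPX) (R₀ : Str → Str) (n N : ℕ) (a : Str) (ha : a ∈ FF n N)
    (hl : a.length = 2 * n) :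
    {ω : Om n N | Pl n (ex R₀ ω a)}.ncard * 2 ^ (n + 1) = Fintype.card (Om n N) := by
  have hL : 20 * n + 1 = 10 * a.length + 1 := by omega
  have h3 := h2 R₀ n N a ha (20 * n + 1) hL (fun Z => Pl n (Z a))
  have h4 : ∀ ω : Om n N, {z : List.Vector Bool (20 * n + 1) |
      Pl n (up (ex R₀ ω) a z.toList a)}.ncard = 2 ^ (19 * n) := by
    intro ω
    have h5 := h1 n (20 * n + 1) (by omega)
    have h6 : 20 * n + 1 - (n + 1) = 19 * n := by omega
    rw [h6] at h5
    rw [← h5]
    congr 1
    ext z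
    simp only [Set.mem_ofPred_eq, up_self]
  simp only [h4, Finset.sum_const, Finset.card_univ, smul_eq_mul] at h3
  have h7 : 2 ^ (20 * n + 1) = 2 ^ (n + 1) * 2 ^ (19 * n) := by
    rw [← pow_add]
    congr 1
    omega
  rw [h7, ← mul_assoc] at h3
  exact (Nat.eq_of_mul_eq_mul_right (by positivity) h3).symm

end EV0_

open EV0_ in
theorem p_EV0 (h1 : T_PLC) (h2 : T_UPX) (h3 : T_PRJ) : T_EV0 := by
  intro K M κ G q R₀ n N s hP
  have hn : 28 ≤ n := by
    have := hP.hs
    nlinarith [Nat.zero_le (s * s), Nat.zero_le s]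
  have hN : 2 * n ≤ N := by
    have h4 := hP.big
    have h5 := hP.ok.big n
    omega
  have h4 := h3.2.1 n N n (fun ω w => κ w.toList ∈ K (ex R₀ ω))
  have h5 : {t : Smp n N n | Pl n (zz t) ∧ κ t.2.1.toList ∈ K (wd R₀ t)}.ncard =
      (∑ w : List.Vector Bool n, {ω : Om n N | κ w.toList ∈ K (ex R₀ ω)}.ncard) *
        2 ^ (20 * n) := h4
  rw [h5]
  have h6 : ∀ w : List.Vector Bool n,
      {ω : Om n N | κ w.toList ∈ K (ex R₀ ω)}.ncard * 2 ≤ Fintype.card (Om n N) := by
    intro w
    have h7 : {ω : Om n N | κ w.toList ∈ K (ex R₀ ω)} ⊆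
        ⋃ u : List.Vector Bool n, {ω : Om n N | Pl n (ex R₀ ω (w.toList ++ u.toList))} := by
      intro ω hω
      obtain ⟨u, hu1, hu2⟩ := (hP.ok.plant (ex R₀ ω) w.toList).1 hω
      rw [List.Vector.toList_length] at hu1 hu2
      rw [Set.mem_iUnion]
      exact ⟨⟨u, hu1⟩, hu2⟩
    have h8 : {ω : Om n N | κ w.toList ∈ K (ex R₀ ω)}.ncard ≤
        ∑ u : List.Vector Bool n, {ω : Om n N | Pl n (ex R₀ ω (w.toList ++ u.toList))}.ncard :=
      (Set.ncard_le_ncard h7 (Set.toFinite _)).trans (Set.ncard_iUnion_le_of_fintype _)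
    have h9 : (∑ u : List.Vector Bool n,
        {ω : Om n N | Pl n (ex R₀ ω (w.toList ++ u.toList))}.ncard) * 2 ^ (n + 1) =
        2 ^ n * Fintype.card (Om n N) := by
      rw [Finset.sum_mul]
      have h10 : ∀ u : List.Vector Bool n,
          {ω : Om n N | Pl n (ex R₀ ω (w.toList ++ u.toList))}.ncard * 2 ^ (n + 1) =
          Fintype.card (Om n N) := by
        intro u
        have hlen : (w.toList ++ u.toList).length = 2 * n := by
          rw [List.length_append, List.Vector.toList_length, List.Vector.toList_length]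
          omega
        exact one h1 h2 R₀ n N _ (mem_FF.2 (by rw [hlen]; omega)) hlen
      rw [Finset.sum_congr rfl fun u _ => h10 u, Finset.sum_const, Finset.card_univ,
        card_vector, Fintype.card_bool, smul_eq_mul]
    have h11 := Nat.mul_le_mul_right (2 ^ (n + 1)) h8
    rw [h9, pow_succ, ← mul_assoc, mul_right_comm, mul_comm (2 ^ n)] at h11
    exact Nat.le_of_mul_le_mul_right h11 (by positivity)
  have h12 : (∑ w : List.Vector Bool n, {ω : Om n N | κ w.toList ∈ K (ex R₀ ω)}.ncard) * 2 ≤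
      2 ^ n * Fintype.card (Om n N) := by
    rw [Finset.sum_mul]
    refine (Finset.sum_le_sum fun w _ => h6 w).trans (le_of_eq ?_)
    rw [Finset.sum_const, Finset.card_univ, card_vector, Fintype.card_bool, smul_eq_mul]
  calc (∑ w : List.Vector Bool n, {ω : Om n N | κ w.toList ∈ K (ex R₀ ω)}.ncard) *
        2 ^ (20 * n) * 2
      = (∑ w : List.Vector Bool n, {ω : Om n N | κ w.toList ∈ K (ex R₀ ω)}.ncard) * 2 *
        2 ^ (20 * n) := by ring
    _ ≤ 2 ^ n * Fintype.card (Om n N) * 2 ^ (20 * n) := Nat.mul_le_mul_right _ h12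
    _ = Fintype.card (Om n N) * 2 ^ (21 * n) := by
      rw [mul_comm (2 ^ n), mul_assoc, ← pow_add]
      congr 2
      omega

end Pool.Agent.RTT
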