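import Pool.Agent.RTT.Targets

/-!
# RTT, target EV1: the planted place is not touched
-/

set_option autoImplicit false

namespace Pool.Agent.RTT

open Pool.Agent.RDS

namespace EV1_

/-- the worlds agree with `R₀` at short strings -/
theorem ex_agr (R₀ : Str → Str) {n N : ℕ} (ω : Om n N) : Agr (n + 1) R₀ (ex R₀ ω) := by
  intro u hu
  unfold ex
  rw [dif_neg]
  intro h
  rw [mem_FF] at h
  omega

/-- the union bound -/
theorem union_bound {α β γ : Type} (f : α → β) (hf : Function.Injective f) (T : Finset γ)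
    (F : γ → Set β) (A B : ℕ) (hT : T.card ≤ A) (hF : ∀ x ∈ T, (F x).Finite ∧ (F x).ncard ≤ B) :
    {u : α | ∃ x ∈ T, f u ∈ F x}.ncard ≤ A * B := by
  classical
  let E : γ → Finset β := fun x => if h : (F x).Finite then h.toFinset else ∅
  have hE : ∀ x ∈ T, ∀ b, b ∈ F x → b ∈ E x := by
    intro x hx b hb
    have h1 := (hF x hx).1
    simp only [E, dif_pos h1]
    exact h1.mem_toFinset.2 hb
  have hc : ∀ x ∈ T, (E x).card ≤ B := by
    intro x hx
    have h1 := (hF x hx).1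
    simp only [E, dif_pos h1]
    rw [← Set.ncard_eq_toFinset_card _ h1]
    exact (hF x hx).2
  have h2 : (T.biUnion E).card ≤ T.card * B := Finset.card_biUnion_le_card_mul _ _ _ hc
  rw [← Set.ncard_image_of_injective _ hf]
  have h3 : f '' {u : α | ∃ x ∈ T, f u ∈ F x} ⊆ ((T.biUnion E : Finset β) : Set β) := by
    rintro b ⟨u, ⟨x, hx, hu⟩, rfl⟩
    rw [Finset.mem_coe, Finset.mem_biUnion]
    exact ⟨x, hx, hE x hx _ hu⟩
  have h4 := Set.ncard_le_ncard h3 (Finset.finite_toSet _)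
  rw [Set.ncard_coe_finset] at h4
  exact h4.trans (h2.trans (Nat.mul_le_mul_right _ hT))

theorem app_inj (w : Str) (n : ℕ) :
    Function.Injective fun u : List.Vector Bool n => w ++ u.toList := by
  intro u v huv
  exact List.Vector.toList_injective (List.append_cancel_left huv)

/-- the bound for one world -/
theorem one_world (h2 : T_TRV) (h3 : T_TOV) {K : (Str → Str) → Set Str} {M : Polynomial ℕ}
    {κ : Str → Str} {G : AlgV} {q : Polynomial ℕ} {R₀ : Str → Str} {n N s : ℕ}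
    (hP : Par K M κ G q R₀ n N s) (ω : Om n N) (w : List.Vector Bool n) :
    {u : List.Vector Bool n | Reg (ex R₀ ω) ∧
      ∃ x ∈ Tre G.G (ex R₀ ω) (false :: ex R₀ ω (κ w.toList)) (s + 1),
        w.toList ++ u.toList ∈ TouV K G (ex R₀ ω) x}.ncard * 16 ≤ 2 ^ n := by
  by_cases hR : Reg (ex R₀ ω)
  · have hcor := hP.corr _ hR (ex_agr R₀ ω)
    have hlen : (false :: ex R₀ ω (κ w.toList)).length = 10 * M.eval n + 2 := by
      rw [List.length_cons, hR.len, hP.ok.len, List.Vector.toList_length]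
    obtain ⟨h4, h5⟩ := h2 G.G (ex R₀ ω) q N s (false :: ex R₀ ω (κ w.toList))
      (fun c k hc => (hcor.2 c k hc).2) (by rw [hlen, hP.hN]) (fun l hl => hP.hG l (by omega))
      (s + 1)
    have h6 := union_bound (fun u : List.Vector Bool n => w.toList ++ u.toList)
      (app_inj w.toList n) (Tre G.G (ex R₀ ω) (false :: ex R₀ ω (κ w.toList)) (s + 1))
      (fun x => TouV K G (ex R₀ ω) x) (2 ^ ((s + 1) * (s + 1))) (2 ^ (2 * s + 2)) h4
      (fun x hx => h3 K G (ex R₀ ω) N s x hR hP.hNs (fun l hl => hP.hP l (by omega))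
        (h5 x hx).1 (h5 x hx).2)
    have h7 : {u : List.Vector Bool n | Reg (ex R₀ ω) ∧
      ∃ x ∈ Tre G.G (ex R₀ ω) (false :: ex R₀ ω (κ w.toList)) (s + 1),
        w.toList ++ u.toList ∈ TouV K G (ex R₀ ω) x} =
        {u : List.Vector Bool n |
      ∃ x ∈ Tre G.G (ex R₀ ω) (false :: ex R₀ ω (κ w.toList)) (s + 1),
        w.toList ++ u.toList ∈ TouV K G (ex R₀ ω) x} := by
      ext u
      exact ⟨fun h => h.2, fun h => ⟨hR, h⟩⟩
    rw [h7]
    have h8 : 2 ^ ((s + 1) * (s + 1)) * 2 ^ (2 * s + 2) * 16 ≤ 2 ^ n := by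
      rw [show (16 : ℕ) = 2 ^ 4 from rfl, ← pow_add, ← pow_add]
      refine Nat.pow_le_pow_right (by norm_num) ?_
      have := hP.hs
      nlinarith
    exact (Nat.mul_le_mul_right 16 h6).trans h8
  · have h7 : {u : List.Vector Bool n | Reg (ex R₀ ω) ∧
      ∃ x ∈ Tre G.G (ex R₀ ω) (false :: ex R₀ ω (κ w.toList)) (s + 1),
        w.toList ++ u.toList ∈ TouV K G (ex R₀ ω) x} = ∅ := by
      ext u
      constructor
      · intro h
        exact absurd h.1 hR
      · intro h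
        exact absurd h (Set.notMem_empty u)
    rw [h7, Set.ncard_empty, Nat.zero_mul]
    exact Nat.zero_le _

end EV1_

open EV1_ in
/-- The planted place is not touched. -/
theorem p_EV1 (h1 : T_PRJ) (h2 : T_TRV) (h3 : T_TOV) : T_EV1 := by
  intro K M κ G q R₀ n N s hP
  have h4 : {t : Smp n N n | Pl n (zz t) ∧ Reg (wd R₀ t) ∧
    ∃ x ∈ Tre G.G (wd R₀ t) (false :: wd R₀ t (κ t.2.1.toList)) (s + 1),
      aa t ∈ TouV K G (wd R₀ t) x}.ncard =
      (∑ w : List.Vector Bool n, ∑ ω : Om n N, {u : List.Vector Bool n | Reg (ex R₀ ω) ∧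
      ∃ x ∈ Tre G.G (ex R₀ ω) (false :: ex R₀ ω (κ w.toList)) (s + 1),
        w.toList ++ u.toList ∈ TouV K G (ex R₀ ω) x}.ncard) * 2 ^ (19 * n) :=
    h1.2.2.1 n N n fun ω w u => Reg (ex R₀ ω) ∧
      ∃ x ∈ Tre G.G (ex R₀ ω) (false :: ex R₀ ω (κ w.toList)) (s + 1),
        w.toList ++ u.toList ∈ TouV K G (ex R₀ ω) x
  rw [h4]
  have h5 : (∑ w : List.Vector Bool n, ∑ ω : Om n N, {u : List.Vector Bool n | Reg (ex R₀ ω) ∧
      ∃ x ∈ Tre G.G (ex R₀ ω) (false :: ex R₀ ω (κ w.toList)) (s + 1),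
        w.toList ++ u.toList ∈ TouV K G (ex R₀ ω) x}.ncard) * 16 ≤
      2 ^ n * (Fintype.card (Om n N) * 2 ^ n) := by
    rw [Finset.sum_mul]
    have h6 : ∀ w : List.Vector Bool n, (∑ ω : Om n N, {u : List.Vector Bool n |
        Reg (ex R₀ ω) ∧
      ∃ x ∈ Tre G.G (ex R₀ ω) (false :: ex R₀ ω (κ w.toList)) (s + 1),
        w.toList ++ u.toList ∈ TouV K G (ex R₀ ω) x}.ncard) * 16 ≤
        Fintype.card (Om n N) * 2 ^ n := by
      intro w
      rw [Finset.sum_mul]
      refine (Finset.sum_le_sum fun ω _ => one_world h2 h3 hP ω w).trans ?_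
      rw [Finset.sum_const, Finset.card_univ, smul_eq_mul]
    refine (Finset.sum_le_sum fun w _ => h6 w).trans ?_
    rw [Finset.sum_const, Finset.card_univ, smul_eq_mul, card_vector, Fintype.card_bool]
  have e : (2 : ℕ) ^ (21 * n) = 2 ^ n * 2 ^ n * 2 ^ (19 * n) := by
    rw [← pow_add, ← pow_add]
    congr 1
    omega
  rw [e]
  calc _ = (∑ w : List.Vector Bool n, ∑ ω : Om n N, {u : List.Vector Bool n | Reg (ex R₀ ω) ∧
      ∃ x ∈ Tre G.G (ex R₀ ω) (false :: ex R₀ ω (κ w.toList)) (s + 1),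
        w.toList ++ u.toList ∈ TouV K G (ex R₀ ω) x}.ncard) * 16 * 2 ^ (19 * n) := by ring
    _ ≤ 2 ^ n * (Fintype.card (Om n N) * 2 ^ n) * 2 ^ (19 * n) := Nat.mul_le_mul_right _ h5
    _ = _ := by ring

end Pool.Agent.RTT
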