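import Pool.Agent.RTT.Targets

set_option autoImplicit false

/-!
# RTT (MP_f8b4c8_lc): EV2, the planted value is new
-/

namespace Pool.Agent.RTT

open Pool.Agent.DSR (Lang PolyTime encPair encBool Ans Letter encAns)
open Pool.Agent.RDS
open Pool.Agent.RTS (Cer SS)
open Pool.Agent.RAD (AD pv pq K3 CorrD)

namespace EV2_

/-- the value which is asked about by a member of the list -/
def fz : Str → Str
  | [] => []
  | false :: z => z
  | true :: v => (pv v).1

theorem ncard_vec {L : ℕ} (S : Finset Str) :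
    {z : List.Vector Bool L | z.toList ∈ S}.ncard ≤ S.card := by
  have hinj : Function.Injective (fun z : List.Vector Bool L => z.toList) :=
    fun a b h => Subtype.ext h
  rw [← Set.ncard_image_of_injective _ hinj, ← Set.ncard_coe_finset S]
  refine Set.ncard_le_ncard ?_ (Finset.finite_toSet S)
  rintro y ⟨z, hz, rfl⟩
  exact hz

theorem lst_len (G : Alg) (R : Str → Str) (x : Str) :
    (lst G R x).length ≤ G.P.eval x.length := by
  unfold lst
  split
  · rename_i l hl
    exact G.kids R x l hl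
  · simp

theorem vls (G : Alg) (R : Str → Str) (T : Finset Str) (s N L : ℕ) (hT : ∀ x ∈ T, x.length ≤ N)
    (hP : ∀ l ≤ N, G.P.eval l ≤ 2 ^ s) :
    {z : List.Vector Bool L | ∃ x ∈ T, z.toList ∈ Vls G R x}.ncard ≤ T.card * 2 ^ s := by
  classical
  refine le_trans (Set.ncard_le_ncard (t := {z : List.Vector Bool L | z.toList ∈
    T.biUnion fun x => (lst G R x).toFinset.image fz}) ?_ (Set.toFinite _)) ?_
  · rintro z ⟨x, hx, hz⟩
    refine Finset.mem_biUnion.2 ⟨x, hx, ?_⟩
    rw [Finset.mem_image]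
    rcases hz with hz | ⟨v, hv, hz⟩
    · exact ⟨false :: z.toList, List.mem_toFinset.2 hz, rfl⟩
    · exact ⟨true :: v, List.mem_toFinset.2 hv, hz⟩
  · refine (ncard_vec _).trans (Finset.card_biUnion_le_card_mul _ _ _ fun x hx => ?_)
    exact Finset.card_image_le.trans ((List.toFinset_card_le _).trans
      ((lst_len G R x).trans (hP _ (hT x hx))))

theorem old (R : Str → Str) (hR : Reg R) (n : ℕ) (a : Str) :
    {z : List.Vector Bool (20 * n + 1) | ∃ b, b ≠ a ∧ R b = z.toList}.ncard ≤ 2 ^ (2 * n) := by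
  let F : List.Vector Bool (2 * n) → List.Vector Bool (20 * n + 1) := fun b =>
    ⟨R b.toList, by rw [hR.len, List.Vector.toList_length]; ring⟩
  have h1 : {z : List.Vector Bool (20 * n + 1) | ∃ b, b ≠ a ∧ R b = z.toList} ⊆
      Set.range F := by
    rintro z ⟨b, -, hb⟩
    have h2 : b.length = 2 * n := by
      have h3 := hR.len b
      rw [hb, List.Vector.toList_length] at h3
      omega
    exact ⟨⟨b, h2⟩, Subtype.ext hb⟩
  refine (Set.ncard_le_ncard h1 (Set.toFinite _)).trans ?_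
  rw [← Set.image_univ]
  refine (Set.ncard_image_le (Set.toFinite _)).trans ?_
  rw [Set.ncard_univ, Nat.card_eq_fintype_card, card_vector, Fintype.card_bool]

theorem ex_agr (R₀ : Str → Str) {n N : ℕ} (ω : Om n N) : Agr (n + 1) R₀ (ex R₀ ω) := by
  intro u hu
  unfold ex
  rw [dif_neg]
  rw [mem_FF]
  omega

end EV2_

open EV2_

theorem p_EV2 (h1 : T_PRJ) (h2 : T_TRV) : T_EV2 := by
  intro K M κ G q R₀ n N s hp
  have key : ∀ (w u : List.Vector Bool n) (ω : Om n N),
      {z : List.Vector Bool (20 * n + 1) | Reg (ex R₀ ω) ∧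
        ((∃ b, b ≠ w.toList ++ u.toList ∧ ex R₀ ω b = z.toList) ∨
        ∃ x ∈ Tre G.G (ex R₀ ω) (false :: ex R₀ ω (κ w.toList)) (s + 1),
          z.toList ∈ Vls G.G (ex R₀ ω) x)}.ncard ≤ 2 ^ (2 * n + 1) := by
    intro w u ω
    by_cases hR : Reg (ex R₀ ω)
    · have hc := hp.corr (ex R₀ ω) hR (ex_agr R₀ ω)
      have hlen : (false :: ex R₀ ω (κ w.toList)).length = 10 * M.eval n + 2 := by
        rw [List.length_cons, hR.len, hp.ok.len, List.Vector.toList_length]
      have h3 := h2 G.G (ex R₀ ω) q N s (false :: ex R₀ ω (κ w.toList))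
        (fun c k hck => (hc.2 c k hck).2) (by rw [hlen, hp.hN])
        (fun l hl => hp.hG l (by omega)) (s + 1)
      have h4 := vls G.G (ex R₀ ω) (Tre G.G (ex R₀ ω) (false :: ex R₀ ω (κ w.toList)) (s + 1))
        s N (20 * n + 1) (fun x hx => (h3.2 x hx).1) (fun l hl => hp.hG l (by omega))
      have h5 := old (ex R₀ ω) hR n (w.toList ++ u.toList)
      have h6 : (Tre G.G (ex R₀ ω) (false :: ex R₀ ω (κ w.toList)) (s + 1)).card * 2 ^ s ≤
          2 ^ (2 * n) := by
        refine (Nat.mul_le_mul_right _ h3.1).trans ?_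
        rw [← pow_add]
        refine Nat.pow_le_pow_right (by norm_num) ?_
        have h7 := hp.hs
        nlinarith
      have h8 : {z : List.Vector Bool (20 * n + 1) | Reg (ex R₀ ω) ∧
          ((∃ b, b ≠ w.toList ++ u.toList ∧ ex R₀ ω b = z.toList) ∨
          ∃ x ∈ Tre G.G (ex R₀ ω) (false :: ex R₀ ω (κ w.toList)) (s + 1),
            z.toList ∈ Vls G.G (ex R₀ ω) x)} ⊆
          {z : List.Vector Bool (20 * n + 1) | ∃ b, b ≠ w.toList ++ u.toList ∧
            ex R₀ ω b = z.toList} ∪ {z : List.Vector Bool (20 * n + 1) |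
            ∃ x ∈ Tre G.G (ex R₀ ω) (false :: ex R₀ ω (κ w.toList)) (s + 1),
            z.toList ∈ Vls G.G (ex R₀ ω) x} := by
        rintro z ⟨-, hz | hz⟩
        · exact Or.inl hz
        · exact Or.inr hz
      refine (Set.ncard_le_ncard h8 (Set.toFinite _)).trans ((Set.ncard_union_le _ _).trans ?_)
      refine (Nat.add_le_add h5 (h4.trans h6)).trans (le_of_eq ?_)
      rw [pow_succ]
      ring
    · have h3 : {z : List.Vector Bool (20 * n + 1) | Reg (ex R₀ ω) ∧
          ((∃ b, b ≠ w.toList ++ u.toList ∧ ex R₀ ω b = z.toList) ∨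
          ∃ x ∈ Tre G.G (ex R₀ ω) (false :: ex R₀ ω (κ w.toList)) (s + 1),
            z.toList ∈ Vls G.G (ex R₀ ω) x)} = ∅ := by
        ext z
        simp [hR]
      rw [h3, Set.ncard_empty]
      exact Nat.zero_le _
  have h9 := h1.2.2.2 n N n (fun ω w u z => Reg (ex R₀ ω) ∧
        ((∃ b, b ≠ w.toList ++ u.toList ∧ ex R₀ ω b = z.toList) ∨
        ∃ x ∈ Tre G.G (ex R₀ ω) (false :: ex R₀ ω (κ w.toList)) (s + 1),
          z.toList ∈ Vls G.G (ex R₀ ω) x))
  have h10 : ∑ w : List.Vector Bool n, ∑ u : List.Vector Bool n, ∑ ω : Om n N,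
      {z : List.Vector Bool (20 * n + 1) | Reg (ex R₀ ω) ∧
        ((∃ b, b ≠ w.toList ++ u.toList ∧ ex R₀ ω b = z.toList) ∨
        ∃ x ∈ Tre G.G (ex R₀ ω) (false :: ex R₀ ω (κ w.toList)) (s + 1),
          z.toList ∈ Vls G.G (ex R₀ ω) x)}.ncard ≤
      2 ^ n * (2 ^ n * (Fintype.card (Om n N) * 2 ^ (2 * n + 1))) := by
    refine (Finset.sum_le_sum fun w _ => Finset.sum_le_sum fun u _ =>
      Finset.sum_le_sum fun ω _ => key w u ω).trans (le_of_eq ?_)
    simp only [Finset.sum_const, Finset.card_univ, smul_eq_mul, card_vector, Fintype.card_bool]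
  have h11 := hp.hs
  have h12 : 2 ^ n * (2 ^ n * (Fintype.card (Om n N) * 2 ^ (2 * n + 1))) * 16 =
      Fintype.card (Om n N) * 2 ^ (4 * n + 5) := by
    rw [pow_add 2 (2 * n) 1, pow_add 2 (4 * n) 5]
    have h13 : (2 : ℕ) ^ (4 * n) = 2 ^ n * 2 ^ n * 2 ^ (2 * n) := by
      rw [← pow_add, ← pow_add]
      congr 1
      ring
    rw [h13]
    ring
  have h14 : Fintype.card (Om n N) * 2 ^ (4 * n + 5) ≤ Fintype.card (Om n N) * 2 ^ (21 * n) := by
    refine Nat.mul_le_mul_left _ (Nat.pow_le_pow_right (by norm_num) ?_)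
    nlinarith
  have h15 := Nat.mul_le_mul_right 16 h10
  rw [← h9, h12] at h15
  exact h15.trans h14

end Pool.Agent.RTT
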