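import Pool.Agent.RTT.Targets

/-!
# RTT, target EV3: the third bad event
-/

set_option autoImplicit false

namespace Pool.Agent.RTT

open Pool.Agent.RDS
open Pool.Agent.RTS (Cer SS)

namespace EV3_

/-- for fixed `w`, `u`: the count over `ω` and `z` -/
theorem fix (h2 : T_UPX) (R₀ : Str → Str) {n N : ℕ} (hn : 0 < n) (hN : 2 * n ≤ N)
    (w u : List.Vector Bool n) (d : (Str → Str) → Prop) :
    ∑ ω : Om n N, {z : List.Vector Bool (20 * n + 1) |
      d (up (ex R₀ ω) (w.toList ++ u.toList) z.toList)}.ncard =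
    {ω : Om n N | d (ex R₀ ω)}.ncard * 2 ^ (20 * n + 1) := by
  have hl : (w.toList ++ u.toList).length = 2 * n := by
    rw [List.length_append, w.toList_length, u.toList_length]
    omega
  exact h2 R₀ n N _ (mem_FF.2 ⟨by omega, by omega⟩) (20 * n + 1) (by rw [hl]; omega) d

/-- a union bound -/
theorem ub {α : Type} [Fintype α] (A : Finset ℕ) (p : α → Prop) (r : ℕ → α → Prop)
    (h : ∀ a, p a → ∃ l ∈ A, r l a) : {a | p a}.ncard ≤ ∑ l ∈ A, {a | r l a}.ncard := by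
  classical
  have h1 : ∀ q : α → Prop, {a | q a}.ncard = (Finset.univ.filter q).card := by
    intro q
    rw [Set.ncard_eq_toFinset_card', Set.toFinset_ofPred]
  simp only [h1]
  refine le_trans (Finset.card_le_card ?_) Finset.card_biUnion_le
  intro a ha
  obtain ⟨l, hl, hr⟩ := h a (Finset.mem_filter.1 ha).2
  exact Finset.mem_biUnion.2 ⟨l, hl, Finset.mem_filter.2 ⟨Finset.mem_univ _, hr⟩⟩

theorem swp {α β : Type} [Fintype α] [Fintype β] (A : Finset ℕ) (f : α → β → ℕ → ℕ) :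
    ∑ w, ∑ u, ∑ l ∈ A, f w u l = ∑ l ∈ A, ∑ w, ∑ u, f w u l :=
  (Finset.sum_congr rfl fun _ _ => Finset.sum_comm).trans Finset.sum_comm

end EV3_

open EV3_ in
theorem p_EV3 (h1 : T_PRJ) (h2 : T_UPX) (h3 : T_E3L) : T_EV3 := by
  intro K M κ G q R₀ n N s h
  have hs := h.hs
  have hb := h.big
  have hb2 := h.ok.big n
  have e1 := h1.2.2.2 n N n fun ω w u z => ∃ ψ, Ev3 K G.G N (s + 1)
    (up (ex R₀ ω) (w.toList ++ u.toList) z.toList) (κ w.toList) (w.toList ++ u.toList) ψ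
  have e2 : {t : Smp n N n | ∃ ψ, Ev3 K G.G N (s + 1) (wp R₀ t) (κ t.2.1.toList) (aa t)
      ψ}.ncard = ∑ w : List.Vector Bool n, ∑ u : List.Vector Bool n, {ω : Om n N | ∃ ψ,
        Ev3 K G.G N (s + 1) (ex R₀ ω) (κ w.toList) (w.toList ++ u.toList) ψ}.ncard *
          2 ^ (20 * n + 1) := by
    refine e1.trans ?_
    refine Finset.sum_congr rfl fun w _ => Finset.sum_congr rfl fun u _ => ?_
    exact fix h2 R₀ (by omega) (by omega) w u fun R => ∃ ψ, Ev3 K G.G N (s + 1) R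
      (κ w.toList) (w.toList ++ u.toList) ψ
  have e3 : ∑ w : List.Vector Bool n, ∑ u : List.Vector Bool n, {ω : Om n N | ∃ ψ,
      Ev3 K G.G N (s + 1) (ex R₀ ω) (κ w.toList) (w.toList ++ u.toList) ψ}.ncard ≤
      N * (Fintype.card (Om n N) * 2 ^ (s * s + 4 * s + 4)) := by
    have e4 : ∀ w u : List.Vector Bool n, {ω : Om n N | ∃ ψ, Ev3 K G.G N (s + 1) (ex R₀ ω)
        (κ w.toList) (w.toList ++ u.toList) ψ}.ncard ≤ ∑ l ∈ Finset.Ioc n N,
        {ω : Om n N | ∃ ψ : Str, ψ.length = l ∧ Ev3 K G.G N (s + 1) (ex R₀ ω) (κ w.toList)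
          (w.toList ++ u.toList) ψ}.ncard := by
      intro w u
      refine ub _ _ _ ?_
      rintro ω ⟨ψ, hψ⟩
      have hψ' := hψ
      obtain ⟨_, p, i, _, _, _, _, hl, hl2, _⟩ := hψ'
      rw [List.length_append, w.toList_length, u.toList_length] at hl2
      exact ⟨ψ.length, Finset.mem_Ioc.2 ⟨by omega, hl⟩, ψ, rfl, hψ⟩
    calc ∑ w : List.Vector Bool n, ∑ u : List.Vector Bool n, {ω : Om n N | ∃ ψ,
          Ev3 K G.G N (s + 1) (ex R₀ ω) (κ w.toList) (w.toList ++ u.toList) ψ}.ncard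
        ≤ ∑ w : List.Vector Bool n, ∑ u : List.Vector Bool n, ∑ l ∈ Finset.Ioc n N,
          {ω : Om n N | ∃ ψ : Str, ψ.length = l ∧ Ev3 K G.G N (s + 1) (ex R₀ ω)
            (κ w.toList) (w.toList ++ u.toList) ψ}.ncard :=
          Finset.sum_le_sum fun w _ => Finset.sum_le_sum fun u _ => e4 w u
      _ = ∑ l ∈ Finset.Ioc n N, ∑ w : List.Vector Bool n, ∑ u : List.Vector Bool n,
          {ω : Om n N | ∃ ψ : Str, ψ.length = l ∧ Ev3 K G.G N (s + 1) (ex R₀ ω)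
            (κ w.toList) (w.toList ++ u.toList) ψ}.ncard := by
          exact swp _ _
      _ ≤ ∑ _l ∈ Finset.Ioc n N, Fintype.card (Om n N) * 2 ^ (s * s + 4 * s + 4) :=
          Finset.sum_le_sum fun l hl => h3 K M κ G q R₀ n N s h l (Finset.mem_Ioc.1 hl).1
            (Finset.mem_Ioc.1 hl).2
      _ ≤ N * (Fintype.card (Om n N) * 2 ^ (s * s + 4 * s + 4)) := by
          rw [Finset.sum_const, Nat.card_Ioc, smul_eq_mul]
          exact Nat.mul_le_mul_right _ (by omega)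
  have hp : 2 ^ s * 2 ^ (s * s + 4 * s + 4) * 2 ^ (20 * n + 1) * 16 ≤ 2 ^ (21 * n) := by
    have : (16 : ℕ) = 2 ^ 4 := by norm_num
    rw [this, ← pow_add, ← pow_add, ← pow_add]
    exact Nat.pow_le_pow_right (by norm_num) (by omega)
  rw [e2]
  simp only [← Finset.sum_mul]
  calc (∑ w : List.Vector Bool n, ∑ u : List.Vector Bool n, {ω : Om n N | ∃ ψ,
        Ev3 K G.G N (s + 1) (ex R₀ ω) (κ w.toList) (w.toList ++ u.toList) ψ}.ncard) *
          2 ^ (20 * n + 1) * 16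
      ≤ N * (Fintype.card (Om n N) * 2 ^ (s * s + 4 * s + 4)) * 2 ^ (20 * n + 1) * 16 :=
        Nat.mul_le_mul_right _ (Nat.mul_le_mul_right _ e3)
    _ ≤ 2 ^ s * (Fintype.card (Om n N) * 2 ^ (s * s + 4 * s + 4)) * 2 ^ (20 * n + 1) * 16 :=
        Nat.mul_le_mul_right _ (Nat.mul_le_mul_right _ (Nat.mul_le_mul_right _ h.hNs))
    _ = Fintype.card (Om n N) * (2 ^ s * 2 ^ (s * s + 4 * s + 4) * 2 ^ (20 * n + 1) * 16) := by
        ring
    _ ≤ Fintype.card (Om n N) * 2 ^ (21 * n) := Nat.mul_le_mul_left _ hp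

end Pool.Agent.RTT
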