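import Pool.Agent.RTT.Targets

set_option autoImplicit false

/-!
# RTT, target EV4: no instance is found by its own computation
-/

namespace Pool.Agent.RTT

open Pool.Agent.DSR (Lang PolyTime encPair encBool Ans Letter encAns)
open Pool.Agent.RDS
open Pool.Agent.RTS (Cer SS)
open Pool.Agent.RAD (AD pv pq K3 CorrD TD)

namespace EV4_

open scoped Classical in
theorem nc {α : Type} [Fintype α] (p : α → Prop) :
    {x | p x}.ncard = ∑ x, if p x then 1 else 0 := by
  rw [Set.ncard_eq_toFinset_card', Finset.sum_boole]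
  simp

theorem app_inj {n : ℕ} : Function.Injective
    (fun x : List.Vector Bool n × List.Vector Bool n => x.1.toList ++ x.2.toList) := by
  rintro ⟨w, u⟩ ⟨w', u'⟩ h
  have h1 : w.toList ++ u.toList = w'.toList ++ u'.toList := h
  obtain ⟨h2, h3⟩ := List.append_inj h1 (by rw [w.toList_length, w'.toList_length])
  rw [List.Vector.eq _ _ h2, List.Vector.eq _ _ h3]

open scoped Classical in
/-- the number of pairs for one world -/
theorem cnt (K : (Str → Str) → Set Str) (G : Alg) (n N : ℕ) (R : Str → Str) :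
    (∑ w : List.Vector Bool n, ∑ u : List.Vector Bool n,
      if Ev4 K G N R (w.toList ++ u.toList) then 1 else 0) ≤
      N * ∑ ψ ∈ FF n N, if ψ ∈ TD G R 0 (R ψ) then 1 else 0 := by
  set B : Finset Str := (FF n N).filter fun ψ => ψ ∈ TD G R 0 (R ψ) with hB
  have h1 : (∑ ψ ∈ FF n N, if ψ ∈ TD G R 0 (R ψ) then 1 else 0) = B.card := by
    rw [hB, Finset.card_filter]
  have h2 : (B.biUnion (SS K R)).card ≤ N * B.card := by
    refine Finset.card_biUnion_le.trans ?_
    refine (Finset.sum_le_sum (g := fun _ => N) fun ψ hψ => ?_).trans ?_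
    · have h3 := (mem_FF.1 (Finset.mem_filter.1 hψ).1).2
      exact (Pool.Agent.RTS.SS_card K R ψ).trans h3
    · rw [Finset.sum_const, smul_eq_mul, mul_comm]
  rw [h1]
  refine le_trans ?_ h2
  rw [← Fintype.sum_prod_type' (f := fun w u : List.Vector Bool n =>
    if Ev4 K G N R (w.toList ++ u.toList) then 1 else 0), ← Finset.card_filter]
  refine Finset.card_le_card_of_injOn
    (fun x : List.Vector Bool n × List.Vector Bool n => x.1.toList ++ x.2.toList) ?_
    (app_inj.injOn)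
  rintro ⟨w, u⟩ hx
  rw [Finset.mem_coe, Finset.mem_filter] at hx
  obtain ⟨-, -, ψ, -, h4, h5, h6⟩ := hx
  rw [Finset.mem_coe, Finset.mem_biUnion]
  refine ⟨ψ, ?_, h4⟩
  rw [hB, Finset.mem_filter, mem_FF]
  have h7 := Pool.Agent.RTS.SS_len h4
  rw [List.length_append, w.toList_length, u.toList_length] at h7
  exact ⟨⟨by omega, h5⟩, Or.inl h6⟩

end EV4_

open EV4_ in
theorem p_EV4 (h1 : Pool.Agent.RAD.T_IND) (h2 : T_PRJ) (h3 : T_UPX) : T_EV4 := by
  classical
  intro K M κ G q R₀ n N s hp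
  have hn : s * s + 6 * s + 28 ≤ n := hp.hs
  have hbig := hp.big
  have hM := hp.ok.big n
  have e1 : {t : Smp n N n | Ev4 K G.G N (wp R₀ t) (aa t)}.ncard =
      ∑ w : List.Vector Bool n, ∑ u : List.Vector Bool n, ∑ ω : Om n N,
        {z : List.Vector Bool (20 * n + 1) | Ev4 K G.G N
          (up (ex R₀ ω) (w.toList ++ u.toList) z.toList) (w.toList ++ u.toList)}.ncard :=
    h2.2.2.2 n N n fun ω w u z => Ev4 K G.G N
      (up (ex R₀ ω) (w.toList ++ u.toList) z.toList) (w.toList ++ u.toList)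
  have e2 : ∀ w u : List.Vector Bool n, (∑ ω : Om n N,
        {z : List.Vector Bool (20 * n + 1) | Ev4 K G.G N
          (up (ex R₀ ω) (w.toList ++ u.toList) z.toList) (w.toList ++ u.toList)}.ncard) =
      {ω : Om n N | Ev4 K G.G N (ex R₀ ω) (w.toList ++ u.toList)}.ncard * 2 ^ (20 * n + 1) := by
    intro w u
    have hl : (w.toList ++ u.toList).length = n + n := by
      rw [List.length_append, w.toList_length, u.toList_length]
    exact h3 R₀ n N (w.toList ++ u.toList) (mem_FF.2 (by rw [hl]; omega)) (20 * n + 1)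
      (by rw [hl]; omega) fun R => Ev4 K G.G N R (w.toList ++ u.toList)
  have e3 : (∑ w : List.Vector Bool n, ∑ u : List.Vector Bool n,
      {ω : Om n N | Ev4 K G.G N (ex R₀ ω) (w.toList ++ u.toList)}.ncard) =
      ∑ ω : Om n N, ∑ w : List.Vector Bool n, ∑ u : List.Vector Bool n,
        if Ev4 K G.G N (ex R₀ ω) (w.toList ++ u.toList) then 1 else 0 := by
    simp only [nc]
    rw [Finset.sum_comm]
    conv_rhs => rw [Finset.sum_comm]
    rw [Finset.sum_comm]
    refine Finset.sum_congr rfl fun w _ => ?_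
    rw [Finset.sum_comm]
  have e4 : (∑ ω : Om n N, N * ∑ ψ ∈ FF n N, if ψ ∈ TD G.G (ex R₀ ω) 0 (ex R₀ ω ψ) then 1 else 0)
      = N * ∑ ψ ∈ FF n N, {ω : Om n N | ψ ∈ TD G.G (ex R₀ ω) 0 (ex R₀ ω ψ)}.ncard := by
    simp only [nc]
    rw [← Finset.mul_sum, Finset.sum_comm]
  have h4 := h1 G.G R₀ n N s 0 hp.hG
  rw [e1]
  simp only [e2]
  simp only [← Finset.sum_mul]
  rw [e3]
  have h5 : (∑ ω : Om n N, ∑ w : List.Vector Bool n, ∑ u : List.Vector Bool n,
      if Ev4 K G.G N (ex R₀ ω) (w.toList ++ u.toList) then 1 else 0) ≤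
      N * (N * (2 ^ s * (1 + 2 ^ (0 + 1))) * Fintype.card (Om n N)) := by
    refine (Finset.sum_le_sum fun ω _ => cnt K G.G n N (ex R₀ ω)).trans ?_
    rw [e4]
    exact Nat.mul_le_mul_left N h4
  have h6 : N * (N * (2 ^ s * (1 + 2 ^ (0 + 1)))) * 32 ≤ 2 ^ n := by
    have h7 : N * (N * (2 ^ s * (1 + 2 ^ (0 + 1)))) * 32 ≤
        2 ^ s * (2 ^ s * (2 ^ s * 2 ^ 2)) * 2 ^ 5 := by
      have := hp.hNs
      gcongr
      · norm_num
      · norm_num
    refine h7.trans ?_
    rw [← pow_add, ← pow_add, ← pow_add, ← pow_add]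
    refine Nat.pow_le_pow_right (by norm_num) ?_
    nlinarith [Nat.zero_le (s * s)]
  have h8 : (2 : ℕ) ^ (21 * n) = 2 ^ n * 2 ^ (20 * n) := by
    rw [← pow_add]
    congr 1
    omega
  have h9 : (2 : ℕ) ^ (20 * n + 1) = 2 ^ (20 * n) * 2 := pow_succ _ _
  calc _ ≤ N * (N * (2 ^ s * (1 + 2 ^ (0 + 1))) * Fintype.card (Om n N)) *
        2 ^ (20 * n + 1) * 16 := by gcongr
    _ = (N * (N * (2 ^ s * (1 + 2 ^ (0 + 1)))) * 32) * (Fintype.card (Om n N) *
        2 ^ (20 * n)) := by rw [h9]; ring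
    _ ≤ 2 ^ n * (Fintype.card (Om n N) * 2 ^ (20 * n)) := Nat.mul_le_mul_right _ h6
    _ = _ := by rw [h8]; ring

end Pool.Agent.RTT
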