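import Pool.Agent.RTT.Targets
import Pool.Agent.RDS.P_INVC
import Pool.Agent.RDS.P_INJC

set_option autoImplicit false

/-!
# RTT: target EV5 (no value is guessed)
-/

namespace Pool.Agent.RTT

open Pool.Agent.DSR (Lang PolyTime encPair encBool Ans Letter encAns)
open Pool.Agent.RDS
open Pool.Agent.RTS (Cer SS)
open Pool.Agent.RAD (AD pv pq K3 CorrD)

namespace EV5_

/-- the event for two strings -/
def Dd (G : Alg) (ψ ψ' : Str) (R : Str → Str) : Prop :=
  false :: R ψ ∈ lst G R (false :: R ψ') ∧ ψ ∉ G.T R (false :: R ψ')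

theorem lst_len (G : Alg) (R : Str → Str) (x : Str) :
    (lst G R x).length ≤ G.P.eval x.length := by
  unfold lst
  split
  · rename_i l h
    exact G.kids R x l h
  · simp

theorem lst_loc (G : Alg) {R R' : Str → Str} {x : Str} (h : ∀ u ∈ G.T R x, R u = R' u) :
    lst G R' x = lst G R x := by
  unfold lst
  rw [(G.loc R R' x h).1]

theorem fib (G : Alg) (R : Str → Str) (L : ℕ) (ψ ψ' : Str) (hne : ψ' ≠ ψ) (s : ℕ)
    (hs : G.P.eval (false :: R ψ').length ≤ 2 ^ s) :
    {y : List.Vector Bool L | Dd G ψ ψ' (up R ψ y.toList)}.ncard ≤ 2 ^ s := by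
  classical
  rcases Set.eq_empty_or_nonempty
    {y : List.Vector Bool L | Dd G ψ ψ' (up R ψ y.toList)} with h | ⟨y₀, _⟩
  · rw [h, Set.ncard_empty]
    exact Nat.zero_le _
  · have hx : ∀ y : Str, false :: up R ψ y ψ' = false :: R ψ' := fun y => by
      rw [up_ne R y hne]
    have key : ∀ y : List.Vector Bool L, Dd G ψ ψ' (up R ψ y.toList) →
        false :: y.toList ∈ lst G (up R ψ y₀.toList) (false :: R ψ') := by
      intro y hy
      obtain ⟨h1, h2⟩ := hy
      rw [hx, up_self] at h1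
      rw [hx] at h2
      have h3 : lst G (up R ψ y₀.toList) (false :: R ψ') =
          lst G (up R ψ y.toList) (false :: R ψ') := lst_loc G (fun u hu => by
        have h4 : u ≠ ψ := by
          rintro rfl
          exact h2 hu
        rw [up_ne _ _ h4, up_ne _ _ h4])
      rw [h3]
      exact h1
    have hinj : Function.Injective (fun y : List.Vector Bool L => false :: y.toList) := by
      intro y y' hyy
      exact List.Vector.toList_injective (List.cons.inj hyy).2
    rw [← Set.ncard_image_of_injective _ hinj]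
    have hsub : (fun y : List.Vector Bool L => false :: y.toList) ''
        {y : List.Vector Bool L | Dd G ψ ψ' (up R ψ y.toList)} ⊆
        ((lst G (up R ψ y₀.toList) (false :: R ψ')).toFinset : Set Str) := by
      rintro _ ⟨y, hy, rfl⟩
      exact List.mem_toFinset.2 (key y hy)
    refine (Set.ncard_le_ncard hsub (Finset.finite_toSet _)).trans ?_
    rw [Set.ncard_coe_finset]
    exact (List.toFinset_card_le _).trans ((lst_len _ _ _).trans hs)

theorem one (h1 : T_UPX) (G : Alg) {R₀ : Str → Str} (hR : Reg R₀) {n N s : ℕ}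
    (hP : ∀ l, l ≤ 10 * N + 2 → G.P.eval l ≤ 2 ^ s) {ψ ψ' : Str} (hψ : ψ ∈ FF n N)
    (h2 : 2 * ψ'.length ≤ ψ.length) :
    {ω : Om n N | Dd G ψ ψ' (ex R₀ ω)}.ncard * 2 ^ (10 * ψ.length + 1) ≤
      Fintype.card (Om n N) * 2 ^ s := by
  have h3 := mem_FF.1 hψ
  rw [← h1 R₀ n N ψ hψ _ rfl (Dd G ψ ψ')]
  have h4 : ∀ ω : Om n N, {z : List.Vector Bool (10 * ψ.length + 1) |
      Dd G ψ ψ' (up (ex R₀ ω) ψ z.toList)}.ncard ≤ 2 ^ s := by
    intro ω
    refine fib G (ex R₀ ω) _ ψ ψ' ?_ s ?_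
    · rintro rfl
      omega
    · refine hP _ ?_
      rw [List.length_cons, INJC_.len_ex hR]
      omega
  refine (Finset.sum_le_sum fun ω _ => h4 ω).trans ?_
  rw [Finset.sum_const, smul_eq_mul, Finset.card_univ]

/-- the strings of length at most `n` -/
noncomputable def SLE (n : ℕ) : Finset Str := (List.finite_length_le Bool n).toFinset

theorem mem_SLE {n : ℕ} {u : Str} : u ∈ SLE n ↔ u.length ≤ n := by
  unfold SLE
  rw [Set.Finite.mem_toFinset]
  exact Iff.rfl

theorem card_SLE (n : ℕ) : (SLE n).card ≤ 2 ^ (n + 1) := by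
  classical
  induction n with
  | zero =>
    have h : SLE 0 ⊆ {[]} := by
      intro u hu
      rw [mem_SLE] at hu
      rw [Finset.mem_singleton]
      exact List.length_eq_zero_iff.1 (by omega)
    exact (Finset.card_le_card h).trans (by simp)
  | succ n ih =>
    have h : SLE (n + 1) ⊆ SLE n ∪ INVC_.SL (n + 1) := by
      intro u hu
      rw [mem_SLE] at hu
      rw [Finset.mem_union, mem_SLE, INVC_.mem_SL]
      omega
    have h1 := Finset.card_le_card h
    have h2 := Finset.card_union_le (SLE n) (INVC_.SL (n + 1))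
    rw [INVC_.card_SL] at h2
    rw [pow_succ]
    omega

open Classical in
/-- the event for the strings of length `l` -/
noncomputable def Al (G : Alg) (R₀ : Str → Str) (n N l : ℕ) : Finset (Om n N) :=
  Finset.univ.filter fun ω : Om n N => ∃ ψ : Str, ψ.length = l ∧ ∃ ψ' : Str,
    2 * ψ'.length ≤ l ∧ Dd G ψ ψ' (ex R₀ ω)

theorem level (h1 : T_UPX) (G : Alg) {R₀ : Str → Str} (hR : Reg R₀) {n N s l : ℕ}
    (hP : ∀ l, l ≤ 10 * N + 2 → G.P.eval l ≤ 2 ^ s) (hl : n < l) (hlN : l ≤ N) :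
    (Al G R₀ n N l).card * 2 ^ (8 * l) ≤ Fintype.card (Om n N) * 2 ^ s := by
  classical
  set S : Finset (Str × Str) :=
    INVC_.SL l ×ˢ ((SLE l).filter fun ψ' => 2 * ψ'.length ≤ l) with hS
  have h2 : Al G R₀ n N l ⊆
      S.biUnion fun p => Finset.univ.filter fun ω : Om n N => Dd G p.1 p.2 (ex R₀ ω) := by
    intro ω hω
    unfold Al at hω
    obtain ⟨ψ, hψ, ψ', hψ', hd⟩ := (Finset.mem_filter.1 hω).2
    refine Finset.mem_biUnion.2 ⟨(ψ, ψ'), ?_, Finset.mem_filter.2 ⟨Finset.mem_univ _, hd⟩⟩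
    refine Finset.mem_product.2 ⟨INVC_.mem_SL.2 hψ, Finset.mem_filter.2 ⟨mem_SLE.2 ?_, hψ'⟩⟩
    change ψ'.length ≤ l
    omega
  have h3 : ∀ p ∈ S, (Finset.univ.filter fun ω : Om n N => Dd G p.1 p.2 (ex R₀ ω)).card *
      2 ^ (10 * l + 1) ≤ Fintype.card (Om n N) * 2 ^ s := by
    intro p hp
    obtain ⟨h4, h5⟩ := Finset.mem_product.1 hp
    rw [INVC_.mem_SL] at h4
    have h6 := (Finset.mem_filter.1 h5).2
    have h8 : p.1 ∈ FF n N := mem_FF.2 ⟨by omega, by omega⟩
    have h9 : 2 * p.2.length ≤ p.1.length := by omega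
    have h7 := one h1 G hR hP h8 h9
    rw [INJC_.ncard_eq, h4] at h7
    exact h7
  have hc : S.card ≤ 2 ^ l * 2 ^ (l + 1) := by
    rw [hS, Finset.card_product, INVC_.card_SL]
    exact Nat.mul_le_mul_left _ ((Finset.card_filter_le _ _).trans (card_SLE l))
  have h5 : (Al G R₀ n N l).card * 2 ^ (10 * l + 1) ≤
      (2 ^ l * 2 ^ (l + 1)) * (Fintype.card (Om n N) * 2 ^ s) := by
    calc _ ≤ (∑ p ∈ S, (Finset.univ.filter fun ω : Om n N =>
            Dd G p.1 p.2 (ex R₀ ω)).card) * 2 ^ (10 * l + 1) :=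
          Nat.mul_le_mul_right _ ((Finset.card_le_card h2).trans Finset.card_biUnion_le)
      _ = ∑ p ∈ S, (Finset.univ.filter fun ω : Om n N =>
            Dd G p.1 p.2 (ex R₀ ω)).card * 2 ^ (10 * l + 1) := Finset.sum_mul _ _ _
      _ ≤ ∑ _p ∈ S, Fintype.card (Om n N) * 2 ^ s := Finset.sum_le_sum h3
      _ = S.card * (Fintype.card (Om n N) * 2 ^ s) := by rw [Finset.sum_const, smul_eq_mul]
      _ ≤ _ := Nat.mul_le_mul_right _ hc
  have h6 : 2 ^ (10 * l + 1) = (2 ^ l * 2 ^ (l + 1)) * 2 ^ (8 * l) := by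
    rw [← pow_add, ← pow_add]
    congr 1
    ring
  rw [h6, mul_left_comm] at h5
  exact Nat.le_of_mul_le_mul_left h5 (by positivity)

end EV5_

open EV5_ in
theorem p_EV5 (h1 : T_UPX) : T_EV5 := by
  classical
  intro K M κ G q R₀ n N s hp
  have hP : ∀ l, l ≤ 10 * N + 2 → G.G.P.eval l ≤ 2 ^ s := fun l hl => hp.hG l hl
  rw [INJC_.ncard_eq]
  have h2 : (Finset.univ.filter fun ω : Om n N => Ev5 G.G n N (ex R₀ ω)) ⊆
      (Finset.Ioc n N).biUnion fun l => Al G.G R₀ n N l := by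
    intro ω hω
    obtain ⟨ψ', ψ, h3, h4, h5, h6⟩ := (Finset.mem_filter.1 hω).2
    have h7 := mem_FF.1 h4
    refine Finset.mem_biUnion.2 ⟨ψ.length, Finset.mem_Ioc.2 h7, ?_⟩
    unfold Al
    exact Finset.mem_filter.2 ⟨Finset.mem_univ _, ψ, rfl, ψ', h3, h5, h6⟩
  have h3 : (Finset.univ.filter fun ω : Om n N => Ev5 G.G n N (ex R₀ ω)).card * 2 ^ (8 * n) ≤
      N * (Fintype.card (Om n N) * 2 ^ s) := by
    calc _ ≤ (∑ l ∈ Finset.Ioc n N, (Al G.G R₀ n N l).card) * 2 ^ (8 * n) :=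
          Nat.mul_le_mul_right _ ((Finset.card_le_card h2).trans Finset.card_biUnion_le)
      _ = ∑ l ∈ Finset.Ioc n N, (Al G.G R₀ n N l).card * 2 ^ (8 * n) := Finset.sum_mul _ _ _
      _ ≤ ∑ _l ∈ Finset.Ioc n N, Fintype.card (Om n N) * 2 ^ s := by
          refine Finset.sum_le_sum fun l hl => ?_
          rw [Finset.mem_Ioc] at hl
          refine le_trans (Nat.mul_le_mul_left _ ?_) (level h1 G.G hp.reg hP hl.1 hl.2)
          exact Nat.pow_le_pow_right (by norm_num) (by omega)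
      _ = (N - n) * (Fintype.card (Om n N) * 2 ^ s) := by
          rw [Finset.sum_const, smul_eq_mul, Nat.card_Ioc]
      _ ≤ _ := Nat.mul_le_mul_right _ (Nat.sub_le _ _)
  have h4 : 16 * (2 ^ s * 2 ^ s) ≤ 2 ^ (8 * n) := by
    have h5 : 16 * (2 ^ s * 2 ^ s) = 2 ^ (4 + (s + s)) := by
      rw [pow_add, pow_add]
      norm_num
    rw [h5]
    refine Nat.pow_le_pow_right (by norm_num) ?_
    have := hp.hs
    nlinarith
  have h5 : (Finset.univ.filter fun ω : Om n N => Ev5 G.G n N (ex R₀ ω)).card * 16 *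
      (2 ^ s * 2 ^ s) ≤ Fintype.card (Om n N) * (2 ^ s * 2 ^ s) := by
    calc _ = (Finset.univ.filter fun ω : Om n N => Ev5 G.G n N (ex R₀ ω)).card *
          (16 * (2 ^ s * 2 ^ s)) := by ring
      _ ≤ (Finset.univ.filter fun ω : Om n N => Ev5 G.G n N (ex R₀ ω)).card * 2 ^ (8 * n) :=
          Nat.mul_le_mul_left _ h4
      _ ≤ N * (Fintype.card (Om n N) * 2 ^ s) := h3
      _ ≤ 2 ^ s * (Fintype.card (Om n N) * 2 ^ s) := Nat.mul_le_mul_right _ hp.hNs
      _ = _ := by ring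
  exact Nat.le_of_mul_le_mul_right h5 (by positivity)

end Pool.Agent.RTT
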