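import Pool.Agent.RTT.Targets
import Pool.Agent.RAD.P_HRE

set_option autoImplicit false

/-!
# RTT: KPL, instances of the universal set about planted values (helper17)
-/

namespace Pool.Agent.RTT

open Pool.Agent.DSR (Lang PolyTime encPair encBool Ans Letter encAns)
open Pool.Agent.PT (Dat PolyF Core)
open Pool.Agent.RDS
open Pool.Agent.RDS.HRD_ (ins_inj length_ins orc_qst)
open Pool.Agent.RAD (fmt cd Val K3)
open Pool.Agent.RAD.HRE_ (length_fmt_nil length_cd)

namespace KPL_

/-! ### The verifier -/

/-- at `((w, u), h)`: a question if `|u| = |w|` and `|h| ≤ |w|`, otherwise whether all answers are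
`false` (and `|u| = |w|`) -/
def ver (p : (Str × Str) × List Bool) : Bool × Str × Bool :=
  (decide (p.1.2.length = p.1.1.length) && decide (p.2.length < p.1.1.length + 1),
    qst p.2.length (p.1.1 ++ p.1.2),
    decide (p.1.2.length = p.1.1.length) && decide (p.2.map (fun _ => false) = p.2))

theorem ver_pt : PolyF ver := by
  have hC : Fact Core := ⟨Pool.Agent.PT.core⟩
  have hx : PolyF (fun p : (Str × Str) × List Bool => p.1.1) := by fun_prop
  have hu : PolyF (fun p : (Str × Str) × List Bool => p.1.2) := by fun_prop
  have hh : PolyF (fun p : (Str × Str) × List Bool => p.2) := by fun_prop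
  unfold ver
  refine PolyF.pair (PolyF.and (PolyF.eq_nat hu.length hx.length)
    (PolyF.nat_lt hh.length (PolyF.nat_add hx.length (PolyF.const _))))
    (PolyF.pair ?_ (PolyF.and (PolyF.eq_nat hu.length hx.length) (PolyF.eq ?_ hh)))
  · have h4 : PolyF (fun p : (Str × Str) × List Bool =>
        false :: (p.2.map (fun _ => true) ++ false :: (p.1.1 ++ p.1.2))) := by
      refine PolyF.cons (PolyF.const _) (PolyF.append ?_ (PolyF.cons (PolyF.const _)
        (PolyF.append hx hu)))
      exact PolyF.map (f := fun (_ : (Str × Str) × List Bool) (_ : Bool) => true)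
        (PolyF.const _) hh
    refine h4.congr fun p => ?_
    unfold qst
    rw [List.map_const']
  · exact PolyF.map (f := fun (_ : (Str × Str) × List Bool) (_ : Bool) => false)
      (PolyF.const _) hh

/-- the verifier -/
noncomputable def vv : Ver := (fun p => mvOf (ver p), Polynomial.X)

/-- its questions -/
def qs (w u : Str) : List Str := (List.range (w.length + 1)).map fun j => qst j (w ++ u)

theorem mvOf_out {β : Type} {p : Bool × Str × β} {b : β} (h : mvOf p = .out b) :
    p.1 = false ∧ p.2.2 = b := by
  obtain ⟨c, v, b'⟩ := p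
  cases c
  · exact ⟨rfl, by simpa [mvOf] using h⟩
  · simp [mvOf] at h

theorem mvOf_ask {β : Type} {p : Bool × Str × β} {v : Str} (h : mvOf p = .ask v) :
    p.1 = true ∧ p.2.1 = v := by
  obtain ⟨c, v', b'⟩ := p
  cases c
  · simp [mvOf] at h
  · exact ⟨rfl, by simpa [mvOf] using h⟩

theorem tran_fwd (U : Str → Bool) (R : Str → Str) (w u : Str) (vs : List Str)
    (h : Tran vv w u vs (vs.map (orc U R))) :
    u.length = w.length ∧ Pl w.length (R (w ++ u)) := by
  obtain ⟨-, -, h3, h4⟩ := h
  obtain ⟨h5, h6⟩ := mvOf_out h4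
  simp only [ver, Bool.and_eq_true, decide_eq_true_eq] at h6
  obtain ⟨h7, h8⟩ := h6
  simp only [ver, h7, decide_true, Bool.true_and, decide_eq_false_iff_not, List.length_map,
    not_lt] at h5
  refine ⟨h7, fun j hj => ?_⟩
  have hj1 : j < vs.length := by omega
  obtain ⟨-, h9⟩ := mvOf_ask (h3 j hj1)
  simp only [ver, List.length_take, List.length_map] at h9
  rw [min_eq_left hj1.le] at h9
  have h10 : (vs.map (orc U R))[j]'(by rw [List.length_map]; exact hj1) = false := by
    have h11 : j < ((vs.map (orc U R)).map fun _ => false).length := by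
      rw [List.length_map, List.length_map]
      exact hj1
    have h12 : ((vs.map (orc U R)).map fun _ => false)[j]'h11 = false := by
      rw [List.getElem_map]
    rw [← h12]
    congr 1
    exact h8.symm
  rw [List.getElem_map, ← h9, orc_qst] at h10
  exact h10

theorem qs_map (U : Str → Bool) (R : Str → Str) (w u : Str) (h : Pl w.length (R (w ++ u))) :
    (qs w u).map (orc U R) = List.replicate (w.length + 1) false := by
  rw [List.eq_replicate_iff]
  refine ⟨by simp [qs], fun b hb => ?_⟩
  obtain ⟨v, hv, rfl⟩ := List.mem_map.1 hb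
  obtain ⟨j, hj, rfl⟩ := List.mem_map.1 hv
  rw [orc_qst]
  exact h j (by have := List.mem_range.1 hj; omega)

theorem tran_bwd (U : Str → Bool) (R : Str → Str) (w u : Str) (h1 : u.length = w.length)
    (h2 : Pl w.length (R (w ++ u))) : Tran vv w u (qs w u) ((qs w u).map (orc U R)) := by
  rw [qs_map U R w u h2]
  refine ⟨by simp [vv, h1], by simp [qs], fun j hj => ?_, ?_⟩
  · have hj1 : j < w.length + 1 := by simpa [qs] using hj
    have h3 : (ver ((w, u), (List.replicate (w.length + 1) false).take j)).1 = true := by
      simp only [ver, h1, List.length_take, List.length_replicate, decide_true, Bool.true_and,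
        decide_eq_true_eq]
      omega
    have h4 : (ver ((w, u), (List.replicate (w.length + 1) false).take j)).2.1 =
        qst j (w ++ u) := by
      simp only [ver, List.length_take, List.length_replicate]
      rw [min_eq_left hj1.le]
    have h5 : (qs w u)[j] = qst j (w ++ u) := by
      simp [qs]
    rw [h5, ← h4]
    change mvOf _ = _
    unfold mvOf
    rw [h3]
    rfl
  · have h3 : (ver ((w, u), List.replicate (w.length + 1) false)).1 = false := by
      simp [ver]
    have h4 : (ver ((w, u), List.replicate (w.length + 1) false)).2.2 = true := by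
      simp [ver, h1]
    change mvOf _ = _
    unfold mvOf
    rw [h3, h4]
    rfl

theorem tsz_qs (w u : Str) (h : u.length = w.length) :
    tsz u (qs w u) ≤ w.length + (w.length + 1) * (3 * w.length + 3) := by
  unfold tsz
  have h13 := List.sum_le_card_nsmul ((qs w u).map fun v : Str => v.length + 1)
    (3 * w.length + 3) (by
      intro a ha
      obtain ⟨v, hv, rfl⟩ := List.mem_map.1 ha
      obtain ⟨j, hj, rfl⟩ := List.mem_map.1 hv
      have hj1 := List.mem_range.1 hj
      unfold qst
      simp only [List.length_cons, List.length_append, List.length_replicate]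
      omega)
  have h14 : ((qs w u).map fun v : Str => v.length + 1).length = w.length + 1 := by
    simp [qs]
  rw [h14, smul_eq_mul] at h13
  rw [h]
  exact Nat.add_le_add_left h13 _

end KPL_

open KPL_ in
theorem p_KPL (h1 : Pool.Agent.RDS.T_CNV) (h2 : Pool.Agent.RAD.T_FMT) : T_KPL := by
  intro E hE U
  obtain ⟨i, hi⟩ := hE vv (h1.1 _ ver_pt)
  obtain ⟨t, ht⟩ : ∃ t : Polynomial ℕ, t = 4 * (Polynomial.X + (Polynomial.X + 1) *
    (3 * Polynomial.X + 3)) + 3 := ⟨_, rfl⟩
  have htt : ∀ n, t.eval n = 4 * (n + (n + 1) * (3 * n + 3)) + 3 := by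
    intro n
    rw [ht]
    simp
  refine ⟨2 * (Polynomial.C (i + 2) + t + Polynomial.X) + 2,
    fun w => fmt (ins i (t.eval w.length) w) [], fun w => ?_, fun n => ?_, fun R w => ?_⟩
  · rw [length_fmt_nil, length_ins]
    simp only [Polynomial.eval_add, Polynomial.eval_mul, Polynomial.eval_ofNat,
      Polynomial.eval_C, Polynomial.eval_X]
    omega
  · simp only [Polynomial.eval_add, Polynomial.eval_mul, Polynomial.eval_ofNat,
      Polynomial.eval_C, Polynomial.eval_X]
    rw [htt]
    generalize (n + 1) * (3 * n + 3) = m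
    omega
  · constructor
    · rintro ⟨χ, p, c, hfc, hpc, hcl, u, vs, -, -, i', t', x', hx', hT⟩
      have hpl : p.length ≤ χ.length := hpc.length_le.trans hcl
      obtain ⟨h4, -⟩ := h2.1 _ _ _ _ (by simp) hpl hfc
      rw [← h4] at hx'
      obtain ⟨rfl, -, rfl⟩ := ins_inj hx'
      rw [hi] at hT
      exact ⟨u, tran_fwd U R w u vs hT⟩
    · rintro ⟨u, h3, h4⟩
      have h5 := tsz_qs w u h3
      have h6 := length_cd u (qs w u)
      have h7 := length_ins i (t.eval w.length) w
      have h8 := htt w.length
      refine ⟨ins i (t.eval w.length) w, [], cd (u, qs w u), rfl, ⟨cd (u, qs w u), rfl⟩, ?_, u,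
        qs w u, rfl, ?_, i, t.eval w.length, w, rfl, ?_⟩
      · omega
      · omega
      · rw [hi]
        exact tran_bwd U R w u h3 h4

end Pool.Agent.RTT
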