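import Pool.Agent.RTT.Targets
import Pool.Agent.RDS.P_MAIN

set_option autoImplicit false

/-!
# RTT, block MAIN: assembly of the main theorem
-/

namespace Pool.Agent.RTT

open Pool.Agent.DSR (Lang PolyTime encPair encBool Ans Letter encAns)
open Pool.Agent.RDS
open Pool.Agent.RTS (join asked TurChain GenTuringSelfRed)
open Pool.Agent.RAD (AD K3 T_KOD T_MED T_HRE T_TSR T_TCH)

namespace MAIN_

/-- an oracle for which countably many algorithms fail -/
theorem gen (hCORE : T_CORE) (hPRV : T_PRV) (hGEN : Pool.Agent.RDS.T_GEN)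
    {K : (Str → Str) → Set Str} {M : Polynomial ℕ} {κ : Str → Str} (hK : KOkV K M κ)
    (S : Set (AlgV × Polynomial ℕ))
    (hS : S.Countable) : ∃ R, Reg R ∧ ∀ p ∈ S, ¬ CorrV K p.1 p.2 R := by
  obtain ⟨ν, hν⟩ := Set.countable_iff_exists_injOn.1 hS
  obtain ⟨R, hR, h⟩ := hGEN (fun e R => ∀ p ∈ S, ν p = e → ¬ CorrV K p.1 p.2 R) (by
    intro e R₀ m₀ hR₀
    by_cases h : ∃ p ∈ S, ν p = e
    · obtain ⟨p, hp, hpe⟩ := h
      have h1 := hCORE K M κ hK p.1 p.2 R₀ m₀ hR₀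
      unfold HHV at h1
      push Not at h1
      obtain ⟨R, hR, hRa, hRC⟩ := h1
      obtain ⟨m, hm⟩ := hPRV K M κ hK p.1 p.2 R hR hRC
      refine ⟨R, m, hR, hRa, fun R' hR' hRR' p' hp' hpe' => ?_⟩
      rw [hν hp' hp (hpe'.trans hpe.symm)]
      exact hm R' hR' hRR'
    · exact ⟨R₀, 0, hR₀, fun u _ => rfl, fun R' _ _ p hp hpe => absurd ⟨p, hp, hpe⟩ h⟩)
  exact ⟨R, hR, fun p hp => h (ν p) p hp rfl⟩

theorem encLst_inj (h : Function.Injective encAns) : Function.Injective encLst := by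
  intro l l' hl
  exact Ans.ask.inj (h hl)

/-- an algorithm which does nothing -/
noncomputable def dA : Alg := ⟨fun _ _ => none, fun _ _ => ∅, 0, fun _ _ _ _ => ⟨rfl, rfl⟩, by simp, by simp⟩

/-- an algorithm which does nothing -/
noncomputable def dV : AlgV := ⟨dA, fun _ _ _ => none, fun _ _ _ => ∅, 0, fun _ _ _ _ _ => rfl, by simp⟩

/-- the pairs of machines -/
abbrev Prs : Type := (Str × List Bool → Mv (List Str)) × ((Str × Str) × List Bool → Mv Bool)

/-- pairs of machines which are polynomial time -/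
def PP2 (t : Prs × (Polynomial ℕ × (Polynomial ℕ × Polynomial ℕ))) : Prop :=
  PolyTime (encH (id : Str → Str)) (encMv encLst) t.1.1 ∧
    PolyTime (encH encPair) (encMv encBool) t.1.2

end MAIN_

open MAIN_ in
theorem p_MAIN (hCORE : T_CORE) (hPRV : T_PRV) (hGEN : Pool.Agent.RDS.T_GEN) (hKOD : T_KOD)
    (hKPL : T_KPL) (hINE : Pool.Agent.RDS.T_INE) (hCTB : Pool.Agent.RDS.T_CTB)
    (hALG : Pool.Agent.RDS.T_ALG) (hALV : T_ALV) (hD2V : T_D2V)
    (hCNV : Pool.Agent.RDS.T_CNV) (hMED : T_MED) (hHRE : T_HRE) (hTSR : T_TSR)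
    (hTCH : T_TCH) : T_MAIN := by
  obtain ⟨E, hE1, hE2⟩ := Pool.Agent.RDS.MAIN_.exE hCTB hINE hCNV
  obtain ⟨M, κ, hM, hbig, hplant⟩ := hKPL E hE2 (UU E)
  have hK : KOkV (K3 E (UU E)) M κ := ⟨(hKOD E (UU E) hE1).cert, hM, hbig, hplant⟩
  have := Pool.Agent.RDS.MAIN_.cpoly
  -- non-adaptive algorithms
  have hT : {t : Prs × (Polynomial ℕ × (Polynomial ℕ × Polynomial ℕ)) | PP2 t}.Countable := by
    refine Pool.Agent.RDS.MAIN_.enum {t : Prs |
      PolyTime (encH (id : Str → Str)) (encMv encLst) t.1 ∧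
        PolyTime (encH encPair) (encMv encBool) t.2} ?_
    have h1 := (hCTB (encH (id : Str → Str)) (encMv encLst) (hINE.1 _ (encLst_inj hINE.2.2))).prod
      (hCTB (encH encPair) (encMv encBool) (hINE.1 _ hINE.2.1))
    refine Set.Countable.mono ?_ h1
    rintro ⟨t1, t2⟩ ⟨a, b⟩
    exact Set.mk_mem_prod a b
  have hA : ∀ t : Prs × (Polynomial ℕ × (Polynomial ℕ × Polynomial ℕ)), ∃ G : AlgV, PP2 t →
      (∀ R x, G.G.g R x =
        (run (orc (UU E) R) t.1.1 x (t.2.1.eval x.length) []).map Ans.ask) ∧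
      ∀ R x b, G.v R x b =
        run (orc (UU E) R) t.1.2 (x, b) (t.2.2.1.eval (encPair (x, b)).length) [] := by
    intro t
    by_cases h : PP2 t
    · obtain ⟨G, hG⟩ := hALV (UU E) t.1.1 t.1.2 t.2.1 t.2.2.1 h.1
      exact ⟨G, fun _ => hG⟩
    · exact ⟨dV, fun h' => absurd h' h⟩
  choose A hA using hA
  -- disjunctive algorithms
  have hD : {t : (Str × List Bool → Mv Ans) × (Polynomial ℕ × Polynomial ℕ) |
      PolyTime (encH (id : Str → Str)) (encMv encAns) t.1}.Countable :=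
    Pool.Agent.RDS.MAIN_.enum _
      (hCTB (encH (id : Str → Str)) (encMv encAns) (hINE.1 _ hINE.2.2))
  have hB : ∀ t : (Str × List Bool → Mv Ans) × (Polynomial ℕ × Polynomial ℕ), ∃ B : Alg,
      PolyTime (encH (id : Str → Str)) (encMv encAns) t.1 →
      ∀ R x, B.g R x = run (orc (UU E) R) t.1 x (t.2.1.eval x.length) [] := by
    intro t
    by_cases h : PolyTime (encH (id : Str → Str)) (encMv encAns) t.1
    · obtain ⟨B, hB⟩ := hALG (UU E) t.1 t.2.1 h
      exact ⟨B, fun _ => hB⟩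
    · exact ⟨⟨fun _ _ => none, fun _ _ => ∅, 0, fun _ _ _ _ => ⟨rfl, rfl⟩, by simp, by simp⟩,
        fun h' => absurd h' h⟩
  choose B hB using hB
  choose C hC using hD2V
  obtain ⟨R, hR, hS⟩ := gen hCORE hPRV hGEN hK
    ((fun t => (A t, t.2.2.2)) '' {t : Prs × (Polynomial ℕ × (Polynomial ℕ × Polynomial ℕ)) |
        PP2 t} ∪
      (fun t => (C (B t), t.2.2)) '' {t : (Str × List Bool → Mv Ans) ×
        (Polynomial ℕ × Polynomial ℕ) | PolyTime (encH (id : Str → Str)) (encMv encAns) t.1})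
    ((hT.image _).union (hD.image _))
  refine ⟨orc (UU E) R, AD (K3 E (UU E)) R, ⟨hMED E R hR, hHRE E hE2 R hR⟩, ?_, ?_, ?_⟩
  · obtain ⟨G, r, hG, hrun, hask⟩ := hTSR E R hR
    refine ⟨G, r, Polynomial.C 4 * Polynomial.X + Polynomial.C 4, hG, hrun, fun c k hc => ?_⟩
    have h := hTCH R hR c k fun i hi => hask _ _ (hc i hi)
    simpa using h
  · rintro ⟨f, V, q, ⟨G₁, r₁, hG₁, hrun₁⟩, ⟨G₂, r₂, hG₂, hrun₂⟩, hright, hch⟩
    refine hS _ (Or.inl ⟨((G₁, G₂), (r₁, (r₂, q))), ⟨hG₁, hG₂⟩, rfl⟩) ?_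
    obtain ⟨h1, h2⟩ := hA ((G₁, G₂), (r₁, (r₂, q))) ⟨hG₁, hG₂⟩
    have hl : ∀ x, lst (A ((G₁, G₂), (r₁, (r₂, q)))).G R x = f x := fun x => by
      unfold lst
      rw [h1 R x]
      have := hrun₁ x
      simp only [id] at this
      rw [this]
      rfl
    refine ⟨fun x => ⟨V (x, bts (AD (K3 E (UU E)) R) (f x)), ?_, ?_⟩, fun c k hck => ?_⟩
    · rw [hl, h2]
      exact hrun₂ _
    · exact (hright x).symm
    · exact hch c k fun i hi => by
        have := hck i hi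
        rwa [hl] at this
  · rintro ⟨g, q, ⟨G₀, r, hG₀, hrun⟩, hright, hch⟩
    refine hS _ (Or.inr ⟨(G₀, (r, q)), hG₀, rfl⟩) (hC _ _ _ _ ?_)
    have hg : ∀ x, (B (G₀, (r, q))).g R x = some (g x) := fun x => by
      rw [hB (G₀, (r, q)) hG₀ R x]
      exact hrun x
    refine ⟨fun x => ⟨g x, hg x, hright x⟩, fun c k hck => hch c k fun i hi => ?_⟩
    obtain ⟨l, hl, hm⟩ := hck i hi
    rw [hg] at hl
    exact ⟨l, Option.some_injective _ hl, hm⟩

end Pool.Agent.RTT
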