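import Pool.Agent.RTT.Targets

/-!
# RTT, target PRJ: counting samples
-/

set_option autoImplicit false

namespace Pool.Agent.RTT

open Pool.Agent.RDS

namespace PRJ_

open Classical in
theorem nc {α : Type} [Fintype α] (q : α → Prop) :
    {a | q a}.ncard = ∑ a, if q a then 1 else 0 := by
  rw [← Finset.card_filter, Set.ncard_eq_toFinset_card', Set.toFinset_setOf]

theorem nc_prod {α β : Type} [Fintype α] [Fintype β] (q : α → β → Prop) :
    {t : α × β | q t.1 t.2}.ncard = ∑ a, {b | q a b}.ncard := by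
  classical
  simp only [nc, Fintype.sum_prod_type]

theorem nc_prod' {α β : Type} [Fintype α] [Fintype β] (q : α × β → Prop) :
    {t : α × β | q t}.ncard = ∑ a, {b | q (a, b)}.ncard :=
  nc_prod fun a b => q (a, b)

open Classical in
theorem nc_and {α : Type} (q : α → Prop) (c : Prop) (k : ℕ) (h : {a | q a}.ncard = k) :
    {a | q a ∧ c}.ncard = if c then k else 0 := by
  by_cases hc : c
  · simp only [hc, and_true, if_true]
    exact h
  · simp only [hc, and_false, if_false]
    simp

open Classical in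
theorem nc_const {α : Type} [Fintype α] (c : Prop) :
    {a : α | c}.ncard = if c then Fintype.card α else 0 := by
  by_cases hc : c
  · simp [hc]
  · simp [hc]

theorem card_vec (n : ℕ) : Fintype.card (List.Vector Bool n) = 2 ^ n := by
  rw [card_vector, Fintype.card_bool]

theorem four (m N n : ℕ) (p : Om m N → List.Vector Bool n → List.Vector Bool n →
    List.Vector Bool (20 * n + 1) → Prop) :
    {t : Smp m N n | p t.1 t.2.1 t.2.2.1 t.2.2.2}.ncard =
      ∑ w, ∑ u, ∑ ω, {z | p ω w u z}.ncard := by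
  have h1 : {t : Smp m N n | p t.1 t.2.1 t.2.2.1 t.2.2.2}.ncard =
      ∑ ω, ∑ w, ∑ u, {z | p ω w u z}.ncard := by
    refine (nc_prod' (α := Om m N) fun t : Smp m N n => p t.1 t.2.1 t.2.2.1 t.2.2.2).trans ?_
    refine Finset.sum_congr rfl fun ω _ => ?_
    refine (nc_prod' (α := List.Vector Bool n) fun t : List.Vector Bool n × List.Vector Bool n ×
      List.Vector Bool (20 * n + 1) => p ω t.1 t.2.1 t.2.2).trans ?_
    refine Finset.sum_congr rfl fun w _ => ?_
    exact nc_prod' (α := List.Vector Bool n) fun t : List.Vector Bool n ×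
      List.Vector Bool (20 * n + 1) => p ω w t.1 t.2
  rw [h1, Finset.sum_comm]
  refine Finset.sum_congr rfl fun w _ => ?_
  rw [Finset.sum_comm]

theorem three (h1 : T_PLC) (m N n : ℕ)
    (p : Om m N → List.Vector Bool n → List.Vector Bool n → Prop) :
    {t : Smp m N n | Pl n (zz t) ∧ p t.1 t.2.1 t.2.2.1}.ncard =
      (∑ w, ∑ ω, {u | p ω w u}.ncard) * 2 ^ (19 * n) := by
  classical
  have h2 : {z : List.Vector Bool (20 * n + 1) | Pl n z.toList}.ncard = 2 ^ (19 * n) := by
    rw [h1 n (20 * n + 1) (by omega)]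
    congr 1
    omega
  refine (four m N n fun ω w u z => Pl n z.toList ∧ p ω w u).trans ?_
  rw [Finset.sum_mul]
  refine Finset.sum_congr rfl fun w _ => ?_
  rw [Finset.sum_comm, Finset.sum_mul]
  refine Finset.sum_congr rfl fun ω _ => ?_
  rw [nc, Finset.sum_mul]
  refine Finset.sum_congr rfl fun u _ => ?_
  rw [nc_and _ _ _ h2]
  by_cases h : p ω w u <;> simp [h]

theorem two (h1 : T_PLC) (m N n : ℕ) (p : Om m N → List.Vector Bool n → Prop) :
    {t : Smp m N n | Pl n (zz t) ∧ p t.1 t.2.1}.ncard =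
      (∑ w, {ω | p ω w}.ncard) * 2 ^ (20 * n) := by
  classical
  refine (three h1 m N n fun ω w _ => p ω w).trans ?_
  have e : (2 : ℕ) ^ (20 * n) = 2 ^ n * 2 ^ (19 * n) := by
    rw [← pow_add]
    congr 1
    omega
  rw [e, ← mul_assoc]
  congr 1
  rw [Finset.sum_mul]
  refine Finset.sum_congr rfl fun w _ => ?_
  rw [nc, Finset.sum_mul]
  refine Finset.sum_congr rfl fun ω _ => ?_
  rw [nc_const, card_vec]
  by_cases h : p ω w <;> simp [h]

theorem one (h1 : T_PLC) (m N n : ℕ) (p : Om m N → Prop) :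
    {t : Smp m N n | Pl n (zz t) ∧ p t.1}.ncard = {ω | p ω}.ncard * 2 ^ (21 * n) := by
  refine (two h1 m N n fun ω _ => p ω).trans ?_
  have e : (2 : ℕ) ^ (21 * n) = 2 ^ n * 2 ^ (20 * n) := by
    rw [← pow_add]
    congr 1
    omega
  rw [e, ← mul_assoc]
  congr 1
  rw [Finset.sum_const, Finset.card_univ, card_vec, smul_eq_mul, mul_comm]

end PRJ_

open PRJ_ in
/-- Counting samples. -/
theorem p_PRJ (h1 : T_PLC) : T_PRJ :=
  ⟨one h1, two h1, three h1, four⟩

end Pool.Agent.RTT
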