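import Pool.Agent.RTT.Targets
import Pool.Agent.RAD.P_PRD

set_option autoImplicit false

/-! # RTT, PRV: a failure depends on finitely many values -/

namespace Pool.Agent.RTT

open Pool.Agent.DSR (Lang PolyTime encPair encBool Ans Letter encAns)
open Pool.Agent.RDS
open Pool.Agent.RTS (Cer SS)
open Pool.Agent.RAD (AD pv pq nil_AD false_AD true_AD)
open Pool.Agent.RAD.PRD_ (agr_mono agr_symm pv_fst_len bd le_bd g_eq)

namespace PRV_

theorem AD_imp {K : (Str → Str) → Set Str} {M : Polynomial ℕ} {κ : Str → Str}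
    (hK : KOkV K M κ) {R R' : Str → Str} (hR : Reg R)
    {z : Str} (h : Agr z.length R R') (hz : z ∈ AD K R) : z ∈ AD K R' := by
  rcases z with _ | ⟨b, v⟩
  · exact absurd hz (nil_AD K R)
  cases b with
  | false =>
    rw [false_AD] at hz ⊢
    obtain ⟨ψ, h1, h2⟩ := hz
    have h3 : ψ.length < (false :: v).length := by
      rw [List.length_cons, ← h2, hR.len]
      omega
    obtain ⟨S, -, h4, h5⟩ := hK.cert R ψ h1
    refine ⟨ψ, h5 R' fun u hu => ?_, by rw [← h ψ h3, h2]⟩
    have h6 := h4 u hu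
    exact (h u (by omega)).symm
  | true =>
    rw [true_AD] at hz ⊢
    obtain ⟨ψ, h1, h2⟩ := hz
    have h3 : ψ.length < (true :: v).length := by
      have h4 := pv_fst_len v
      rw [← h2, hR.len] at h4
      rw [List.length_cons]
      omega
    exact ⟨ψ, h1, by rw [← h ψ h3, h2]⟩

theorem AD_iff {K : (Str → Str) → Set Str} {M : Polynomial ℕ} {κ : Str → Str}
    (hK : KOkV K M κ) {R R' : Str → Str} (hR : Reg R)
    (hR' : Reg R') {z : Str} {m : ℕ} (h : Agr m R R') (hz : z.length ≤ m) :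
    z ∈ AD K R ↔ z ∈ AD K R' :=
  ⟨AD_imp hK hR (agr_mono h hz), AD_imp hK hR' (agr_mono (agr_symm h) hz)⟩

theorem lst_eq (G : Alg) {R R' : Str → Str} {y : Str} {m : ℕ} (h : Agr m R R')
    (hm : bd (G.T R y) < m) : lst G R' y = lst G R y := by
  unfold lst
  rw [g_eq G h hm]

end PRV_

open PRV_ in
theorem p_PRV : T_PRV := by
  intro K M κ hK G q R hR hC
  unfold CorrV at hC
  rw [not_and_or] at hC
  rcases hC with hC | hC
  · push Not at hC
    obtain ⟨x, hx⟩ := hC
    obtain ⟨l, hl⟩ : ∃ l, l = lst G.G R x := ⟨_, rfl⟩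
    obtain ⟨bb, hbb⟩ : ∃ bb, bb = bts (AD K R) l := ⟨_, rfl⟩
    refine ⟨max (max x.length (bd l.toFinset)) (max (bd (G.G.T R x) + 1)
      (bd (G.T R x bb) + 1)), fun R' hR' h hC' => ?_⟩
    have hx1 : x ∈ AD K R ↔ x ∈ AD K R' :=
      AD_iff hK hR hR' h ((le_max_left _ _).trans (le_max_left _ _))
    have hl1 : lst G.G R' x = l := by
      rw [hl]
      exact lst_eq G.G h (lt_of_lt_of_le (Nat.lt_succ_self _)
        ((le_max_left _ _).trans (le_max_right _ _)))
    have hb1 : bts (AD K R') l = bb := by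
      rw [hbb]
      unfold bts
      refine List.map_congr_left fun y hy => ?_
      have h1 : y ∈ AD K R ↔ y ∈ AD K R' := AD_iff hK hR hR' h
        ((le_bd (List.mem_toFinset.mpr hy)).trans ((le_max_right _ _).trans (le_max_left _ _)))
      exact decide_eq_decide.2 h1.symm
    have hv1 : G.v R' x bb = G.v R x bb := by
      refine G.loc R R' x bb fun u hu => h u ?_
      exact lt_of_lt_of_le (Nat.lt_succ_of_le (le_bd hu))
        ((le_max_right _ _).trans (le_max_right _ _))
    obtain ⟨b, h1, h2⟩ := hC'.1 x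
    rw [hl1, hb1, hv1] at h1
    rw [← hl, ← hbb] at hx
    rcases hx b h1 with h3 | h3
    · exact h3.2 (hx1.2 (h2.1 h3.1))
    · exact h3.1 (h2.2 (hx1.1 h3.2))
  · push Not at hC
    obtain ⟨c, k, hch, hb⟩ := hC
    refine ⟨(Finset.range k).sup (fun i => bd (G.G.T R (c i))) + 1, fun R' hR' h hC' => ?_⟩
    have h1 : ∀ i < k, c (i + 1) ∈ lst G.G R' (c i) := by
      intro i hi
      rw [lst_eq G.G h ?_]
      · exact hch i hi
      · exact Nat.lt_succ_of_le (Finset.le_sup (f := fun i => bd (G.G.T R (c i)))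
          (Finset.mem_range.mpr hi))
    obtain ⟨h4, h5⟩ := hC'.2 c k h1
    exact absurd h5 (not_le.mpr (hb h4))

end Pool.Agent.RTT
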