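import Pool.Agent.RTT.Targets

set_option autoImplicit false

/-!
# RTT: target RCC

Cardinalities of the sets `Rea` and `The`.
-/

namespace Pool.Agent.RTT

open Pool.Agent.DSR (Lang PolyTime encPair encBool Ans Letter encAns)
open Pool.Agent.RDS
open Pool.Agent.RTS (Cer SS)
open Pool.Agent.RAD (AD pv pq)

namespace RCC_

theorem len_le {R : Str → Str} (hR : Reg R) {N : ℕ} {u : Str} (hu : u.length ≤ N) :
    (false :: R u).length ≤ 10 * N + 2 := by
  rw [List.length_cons, hR.len]
  omega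

theorem rea_card (G : Alg) (R : Str → Str) (N s : ℕ) (hR : Reg R)
    (hP : ∀ l, l ≤ 10 * N + 2 → G.P.eval l ≤ 2 ^ s) (ψ : Str) (i : ℕ) :
    (Rea G R N ψ i).card ≤ 2 ^ ((s + 1) * i) := by
  induction i with
  | zero => simp [Rea]
  | succ i ih =>
    have h1 : (((Rea G R N ψ i).filter fun u => u.length ≤ N).biUnion
        fun u => G.T R (false :: R u)).card ≤ (Rea G R N ψ i).card * 2 ^ s := by
      refine (Finset.card_biUnion_le_card_mul _ _ (2 ^ s) fun u hu => ?_).trans
        (Nat.mul_le_mul_right _ (Finset.card_filter_le _ _))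
      exact (G.cardT R _).trans (hP _ (len_le hR (Finset.mem_filter.1 hu).2))
    have h2 : (Rea G R N ψ (i + 1)).card ≤ (Rea G R N ψ i).card +
        (Rea G R N ψ i).card * 2 ^ s := by
      have h3 : (Rea G R N ψ (i + 1)) = Rea G R N ψ i ∪
          ((Rea G R N ψ i).filter fun u => u.length ≤ N).biUnion
            fun u => G.T R (false :: R u) := rfl
      rw [h3]
      exact (Finset.card_union_le _ _).trans (Nat.add_le_add_left h1 _)
    have h4 : (Rea G R N ψ i).card + (Rea G R N ψ i).card * 2 ^ s ≤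
        (Rea G R N ψ i).card * 2 ^ (s + 1) := by
      have h5 : 1 ≤ 2 ^ s := Nat.one_le_two_pow
      rw [pow_succ]
      nlinarith [Nat.zero_le ((Rea G R N ψ i).card)]
    calc (Rea G R N ψ (i + 1)).card ≤ (Rea G R N ψ i).card * 2 ^ (s + 1) := h2.trans h4
      _ ≤ 2 ^ ((s + 1) * i) * 2 ^ (s + 1) := Nat.mul_le_mul_right _ ih
      _ = 2 ^ ((s + 1) * (i + 1)) := by rw [← pow_add]; ring_nf

open Classical in
/-- the certificate which belongs to a question -/
noncomputable def crt (K : (Str → Str) → Set Str) (R : Str → Str) (l : ℕ) (y : Str) :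
    Finset Str :=
  if h : ∃ ψ' : Str, false :: R ψ' = y ∧ ψ'.length < l then SS K R h.choose else ∅

theorem crt_card (K : (Str → Str) → Set Str) (R : Str → Str) (l : ℕ) (y : Str) :
    (crt K R l y).card ≤ l := by
  unfold crt
  split_ifs with h
  · exact (Pool.Agent.RTS.SS_card K R _).trans h.choose_spec.2.le
  · simp

theorem mem_crt {K : (Str → Str) → Set Str} {R : Str → Str} (hR : Reg R) {l : ℕ} {ψ' a : Str}
    (hl : ψ'.length < l) (ha : a ∈ SS K R ψ') : a ∈ crt K R l (false :: R ψ') := by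
  have h : ∃ ψ'' : Str, false :: R ψ'' = false :: R ψ' ∧ ψ''.length < l := ⟨ψ', rfl, hl⟩
  unfold crt
  rw [dif_pos h]
  have h1 : h.choose = ψ' := hR.inj (List.cons.inj h.choose_spec.1).2
  rw [h1]
  exact ha

theorem lst_len (G : Alg) (R : Str → Str) (x : Str) : (lst G R x).length ≤ G.P.eval x.length := by
  unfold lst
  split
  · next l h => exact G.kids R x l h
  · simp

theorem the_sub {K : (Str → Str) → Set Str} {G : Alg} {R : Str → Str} (hR : Reg R) (ψ : Str) :
    The K G R ψ ⊆ (((lst G R (false :: R ψ)).toFinset.biUnion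
      fun y => crt K R (2 * ψ.length) y : Finset Str) : Set Str) := by
  rintro a ⟨ψ', -, h2, h3, h4⟩
  rw [Finset.mem_coe, Finset.mem_biUnion]
  exact ⟨false :: R ψ', List.mem_toFinset.2 h2, mem_crt hR h3 h4⟩

theorem the_card {K : (Str → Str) → Set Str} {G : Alg} {R : Str → Str} {N s : ℕ}
    (hN : N ≤ 2 ^ s) (hR : Reg R) (hP : ∀ l, l ≤ 10 * N + 2 → G.P.eval l ≤ 2 ^ s) (ψ : Str)
    (hψ : ψ.length ≤ N) : ((lst G R (false :: R ψ)).toFinset.biUnion
      fun y => crt K R (2 * ψ.length) y).card ≤ 2 ^ (2 * s + 1) := by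
  have h1 : (lst G R (false :: R ψ)).toFinset.card ≤ 2 ^ s :=
    (List.toFinset_card_le _).trans ((lst_len G R _).trans (hP _ (len_le hR hψ)))
  calc _ ≤ (lst G R (false :: R ψ)).toFinset.card * (2 * ψ.length) :=
        Finset.card_biUnion_le_card_mul _ _ _ fun y _ => crt_card K R _ y
    _ ≤ 2 ^ s * (2 * 2 ^ s) := Nat.mul_le_mul h1 (by omega)
    _ = 2 ^ (2 * s + 1) := by
        rw [pow_succ, two_mul s, pow_add]
        ring

end RCC_

open RCC_ in
theorem p_RCC : T_RCC := by
  intro K G R N s hR hN hP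
  refine ⟨fun ψ i => rea_card G R N s hR hP ψ i, fun ψ hψ => ?_⟩
  have h1 := the_sub (K := K) (G := G) hR ψ
  refine ⟨Set.Finite.subset (Finset.finite_toSet _) h1, ?_⟩
  refine (Set.ncard_le_ncard h1 (Finset.finite_toSet _)).trans ?_
  rw [Set.ncard_coe_finset]
  exact the_card hN hR hP ψ hψ

end Pool.Agent.RTT
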