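import Pool.Agent.RTT.Targets

set_option autoImplicit false

/-!
# RTT-RCH: the exchange argument, deterministic part
-/

namespace Pool.Agent.RTT

open Pool.Agent.RDS
open Pool.Agent.RTS (Cer SS SS_len)

namespace RCH_

theorem rea_mono (G : Alg) (R : Str → Str) (N : ℕ) (ψ : Str) {i j : ℕ} (h : i ≤ j) :
    Rea G R N ψ i ⊆ Rea G R N ψ j := by
  induction h with
  | refl => exact Finset.Subset.refl _
  | step _ ih => exact ih.trans (by rw [Rea]; exact Finset.subset_union_left)

theorem rea_succ {G : Alg} {R : Str → Str} {N : ℕ} {ψ u v : Str} {i : ℕ}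
    (hu : u ∈ Rea G R N ψ i) (hN : u.length ≤ N) (hv : v ∈ G.T R (false :: R u)) :
    v ∈ Rea G R N ψ (i + 1) := by
  rw [Rea, Finset.mem_union, Finset.mem_biUnion]
  exact Or.inr ⟨u, Finset.mem_filter.2 ⟨hu, hN⟩, hv⟩

theorem ss_congr {K : (Str → Str) → Set Str} {Z R : Str → Str} {ψ : Str}
    (h : Cer K Z ψ = Cer K R ψ) : SS K Z ψ = SS K R ψ := by
  unfold SS
  rw [h]

/-- the lengths along a path -/
theorem pth_len {G : Alg} {R : Str → Str} {p : ℕ → Str} {i : ℕ} (h : Pth G R p i) :
    ∀ j, j ≤ i → (p j).length ≤ (p i).length := by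
  intro j hj
  obtain ⟨k, rfl⟩ := Nat.exists_eq_add_of_le hj
  clear hj
  induction k with
  | zero => exact le_rfl
  | succ k ih =>
    have h1 := ih (fun l hl => h l (by omega))
    have h2 := (h (j + k) (by omega)).1
    have h3 : j + (k + 1) = j + k + 1 := by omega
    rw [h3]
    omega

end RCH_

open RCH_ in
theorem p_RCH : T_RCH := by
  classical
  intro K M κ hK G R N s ψ₀ a ψ ψ' y hEv hlen hRea hlst hyl hyv
  obtain ⟨hR, p, i, hi, hp0, hpi, hpth, hψN, haψ, hψT, ψ₂, h2ne, h2K, h2len, h2lst, h2a⟩ := hEv
  -- lengths on the path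
  have hlt : ∀ j, j < i → (p j).length < ψ.length := by
    intro j hj
    have h1 := (hpth j hj).1
    have h2 := pth_len hpth (j + 1) hj
    rw [hpi] at h2
    omega
  have hle : ∀ j, j ≤ i → (p j).length ≤ N := by
    intro j hj
    have h1 := pth_len hpth j hj
    rw [hpi] at h1
    omega
  -- the path in the world R
  have hmR : ∀ j, j ≤ i → p j ∈ Rea G R N ψ₀ j := by
    intro j
    induction j with
    | zero =>
      intro _
      rw [Rea, hp0]
      exact Finset.mem_singleton_self _
    | succ j ih =>
      intro hj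
      exact rea_succ (ih (by omega)) (hle j (by omega)) (hpth j (by omega)).2
  have hTR : ∀ j, j ≤ i → ψ' ∉ G.T R (false :: R (p j)) := by
    intro j hj h
    exact hRea (rea_mono G R N ψ₀ (by omega : j + 1 ≤ s + 2) (rea_succ (hmR j hj) (hle j hj) h))
  have hne : ψ ≠ ψ' := by
    rintro rfl
    refine hRea (rea_mono G R N ψ₀ (by omega : i ≤ s + 2) ?_)
    have := hmR i le_rfl
    rwa [hpi] at this
  set Q : Str → Str := up R ψ y with hQ
  set Z : Str → Str := up Q ψ' (R ψ) with hZ
  have hQψ : Q ψ = y := up_self R ψ y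
  have hQo : ∀ u, u ≠ ψ → Q u = R u := fun u hu => up_ne R y hu
  have hZψ' : Z ψ' = R ψ := up_self Q ψ' (R ψ)
  have hZo : ∀ u, u ≠ ψ → u ≠ ψ' → Z u = R u := fun u hu hu' => by
    rw [hZ, up_ne Q (R ψ) hu', hQo u hu]
  have hQreg : Reg Q := up_reg hR hyl (fun u _ => hyv u)
  have hZreg : Reg Z := by
    refine up_reg hQreg (by rw [hR.len, hlen]) (fun u _ hu => ?_)
    by_cases h : u = ψ
    · rw [h, hQψ] at hu
      exact hyv ψ hu.symm
    · rw [hQo u h] at hu
      exact h (hR.inj hu)
  have hZs : ∀ u : Str, u.length < ψ.length → Z u = R u := by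
    intro u hu
    refine hZo u ?_ ?_
    · rintro rfl
      exact lt_irrefl _ hu
    · rintro rfl
      omega
  refine ⟨hZreg, ?_, ?_⟩
  · -- the string is reached in the world Z
    by_cases hi0 : i = 0
    · subst hi0
      refine rea_mono G Z N ψ₀ (Nat.zero_le _) ?_
      rw [Rea, ← hpi, hp0]
      exact Finset.mem_singleton_self _
    · have hex : ∃ j, j < i ∧ ψ ∈ G.T R (false :: R (p j)) := by
        refine ⟨i - 1, by omega, ?_⟩
        have h1 := (hpth (i - 1) (by omega)).2
        have h2 : i - 1 + 1 = i := by omega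
        rwa [h2, hpi] at h1
      set j := Nat.find hex with hj
      obtain ⟨hji, hjT⟩ := Nat.find_spec hex
      rw [← hj] at hji hjT
      have hjm : ∀ l, l < j → ψ ∉ G.T R (false :: R (p l)) := by
        intro l hl h
        exact Nat.find_min hex hl ⟨by omega, h⟩
      have hZp : ∀ l, l < i → Z (p l) = R (p l) := fun l hl => hZs _ (hlt l hl)
      have hmZ : ∀ l, l ≤ j → p l ∈ Rea G Z N ψ₀ l := by
        intro l
        induction l with
        | zero =>
          intro _
          rw [Rea, hp0]
          exact Finset.mem_singleton_self _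
        | succ l ih =>
          intro hl
          refine rea_succ (ih (by omega)) (hle l (by omega)) ?_
          rw [hZp l (by omega)]
          have h1 := (G.loc R Z (false :: R (p l)) (fun u hu => by
            refine (hZo u ?_ ?_).symm
            · rintro rfl
              exact hjm l (by omega) hu
            · rintro rfl
              exact hTR l (by omega) hu)).2
          rw [h1]
          exact (hpth l (by omega)).2
      have hfin : ψ ∈ G.T Z (false :: R (p j)) := by
        by_contra hcon
        set Q' : Str → Str := up Z ψ (R ψ) with hQ'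
        have hQ'ψ : Q' ψ = R ψ := up_self Z ψ (R ψ)
        have hQ'o : ∀ u, u ≠ ψ → Q' u = Z u := fun u hu => up_ne Z (R ψ) hu
        have h1 := (G.loc R Q' (false :: R (p j)) (fun u hu => by
          by_cases h : u = ψ
          · rw [h, hQ'ψ]
          · rw [hQ'o u h, hZo u h]
            rintro rfl
            exact hTR j (by omega) hu)).2
        have h2 := (G.loc Z Q' (false :: R (p j)) (fun u hu => by
          refine (hQ'o u ?_).symm
          rintro rfl
          exact hcon hu)).2
        rw [h2] at h1
        rw [h1] at hcon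
        exact hcon hjT
      have h3 : ψ ∈ Rea G Z N ψ₀ (j + 1) := by
        refine rea_succ (hmZ j le_rfl) (hle j (by omega)) ?_
        rw [hZp j hji]
        exact hfin
      exact rea_mono G Z N ψ₀ (by omega : j + 1 ≤ s + 1) h3
  · -- the certificate
    have hgl := (G.loc R Z (false :: R ψ) (fun u hu => by
      refine (hZo u ?_ ?_).symm
      · rintro rfl
        exact hψT hu
      · rintro rfl
        have h1 := hTR i le_rfl
        rw [hpi] at h1
        exact h1 hu)).1
    have hll : lst G Z (false :: R ψ) = lst G R (false :: R ψ) := by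
      unfold lst
      rw [hgl]
    have h2ne' : ψ₂ ≠ ψ' := by
      rintro rfl
      exact hlst h2lst
    have hZ2 : Z ψ₂ = R ψ₂ := hZo ψ₂ h2ne h2ne'
    have hcer : Cer K Z ψ₂ = Cer K R ψ₂ := by
      funext S
      apply propext
      unfold Cer
      constructor
      · rintro ⟨c1, c2, c3⟩
        refine ⟨c1, c2, fun R' hR' => c3 R' fun u hu => ?_⟩
        rw [hR' u hu, hZs u (by have := c2 u hu; omega)]
      · rintro ⟨c1, c2, c3⟩
        refine ⟨c1, c2, fun R' hR' => c3 R' fun u hu => ?_⟩
        rw [hR' u hu, hZs u (by have := c2 u hu; omega)]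
    refine ⟨ψ₂, ?_, ?_, by omega, ?_⟩
    · refine (SS_spec hK h2K).2.2 Z fun u hu => hZs u ?_
      have := SS_len hu
      omega
    · rw [hZψ', hll, hZ2]
      exact h2lst
    · rw [ss_congr hcer]
      exact h2a

end Pool.Agent.RTT
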