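import Pool.Agent.RTT.Targets

set_option autoImplicit false

/-!
# RTT-STP: the next instance
-/

namespace Pool.Agent.RTT

open Pool.Agent.DSR (Lang PolyTime encPair encBool Ans Letter encAns)
open Pool.Agent.RDS
open Pool.Agent.RTS (Cer SS)
open Pool.Agent.RAD (AD pv pq nil_AD false_AD true_AD)

namespace STP_

/-- the answers depend only on the answers to the questions in the list -/
theorem bts_congr {A B : Lang} {l : List Str} (h : ∀ y ∈ l, (y ∈ A ↔ y ∈ B)) :
    bts A l = bts B l := by
  unfold bts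
  refine List.map_congr_left fun y hy => ?_
  exact decide_eq_decide.2 (h y hy)

/-- the list depends only on the value of the first part -/
theorem lst_congr {G : Alg} {R R' : Str → Str} {x : Str} (h : G.g R' x = G.g R x) :
    lst G R' x = lst G R x := by
  unfold lst
  rw [h]

end STP_

open STP_ in
theorem p_STP : T_STP := by
  intro K M κ hK G q R a z ψ hR hW hcR hcW hψa hψW hψR hTou hVls
  have hself : up R a z a = z := up_self R a z
  have hoth : ∀ u, u ≠ a → up R a z u = R u := fun u hu => up_ne R z hu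
  have hx : false :: R ψ ∈ AD K (up R a z) := ⟨ψ, hψW, hoth ψ hψa⟩
  have hx' : false :: R ψ ∉ AD K R := by
    rintro ⟨u, hu, hu'⟩
    rw [hR.inj hu'] at hu
    exact hψR hu
  have hloc := G.G.loc R (up R a z) (false :: R ψ) (fun u hu => by
    refine (hoth u ?_).symm
    rintro rfl
    exact hTou (Or.inl hu))
  have hl : lst G.G (up R a z) (false :: R ψ) = lst G.G R (false :: R ψ) := lst_congr hloc.1
  have hex : ∃ y ∈ lst G.G R (false :: R ψ), ¬ (y ∈ AD K R ↔ y ∈ AD K (up R a z)) := by
    by_contra hcon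
    have hcon' : ∀ y ∈ lst G.G R (false :: R ψ), (y ∈ AD K R ↔ y ∈ AD K (up R a z)) := by
      intro y hy
      by_contra h
      exact hcon ⟨y, hy, h⟩
    have hb := bts_congr hcon'
    have hv := G.loc R (up R a z) (false :: R ψ) (bts (AD K R) (lst G.G R (false :: R ψ)))
      (fun u hu => by
        refine (hoth u ?_).symm
        rintro rfl
        exact hTou (Or.inr (Or.inl hu)))
    obtain ⟨b₁, h1, h2⟩ := hcR.1 (false :: R ψ)
    obtain ⟨b₂, h3, h4⟩ := hcW.1 (false :: R ψ)
    rw [hl, ← hb, hv, h1, Option.some.injEq] at h3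
    rw [← h3] at h4
    exact hx' (h2.1 (h4.2 hx))
  obtain ⟨y', hy', hne⟩ := hex
  match y', hy', hne with
  | [], _, hne => exact absurd ⟨fun h => absurd h (nil_AD K R), fun h => absurd h (nil_AD K _)⟩ hne
  | true :: v, hy', hne =>
    exfalso
    have h1 : R a ≠ (pv v).1 := fun h =>
      hTou (Or.inr (Or.inr (Or.inl (Or.inr ⟨v, hy', h.symm⟩))))
    have h2 : z ≠ (pv v).1 := fun h => hVls (Or.inr ⟨v, hy', h.symm⟩)
    have h3 : ∀ u, R u = (pv v).1 ↔ up R a z u = (pv v).1 := by
      intro u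
      by_cases hu : u = a
      · subst hu
        rw [hself]
        exact ⟨fun h => absurd h h1, fun h => absurd h h2⟩
      · rw [hoth u hu]
    apply hne
    rw [true_AD, true_AD]
    exact ⟨fun ⟨u, hu, hu'⟩ => ⟨u, hu, (h3 u).1 hu'⟩, fun ⟨u, hu, hu'⟩ => ⟨u, hu, (h3 u).2 hu'⟩⟩
  | false :: y, hy', hne =>
    by_cases h1 : false :: y ∈ AD K R
    · exfalso
      have h2 : false :: y ∉ AD K (up R a z) := fun h => hne ⟨fun _ => h, fun _ => h1⟩
      obtain ⟨ψ', h3, h4⟩ := (false_AD K R y).1 h1
      subst h4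
      have h5 : ψ' ≠ a := by
        rintro rfl
        exact hTou (Or.inr (Or.inr (Or.inl (Or.inl hy'))))
      have h6 : a ∉ SS K R ψ' := fun h => hTou (Or.inr (Or.inr (Or.inr ⟨ψ', h3, hy', h⟩)))
      exact h2 ⟨ψ', (SS_spec hK h3).2.2 (up R a z) (fun u hu => hoth u (fun h => h6 (h ▸ hu))),
        hoth ψ' h5⟩
    · have h2 : false :: y ∈ AD K (up R a z) := by
        by_contra h
        exact hne ⟨fun h' => absurd h' h1, fun h' => absurd h' h⟩
      obtain ⟨ψ', h3, h4⟩ := (false_AD K _ y).1 h2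
      have h5 : ψ' ≠ a := by
        rintro rfl
        rw [hself] at h4
        exact hVls (Or.inl (h4 ▸ hy'))
      have h6 : R ψ' = y := by rw [← hoth ψ' h5, h4]
      subst h6
      refine ⟨ψ', h5, ?_, h3, fun h => h1 ⟨ψ', h, rfl⟩, hy'⟩
      rintro rfl
      have h7 := (hcR.2 (fun _ => false :: R ψ') (q.eval (false :: R ψ').length + 1)
        (fun i _ => hy')).1
      exact absurd h7 (by omega)

end Pool.Agent.RTT
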