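import Pool.Agent.RTT.Targets

set_option autoImplicit false

/-!
# RTT, block SWT: exchange of two values
-/

namespace Pool.Agent.RTT

open Pool.Agent.RDS

namespace SWT_

/-- the exchange of two indices -/
noncomputable def sg {m N : ℕ} {ψ ψ' : Str} (h : ψ ∈ FF m N) (h' : ψ' ∈ FF m N)
    (u : {u : Str // u ∈ FF m N}) : {u : Str // u ∈ FF m N} :=
  if u.1 = ψ then ⟨ψ', h'⟩ else if u.1 = ψ' then ⟨ψ, h⟩ else u

theorem sg_len {m N : ℕ} {ψ ψ' : Str} (h : ψ ∈ FF m N) (h' : ψ' ∈ FF m N)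
    (hl : ψ.length = ψ'.length) (u : {u : Str // u ∈ FF m N}) :
    (sg h h' u).1.length = u.1.length := by
  unfold sg
  split_ifs with h1 h2
  · rw [h1]
    exact hl.symm
  · rw [h2]
    exact hl
  · rfl

theorem sg_sg {m N : ℕ} {ψ ψ' : Str} (h : ψ ∈ FF m N) (h' : ψ' ∈ FF m N) (hne : ψ ≠ ψ')
    (u : {u : Str // u ∈ FF m N}) : sg h h' (sg h h' u) = u := by
  apply Subtype.ext
  by_cases h1 : u.1 = ψ
  · have e : sg h h' u = ⟨ψ', h'⟩ := by
      unfold sg
      rw [if_pos h1]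
    rw [e]
    unfold sg
    rw [if_neg (Ne.symm hne), if_pos rfl]
    exact h1.symm
  · by_cases h2 : u.1 = ψ'
    · have e : sg h h' u = ⟨ψ, h⟩ := by
        unfold sg
        rw [if_neg h1, if_pos h2]
      rw [e]
      unfold sg
      rw [if_pos rfl]
      exact h2.symm
    · have e : sg h h' u = u := by
        unfold sg
        rw [if_neg h1, if_neg h2]
      rw [e, e]

/-- the exchange of two values -/
noncomputable def sw {m N : ℕ} {ψ ψ' : Str} (h : ψ ∈ FF m N) (h' : ψ' ∈ FF m N)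
    (hl : ψ.length = ψ'.length) (ω : Om m N) : Om m N := fun u =>
  ⟨(ω (sg h h' u)).toList, by rw [List.Vector.toList_length, sg_len h h' hl]⟩

theorem sw_toList {m N : ℕ} {ψ ψ' : Str} (h : ψ ∈ FF m N) (h' : ψ' ∈ FF m N)
    (hl : ψ.length = ψ'.length) (ω : Om m N) (u : {u : Str // u ∈ FF m N}) :
    (sw h h' hl ω u).toList = (ω (sg h h' u)).toList := rfl

theorem sw_sw {m N : ℕ} {ψ ψ' : Str} (h : ψ ∈ FF m N) (h' : ψ' ∈ FF m N)
    (hl : ψ.length = ψ'.length) (hne : ψ ≠ ψ') (ω : Om m N) :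
    sw h h' hl (sw h h' hl ω) = ω := by
  funext u
  apply List.Vector.toList_injective
  rw [sw_toList, sw_toList]
  exact congrArg (fun i => (ω i).toList) (sg_sg h h' hne u)

theorem world (R₀ : Str → Str) {m N : ℕ} {ψ ψ' : Str} (h : ψ ∈ FF m N) (h' : ψ' ∈ FF m N)
    (hl : ψ.length = ψ'.length) (hne : ψ ≠ ψ') (ω : Om m N) (y : Str) :
    up (up (ex R₀ ω) ψ y) ψ' (ex R₀ ω ψ) = up (ex R₀ (sw h h' hl ω)) ψ y := by
  funext u
  by_cases h1 : u = ψ'
  · rw [h1, up_self, up_ne _ _ (Ne.symm hne)]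
    unfold ex
    rw [dif_pos h, dif_pos h', sw_toList]
    have e : sg h h' ⟨ψ', h'⟩ = ⟨ψ, h⟩ := by
      unfold sg
      rw [if_neg (Ne.symm hne), if_pos rfl]
    exact (congrArg (fun i => (ω i).toList) e).symm
  · rw [up_ne _ _ h1]
    by_cases h2 : u = ψ
    · rw [h2, up_self, up_self]
    · rw [up_ne _ _ h2, up_ne _ _ h2]
      unfold ex
      by_cases h3 : u ∈ FF m N
      · rw [dif_pos h3, dif_pos h3, sw_toList]
        have e : sg h h' ⟨u, h3⟩ = ⟨u, h3⟩ := by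
          unfold sg
          rw [if_neg h2, if_neg h1]
        exact (congrArg (fun i => (ω i).toList) e).symm
      · rw [dif_neg h3, dif_neg h3]

end SWT_

open SWT_ in
theorem p_SWT (h1 : T_UPX) : T_SWT := by
  intro R₀ m N ψ ψ' h h' hne hl d
  have e : ∀ ω : Om m N, {y : List.Vector Bool (10 * ψ.length + 1) |
      d (up (up (ex R₀ ω) ψ y.toList) ψ' (ex R₀ ω ψ))}.ncard =
      {y : List.Vector Bool (10 * ψ.length + 1) |
        d (up (ex R₀ (sw h h' hl ω)) ψ y.toList)}.ncard := by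
    intro ω
    congr 1
    ext y
    simp only [Set.mem_setOf_eq]
    rw [world R₀ h h' hl hne ω y.toList]
  rw [Finset.sum_congr rfl fun ω _ => e ω]
  rw [← h1 R₀ m N ψ h _ rfl d]
  exact Equiv.sum_comp (Function.Involutive.toPerm (sw h h' hl) (sw_sw h h' hl hne))
    (fun ω => {y : List.Vector Bool (10 * ψ.length + 1) |
      d (up (ex R₀ ω) ψ y.toList)}.ncard)

end Pool.Agent.RTT
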