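import Pool.Agent.RTT.Targets

set_option autoImplicit false

/-!
# RTT, TOV: few strings are touched
-/

namespace Pool.Agent.RTT

open Pool.Agent.DSR (Lang PolyTime encPair encBool Ans Letter encAns)
open Pool.Agent.RDS
open Pool.Agent.RTS (Cer SS SS_card)
open Pool.Agent.RAD (AD pv pq)

namespace TOV_

theorem lst_len (G : Alg) (R : Str → Str) (x : Str) :
    (lst G R x).length ≤ G.P.eval x.length := by
  unfold lst
  rcases h : G.g R x with _ | a
  · exact Nat.zero_le _
  · cases a with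
    | ask l => exact G.kids R x l h
    | _ => exact Nat.zero_le _

/-- the value in a question -/
def val : Str → Str
  | false :: z => z
  | true :: v => (pv v).1
  | [] => []

end TOV_

open TOV_ in
theorem p_TOV : T_TOV := by
  classical
  intro K G R N s x hR hN hP hx hl
  obtain ⟨l, hle⟩ : ∃ l, l = lst G.G R x := ⟨_, rfl⟩
  have h0 := hP x.length hx
  rw [G.PP_eval] at h0
  have hll : l.length ≤ G.G.P.eval x.length := by
    rw [hle]
    exact lst_len G.G R x
  have hT1 : (G.G.T R x).card ≤ G.G.P.eval x.length := G.G.cardT _ _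
  have hT2 : (G.T R x (bts (AD K R) l)).card ≤
      G.P.eval (x.length + G.G.P.eval x.length) := by
    refine (G.cardT _ _ _).trans (eval_mono _ ?_)
    have : (bts (AD K R) l).length = l.length := by
      unfold bts
      rw [List.length_map]
    omega
  obtain ⟨A, hA⟩ : ∃ A : Finset Str, ∀ a, a ∈ A ↔ R a ∈ (l.map val).toFinset :=
    ⟨(l.map val).toFinset.preimage R hR.inj.injOn, fun a => Finset.mem_preimage⟩
  have hAc : A.card ≤ l.length :=
    (Finset.card_le_card_of_injOn R (fun u hu => (hA u).1 hu) hR.inj.injOn).trans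
      ((List.toFinset_card_le _).trans_eq (List.length_map _))
  obtain ⟨Q, hQ⟩ : ∃ Q : Finset Str, ∀ ψ, ψ ∈ Q ↔ R ψ ∈
      (l.toFinset.filter fun y => ∃ z, y = false :: z).image List.tail :=
    ⟨((l.toFinset.filter fun y => ∃ z, y = false :: z).image List.tail).preimage R
      hR.inj.injOn, fun a => Finset.mem_preimage⟩
  have hQm : ∀ ψ, ψ ∈ Q ↔ false :: R ψ ∈ l := by
    intro ψ
    rw [hQ, Finset.mem_image]
    constructor
    · rintro ⟨y, hy, h⟩
      rw [Finset.mem_filter, List.mem_toFinset] at hy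
      obtain ⟨h1, z, rfl⟩ := hy
      rw [List.tail_cons] at h
      rw [← h]
      exact h1
    · intro h
      exact ⟨_, Finset.mem_filter.2 ⟨List.mem_toFinset.2 h, _, rfl⟩, rfl⟩
  have hQc : Q.card ≤ l.length :=
    (Finset.card_le_card_of_injOn R (fun u hu => (hQ u).1 hu) hR.inj.injOn).trans
      (Finset.card_image_le.trans ((Finset.card_filter_le _ _).trans (List.toFinset_card_le _)))
  have hlen : ∀ ψ ∈ Q, (SS K R ψ).card ≤ N := by
    intro ψ hψ
    have h1 := hl _ (hle ▸ (hQm ψ).1 hψ)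
    rw [List.length_cons, hR.len] at h1
    have h4 := SS_card K R ψ
    omega
  have hsub : TouV K G R x ⊆ ((G.G.T R x ∪ G.T R x (bts (AD K R) l) ∪ A ∪
      Q.biUnion (SS K R) : Finset Str) : Set Str) := by
    intro a ha
    rw [Finset.mem_coe, Finset.mem_union, Finset.mem_union, Finset.mem_union]
    unfold TouV at ha
    rw [Set.mem_ofPred_eq, ← hle] at ha
    rcases ha with h | h | h | ⟨ψ, h1, h2, h3⟩
    · exact Or.inl (Or.inl (Or.inl h))
    · exact Or.inl (Or.inl (Or.inr h))
    · refine Or.inl (Or.inr ((hA a).2 ?_))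
      rw [List.mem_toFinset, List.mem_map]
      rcases h with h | ⟨v, h1, h2⟩
      · exact ⟨_, h, rfl⟩
      · exact ⟨_, h1, h2⟩
    · exact Or.inr (Finset.mem_biUnion.2 ⟨ψ, (hQm ψ).2 h2, h3⟩)
  have hcard : (G.G.T R x ∪ G.T R x (bts (AD K R) l) ∪ A ∪ Q.biUnion (SS K R)).card ≤
      2 ^ (2 * s + 2) := by
    have h1 : (Q.biUnion (SS K R)).card ≤ Q.card * N :=
      Finset.card_biUnion_le_card_mul _ _ _ hlen
    have h2 : Q.card * N ≤ 2 ^ s * 2 ^ s :=
      Nat.mul_le_mul (hQc.trans (hll.trans (by omega))) hN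
    have h3 := Finset.card_union_le (G.G.T R x ∪ G.T R x (bts (AD K R) l) ∪ A)
      (Q.biUnion (SS K R))
    have h4 := Finset.card_union_le (G.G.T R x ∪ G.T R x (bts (AD K R) l)) A
    have h5 := Finset.card_union_le (G.G.T R x) (G.T R x (bts (AD K R) l))
    have h6 : 2 ^ (2 * s + 2) = 4 * (2 ^ s * 2 ^ s) := by
      rw [pow_add, two_mul, pow_add]
      ring
    have h7 : 1 ≤ 2 ^ s := Nat.one_le_two_pow
    have h8 : 2 ^ s ≤ 2 ^ s * 2 ^ s := Nat.le_mul_of_pos_left _ h7
    rw [h6]
    omega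
  refine ⟨(Finset.finite_toSet _).subset hsub, ?_⟩
  refine le_trans ?_ hcard
  have h := Set.ncard_le_ncard hsub (Finset.finite_toSet _)
  rwa [Set.ncard_coe_finset] at h

end Pool.Agent.RTT
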