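import Pool.Agent.RTT.Targets

set_option autoImplicit false

/-!
# RTT: proof of TRV

The tree of the questions which are reached from a string.
-/

namespace Pool.Agent.RTT

open Pool.Agent.DSR (Lang PolyTime encPair encBool Ans Letter encAns)
open Pool.Agent.RDS
open Pool.Agent.RTS (Cer SS)
open Pool.Agent.RAD (AD pv pq K3 CorrD)

namespace TRV_

theorem lst_length (G : Alg) (R : Str → Str) (y : Str) :
    (lst G R y).length ≤ G.P.eval y.length := by
  unfold lst
  split
  · next l hl => exact G.kids R y l hl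
  · exact Nat.zero_le _

/-- one more member at the end of a chain -/
theorem extend (G : Alg) (R : Str → Str) (c : ℕ → Str) (k : ℕ) (y : Str)
    (hc : ∀ i < k, c (i + 1) ∈ lst G R (c i)) (hy : y ∈ lst G R (c k)) :
    ∃ c' : ℕ → Str, c' 0 = c 0 ∧ (∀ i < k + 1, c' (i + 1) ∈ lst G R (c' i)) ∧
      c' (k + 1) = y := by
  refine ⟨fun i => if i ≤ k then c i else y, ?_, ?_, ?_⟩
  · show (if 0 ≤ k then c 0 else y) = c 0
    rw [if_pos (Nat.zero_le k)]
  · intro i hi
    show (if i + 1 ≤ k then c (i + 1) else y) ∈ lst G R (if i ≤ k then c i else y)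
    rw [if_pos (by omega : i ≤ k)]
    by_cases hij : i + 1 ≤ k
    · rw [if_pos hij]
      exact hc i (by omega)
    · rw [if_neg hij]
      have : i = k := by omega
      rw [this]
      exact hy
  · show (if k + 1 ≤ k then c (k + 1) else y) = y
    rw [if_neg (by omega)]

theorem chain_of (G : Alg) (R : Str → Str) (x : Str) (i : ℕ) :
    ∀ y ∈ Tre G R x i, ∃ (c : ℕ → Str) (k : ℕ), c 0 = x ∧
      (∀ j < k, c (j + 1) ∈ lst G R (c j)) ∧ c k = y := by
  induction i with
  | zero =>
    intro y hy
    refine ⟨fun _ => x, 0, rfl, fun j hj => absurd hj (by omega), ?_⟩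
    exact (Finset.mem_singleton.mp hy).symm
  | succ i ih =>
    intro y hy
    rcases Finset.mem_union.mp hy with h | h
    · exact ih y h
    · obtain ⟨z, hz, hzy⟩ := Finset.mem_biUnion.mp h
      obtain ⟨c, k, h0, hc, hk⟩ := ih z hz
      have hy' : y ∈ lst G R (c k) := by
        rw [hk]
        exact List.mem_toFinset.mp hzy
      obtain ⟨c', h1, h2, h3⟩ := extend G R c k y hc hy'
      exact ⟨c', k + 1, h1.trans h0, h2, h3⟩

end TRV_

open TRV_ in
theorem p_TRV : T_TRV := by
  intro G R q N s x hq hN hP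
  have hlen : ∀ i, ∀ y ∈ Tre G R x i, y.length ≤ N ∧ ∀ y' ∈ lst G R y, y'.length ≤ N := by
    intro i y hy
    obtain ⟨c, k, h0, hc, hk⟩ := chain_of G R x i y hy
    refine ⟨?_, fun y' hy' => ?_⟩
    · have h1 := hq c k hc
      rw [h0, hk] at h1
      exact h1.trans hN
    · obtain ⟨c', h1, h2, h3⟩ := extend G R c k y' hc (by rw [hk]; exact hy')
      have h4 := hq c' (k + 1) h2
      rw [h3, h1, h0] at h4
      exact h4.trans hN
  intro i
  refine ⟨?_, hlen i⟩
  induction i with
  | zero =>
    rw [Nat.mul_zero, pow_zero]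
    exact (Finset.card_singleton x).le
  | succ i ih =>
    have h1 : ((Tre G R x i).biUnion fun y => (lst G R y).toFinset).card ≤
        (Tre G R x i).card * 2 ^ s :=
      Finset.card_biUnion_le_card_mul _ _ _ fun y hy =>
        (List.toFinset_card_le _).trans
          ((lst_length G R y).trans (hP _ (hlen i y hy).1))
    have h2 : 1 ≤ 2 ^ s := Nat.one_le_two_pow
    calc (Tre G R x (i + 1)).card
        ≤ (Tre G R x i).card +
          ((Tre G R x i).biUnion fun y => (lst G R y).toFinset).card :=
          Finset.card_union_le _ _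
      _ ≤ (Tre G R x i).card + (Tre G R x i).card * 2 ^ s := Nat.add_le_add_left h1 _
      _ = (Tre G R x i).card * (1 + 2 ^ s) := by ring
      _ ≤ 2 ^ ((s + 1) * i) * 2 ^ (s + 1) := by
          refine Nat.mul_le_mul ih ?_
          rw [pow_succ]
          omega
      _ = 2 ^ ((s + 1) * (i + 1)) := by rw [← pow_add, Nat.mul_succ]

end Pool.Agent.RTT
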