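import Pool.Agent.RTT.Targets
import Pool.Agent.RDS.P_INVC

set_option autoImplicit false

/-!
# RTT, target UPX: change of one value
-/

namespace Pool.Agent.RTT

open Pool.Agent.RDS

/-- UPX -/
theorem p_UPX (h1 : Pool.Agent.RDS.T_UPD) : T_UPX := by
  intro R₀ m N a ha L hL d
  subst hL
  have hU := h1 {u : Str // u ∈ FF m N} (fun u => List.Vector Bool (10 * u.1.length + 1)) ⟨a, ha⟩
    (fun ω => d (ex R₀ ω))
  have hc : Fintype.card (List.Vector Bool (10 * a.length + 1)) = 2 ^ (10 * a.length + 1) := by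
    rw [card_vector, Fintype.card_bool]
  have hU' : {ω : Om m N | d (ex R₀ ω)}.ncard *
      Fintype.card (List.Vector Bool (10 * a.length + 1)) =
      ∑ ω : Om m N, {y : List.Vector Bool (10 * a.length + 1) |
        d (ex R₀ (Function.update ω ⟨a, ha⟩ y))}.ncard := by
    convert hU using 1
  rw [← hc, hU']
  refine Finset.sum_congr rfl fun ω _ => ?_
  congr 1
  ext y
  simp only [Set.mem_ofPred_eq]
  rw [INVC_.ex_update]

end Pool.Agent.RTT
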