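import Pool.Agent.RDS.P_ALG
import Pool.Agent.RDS.P_ASY
import Pool.Agent.RDS.P_CNV
import Pool.Agent.RDS.P_CTB
import Pool.Agent.RDS.P_GEN
import Pool.Agent.RDS.P_INE
import Pool.Agent.RDS.P_INJC
import Pool.Agent.RDS.P_OUTL
import Pool.Agent.RDS.P_UPD
import Pool.Agent.RAD.P_FMT
import Pool.Agent.RAD.P_HRE
import Pool.Agent.RAD.P_IND
import Pool.Agent.RAD.P_KOD
import Pool.Agent.RAD.P_MED
import Pool.Agent.RAD.P_TCH
import Pool.Agent.RAD.P_TOD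
import Pool.Agent.RAD.P_TSR
import Pool.Agent.RTT.P_ALV
import Pool.Agent.RTT.P_CHV
import Pool.Agent.RTT.P_CORE
import Pool.Agent.RTT.P_COV
import Pool.Agent.RTT.P_D2V
import Pool.Agent.RTT.P_E3L
import Pool.Agent.RTT.P_EV0
import Pool.Agent.RTT.P_EV1
import Pool.Agent.RTT.P_EV2
import Pool.Agent.RTT.P_EV3
import Pool.Agent.RTT.P_EV4
import Pool.Agent.RTT.P_EV5
import Pool.Agent.RTT.P_KPL
import Pool.Agent.RTT.P_MAIN
import Pool.Agent.RTT.P_PLC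
import Pool.Agent.RTT.P_PRJ
import Pool.Agent.RTT.P_PRV
import Pool.Agent.RTT.P_RCC
import Pool.Agent.RTT.P_RCH
import Pool.Agent.RTT.P_STP
import Pool.Agent.RTT.P_SWT
import Pool.Agent.RTT.P_TOV
import Pool.Agent.RTT.P_TRV
import Pool.Agent.RTT.P_UPX

set_option autoImplicit false

/-!
# RTT: the main theorem
-/

namespace Pool.Agent.RTT

open Pool.Agent.DSR (Lang)
open Pool.Agent.RDS
open Pool.Agent.RAD (p_FMT p_HRE p_IND p_KOD p_MED p_TCH p_TOD p_TSR)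
open Pool.Agent.RTS (GenTuringSelfRed)

/-- There are an oracle `O` and an NP-complete set relative to `O` which is adaptively
self-reducible relative to `O` in the general sense, but neither non-adaptively nor
disjunctively. -/
theorem main : ∃ (O : Orc) (A : Lang), NPCompleteO O A ∧ GenTuringSelfRed O A ∧
    ¬ GenTTSelfRed O A ∧ ¬ GenSelfRed O A := by
  have hUPX : T_UPX := p_UPX p_UPD
  have hPRJ : T_PRJ := p_PRJ p_PLC
  have hE3L : T_E3L := p_E3L (p_SWT hUPX) p_RCH p_RCC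
  have hCOV : T_COV := p_COV hPRJ (p_INJC p_UPD) (p_EV0 p_PLC hUPX hPRJ)
    (p_EV1 hPRJ p_TRV p_TOV) (p_EV2 hPRJ p_TRV) (p_EV3 hPRJ hUPX hE3L)
    (p_EV4 (p_IND p_UPD p_TOD) hPRJ hUPX) (p_EV5 hUPX) (p_CHV p_STP)
  exact p_MAIN (p_CORE hCOV p_ASY) p_PRV p_GEN p_KOD (p_KPL p_CNV p_FMT) p_INE p_CTB
    (p_ALG p_OUTL) (p_ALV (p_ALG p_OUTL)) p_D2V p_CNV (p_MED p_CNV) (p_HRE p_CNV p_OUTL p_FMT)
    (p_TSR p_CNV p_FMT) (p_TCH p_FMT)

end Pool.Agent.RTT
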