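import Pool.Agent.RTT.Targets

/-!
# RTT, block PLC: counting the planted values
-/

set_option autoImplicit false

namespace Pool.Agent.RTT

open Pool.Agent.RDS

namespace PLC_

/-- the value with `n + 1` zeros in front -/
def pre (n k : ℕ) (v : List.Vector Bool k) : List.Vector Bool (n + 1 + k) :=
  ⟨List.replicate (n + 1) false ++ v.toList, by simp⟩

lemma pre_inj (n k : ℕ) : Function.Injective (pre n k) := by
  intro v w h
  have h1 : (pre n k v).toList = (pre n k w).toList := by rw [h]
  exact List.Vector.toList_injective (List.append_cancel_left h1)

lemma mem_range (n k : ℕ) (z : List.Vector Bool (n + 1 + k)) :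
    Pl n z.toList ↔ z ∈ Set.range (pre n k) := by
  constructor
  · intro h
    refine ⟨⟨z.toList.drop (n + 1), by simp⟩, ?_⟩
    apply List.Vector.toList_injective
    show List.replicate (n + 1) false ++ z.toList.drop (n + 1) = z.toList
    conv_rhs => rw [← List.take_append_drop (n + 1) z.toList]
    congr 1
    apply List.ext_getElem
    · simp
    · intro i h1 h2
      have hi : i < n + 1 := by simpa using h1
      have hz : i < z.toList.length := by simp; omega
      rw [List.getElem_replicate, List.getElem_take]
      have h3 := h i (by omega)
      rw [List.getD_eq_getElem _ _ hz] at h3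
      exact h3.symm
  · rintro ⟨v, rfl⟩ j hj
    show (List.replicate (n + 1) false ++ v.toList).getD j false = false
    have hj' : j < (List.replicate (n + 1) false).length := by simp; omega
    rw [List.getD_append _ _ _ _ hj', List.getD_eq_getElem _ _ hj']
    simp

end PLC_

open PLC_ in
theorem p_PLC : T_PLC := by
  intro n L hL
  obtain ⟨k, rfl⟩ := Nat.exists_eq_add_of_le hL
  have h1 : {z : List.Vector Bool (n + 1 + k) | Pl n z.toList} = pre n k '' Set.univ := by
    rw [Set.image_univ]
    ext z
    exact mem_range n k z
  rw [h1, Set.ncard_image_of_injective _ (pre_inj n k), Set.ncard_univ,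
    Nat.card_eq_fintype_card, card_vector, Fintype.card_bool, Nat.add_sub_cancel_left]

end Pool.Agent.RTT
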