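import Pool.Agent.RTT.Core
import Pool.Agent.RAD.Targets
import Pool.Agent.RDS.Targets

set_option autoImplicit false

/-!
# RTT (MP_f8b4c8_lc): targets

THEOREM. There are an oracle `O` and an NP-complete set relative to `O` (those of RAD) which is
adaptively (Turing) self-reducible in the general sense, but not non-adaptively (truth-table). One
file per target, `Pool/Agent/RTT/P_XXX.lean`, `theorem Pool.Agent.RTT.p_XXX (other targets) :
T_XXX`, helper lemmas in the namespace `Pool.Agent.RTT.XXX_`. The docstrings contain the proofs.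

Idea. In a random world `R` a value `z` which begins with `n + 1` zeros is planted at `a = w u`;
`W = up R a z`. Then `κ w ∈ K W`, mostly `κ w ∉ K R`, and `W` is as typical as `R`. If the
self-reduction is right at `x = 0 R ψ` in both worlds, where `ψ ∈ K W`, `ψ ∉ K R`, then it asks
about some `0 R ψ'` with `ψ' ∈ K W`, `ψ' ∉ K R` (STP), so `a` is in the certificate of `ψ'`; if
`|ψ'| < 2 |ψ|` then this certificate does not contain `ψ`; exchanging the value at `ψ` with that of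
another string of the same length (SWT, RCH: the list at `0 y` does not depend on the answers)
shows that this is rare (E3L). So the lengths are doubled in each step (CHV).
-/

namespace Pool.Agent.RTT

open Pool.Agent.DSR (Lang PolyTime encPair encBool Ans Letter encAns)
open Pool.Agent.RDS
open Pool.Agent.RTS (Cer SS)
open Pool.Agent.RAD (AD pv pq K3 CorrD)

/-! ### Counting tools -/

/-- **PLC** (15 min). The first `n + 1` of `L` bits are zero. -/
def T_PLC : Prop := ∀ n L : ℕ, n + 1 ≤ L →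
  {z : List.Vector Bool L | Pl n z.toList}.ncard = 2 ^ (L - (n + 1))

/-- **PRJ** (30 min; from PLC, `L = 20 n + 1`). Counting samples. -/
def T_PRJ : Prop :=
  (∀ (m N n : ℕ) (p : Om m N → Prop), {t : Smp m N n | Pl n (zz t) ∧ p t.1}.ncard =
    {ω | p ω}.ncard * 2 ^ (21 * n)) ∧
  (∀ (m N n : ℕ) (p : Om m N → List.Vector Bool n → Prop),
    {t : Smp m N n | Pl n (zz t) ∧ p t.1 t.2.1}.ncard =
      (∑ w, {ω | p ω w}.ncard) * 2 ^ (20 * n)) ∧
  (∀ (m N n : ℕ) (p : Om m N → List.Vector Bool n → List.Vector Bool n → Prop),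
    {t : Smp m N n | Pl n (zz t) ∧ p t.1 t.2.1 t.2.2.1}.ncard =
      (∑ w, ∑ ω, {u | p ω w u}.ncard) * 2 ^ (19 * n)) ∧
  ∀ (m N n : ℕ) (p : Om m N → List.Vector Bool n → List.Vector Bool n →
    List.Vector Bool (20 * n + 1) → Prop),
    {t : Smp m N n | p t.1 t.2.1 t.2.2.1 t.2.2.2}.ncard =
      ∑ w, ∑ u, ∑ ω, {z | p ω w u z}.ncard

/-- **UPX** (20 min; from `Pool.Agent.RDS.T_UPD` at the index `a`; `ex R₀ (update ω a z) =
up (ex R₀ ω) a z`, see `RDS/P_INVC.lean`: `INVC_.ex_update`). -/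
def T_UPX : Prop := ∀ (R₀ : Str → Str) (m N : ℕ) (a : Str), a ∈ FF m N →
  ∀ L, L = 10 * a.length + 1 → ∀ d : (Str → Str) → Prop,
  ∑ ω : Om m N, {z : List.Vector Bool L | d (up (ex R₀ ω) a z.toList)}.ncard =
    {ω : Om m N | d (ex R₀ ω)}.ncard * 2 ^ L

/-- **SWT** (40 min; from UPX). The map which exchanges the values at `ψ` and `ψ'` (they have the
same length; `(swap ω) u = ⟨(ω (σ u)).toList, _⟩`) is a bijection of `Om m N`, and
`up (up (ex ω) ψ y) ψ' (ex ω ψ) = up (ex (swap ω)) ψ y`. So the left side is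
`∑ ω, {y | d (up (ex (swap ω)) ψ y)}.ncard = ∑ ω, {y | d (up (ex ω) ψ y)}.ncard`. -/
def T_SWT : Prop := ∀ (R₀ : Str → Str) (m N : ℕ) (ψ ψ' : Str), ψ ∈ FF m N → ψ' ∈ FF m N →
  ψ ≠ ψ' → ψ.length = ψ'.length → ∀ d : (Str → Str) → Prop,
  ∑ ω : Om m N, {y : List.Vector Bool (10 * ψ.length + 1) |
      d (up (up (ex R₀ ω) ψ y.toList) ψ' (ex R₀ ω ψ))}.ncard =
    {ω : Om m N | d (ex R₀ ω)}.ncard * 2 ^ (10 * ψ.length + 1)

/-! ### Cardinalities -/

/-- **TRV** (30 min). Every member of `Tre G R x i` is `c k` for a chain `c` with `c 0 = x`,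
`k ≤ i`; so it has length at most `N`, and so have the members of its list. The list has at most
`2^s` members (`Alg.kids`). -/
def T_TRV : Prop := ∀ (G : Alg) (R : Str → Str) (q : Polynomial ℕ) (N s : ℕ) (x : Str),
  (∀ (c : ℕ → Str) (k : ℕ), (∀ i < k, c (i + 1) ∈ lst G R (c i)) →
    (c k).length ≤ q.eval (c 0).length) → q.eval x.length ≤ N →
  (∀ l, l ≤ N → G.P.eval l ≤ 2 ^ s) → ∀ i, (Tre G R x i).card ≤ 2 ^ ((s + 1) * i) ∧
    ∀ y ∈ Tre G R x i, y.length ≤ N ∧ ∀ y' ∈ lst G R y, y'.length ≤ N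

/-- **TOV** (30 min). `|T x| ≤ 2^s`; `|T x b| ≤ P (|x| + |b|)`, `|b| = |list| ≤ G.G.P |x|`
(`AlgV.PP_eval`); by injectivity of `R` each member of the list belongs to at most one `a` with
`false :: R a` or `R a = (pv v).1`, and to at most one `ψ` with `false :: R ψ`; for it
`|SS K R ψ| ≤ |ψ| ≤ |R ψ| ≤ N` (`RTS.SS_card`). Sum: `3 * 2^s + 2^s * N ≤ 2^(2s+2)`. -/
def T_TOV : Prop := ∀ (K : (Str → Str) → Set Str) (G : AlgV) (R : Str → Str) (N s : ℕ) (x : Str),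
  Reg R → N ≤ 2 ^ s → (∀ l, l ≤ N → G.PP.eval l ≤ 2 ^ s) → x.length ≤ N →
  (∀ y ∈ lst G.G R x, y.length ≤ N) →
  (TouV K G R x).Finite ∧ (TouV K G R x).ncard ≤ 2 ^ (2 * s + 2)

/-- **RCC** (30 min). `|false :: R u| = 10 |u| + 2`; `R` is injective. -/
def T_RCC : Prop := ∀ (K : (Str → Str) → Set Str) (G : Alg) (R : Str → Str) (N s : ℕ), Reg R →
  N ≤ 2 ^ s → (∀ l, l ≤ 10 * N + 2 → G.P.eval l ≤ 2 ^ s) →
  (∀ (ψ : Str) (i : ℕ), (Rea G R N ψ i).card ≤ 2 ^ ((s + 1) * i)) ∧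
  ∀ ψ : Str, ψ.length ≤ N → (The K G R ψ).Finite ∧ (The K G R ψ).ncard ≤ 2 ^ (2 * s + 1)

/-! ### Deterministic steps -/

/-- **STP** (45 min). `W = up R a z`, `x = 0 R ψ = 0 W ψ`, `x ∈ AD K W`, `x ∉ AD K R` (`R` is
injective). `a ∉ G.G.T R x`, so the list `l` at `x` is the same for `W`. If all members of `l` were
in both or in none of `AD K R`, `AD K W` then the results would be the same (`AlgV.loc`,
`a ∉ G.T R x _`). So some `y' ∈ l` is in exactly one of them. `y' = 1 v` is impossible: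
`(pv v).1` is neither `R a` nor `z`, so `W ψ₁ = (pv v).1 ↔ R ψ₁ = (pv v).1`. So `y' = 0 y`. (1) If
`y = R ψ'`, `ψ' ∈ K R`: `ψ' ≠ a`, so `W ψ' = y`, `a ∉ SS K R ψ'`, so `ψ' ∈ K W` (`SS_spec`), so
`y'` is in both. (2) So `y = W ψ'`, `ψ' ∈ K W`; `ψ' ≠ a` as `y ≠ z`; so `R ψ' = y`, `ψ' ∉ K R`;
`ψ' ≠ ψ`, otherwise the constant sequence `x` would be a chain of every length. -/
def T_STP : Prop := ∀ (K : (Str → Str) → Set Str) (M : Polynomial ℕ) (κ : Str → Str),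
  KOkV K M κ → ∀ (G : AlgV) (q : Polynomial ℕ) (R : Str → Str) (a z ψ : Str), Reg R →
  Reg (up R a z) → CorrV K G q R → CorrV K G q (up R a z) → ψ ≠ a → ψ ∈ K (up R a z) →
  ψ ∉ K R → a ∉ TouV K G R (false :: R ψ) → z ∉ Vls G.G R (false :: R ψ) →
  ∃ ψ' : Str, ψ' ≠ a ∧ ψ' ≠ ψ ∧ ψ' ∈ K (up R a z) ∧ ψ' ∉ K R ∧
    false :: R ψ' ∈ lst G.G R (false :: R ψ)

/-- **CHV** (60 min; from STP). `a = w u`, `W = up R a z` is regular (`up_reg`; `|a| = 2 n`) and
agrees with `R₀` below `n + 1`, so `Par.corr` holds for `R` and `W`. By induction on `i ≤ s + 1`: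
there is a path `p` with `p 0 = κ w`, `Pth G.G W p i`, `p i ∈ K W`, `p i ∉ K R`,
`0 R (p i) ∈ Tre .. i` (so `|p i| ≤ N`: chain from `0 R (κ w)`, `Par.hN`). `i = 0`: `KOkV.plant` for
`W`. Step: `a ∈ SS K W (p i)` (otherwise `p i ∈ K R`), so `p i ≠ a`, `2 |a| < |p i|` (`SS_len`);
STP gives `ψ'`; `a ∈ SS K W ψ'` in the same way; as `Ev4` is false (`¬ Ev4 .. W a`),
`p i ∉ G.G.T W (0 W (p i))`; as `Ev3` is false, `|ψ'| ≥ 2 |p i|`; as `Ev5 .. R` is false (`ψ' ∈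
FF n N`: `|ψ'| > 4 n`), `ψ' ∈ G.G.T R (0 R (p i))`, which is `G.G.T W` of the same string
(`a ∉ TouV`), and the lists are the same too. Take `p (i + 1) = ψ'`. At the end
`|p (s + 1)| ≥ 2^(s + 1) > N`. -/
def T_CHV : Prop := ∀ (K : (Str → Str) → Set Str) (M : Polynomial ℕ) (κ : Str → Str) (G : AlgV)
  (q : Polynomial ℕ) (R₀ : Str → Str) (n N s : ℕ), Par K M κ G q R₀ n N s →
  ∀ (R : Str → Str) (w u z : Str), Reg R → Agr (n + 1) R₀ R → w.length = n → u.length = n →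
  z.length = 20 * n + 1 → Pl n z → κ w ∉ K R → (∀ b, b ≠ w ++ u → R b ≠ z) →
  (∀ x ∈ Tre G.G R (false :: R (κ w)) (s + 1), w ++ u ∉ TouV K G R x ∧ z ∉ Vls G.G R x) →
  ¬ Ev5 G.G n N R → ¬ Ev4 K G.G N (up R (w ++ u) z) (w ++ u) →
  (∀ ψ, ¬ Ev3 K G.G N (s + 1) (up R (w ++ u) z) (κ w) (w ++ u) ψ) → False

/-- **RCH** (45 min). `Z = up (up R ψ y) ψ' (R ψ)` is regular (`up_reg` twice). Let `p`, `i` be the
path of `Ev3`. `|p j| < |ψ|` for `j < i` (as `|ψ| > 0`), so `Z (p j) = R (p j)`, and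
`p j ∈ Rea G R N ψ₀ j`, so `T R (0 R (p j)) ⊆ Rea G R N ψ₀ (j + 1)` does not contain `ψ'`. Let `j`
be the first index with `ψ ∈ T R (0 R (p j))` (if `i ≥ 1`). For `j' < j` the oracles agree on
`T R (0 R (p j'))`, so the sets `T` are the same and `p j' ∈ Rea G Z N ψ₀ j'` for `j' ≤ j`; at `j`
they agree on this set without `ψ`, so `ψ ∈ T Z (0 Z (p j))`: `Q = up Z ψ (R ψ)` agrees with `R` on
`T R x`, so `T Q x = T R x ∋ ψ`; if `ψ ∉ T Z x` then `T Q x = T Z x`. At `x = 0 R ψ = 0 Z ψ'` the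
oracles agree on `T R x` (`ψ ∉ T R x`, and `T R x ⊆ Rea G R N ψ₀ (i + 1)`), so the lists are the
same. Let `ψ''` be the instance of `Ev3`: `ψ'' ≠ ψ, ψ'`, so `Z ψ'' = R ψ''`; `|ψ''| < 2 |ψ|`, so its
certificates contain only strings shorter than `ψ`, where `Z` and `R` agree: `Cer K Z ψ'' S ↔
Cer K R ψ'' S` for all `S`, so `SS K Z ψ'' = SS K R ψ''` and `ψ'' ∈ K Z`. -/
def T_RCH : Prop := ∀ (K : (Str → Str) → Set Str) (M : Polynomial ℕ) (κ : Str → Str),
  KOkV K M κ → ∀ (G : Alg) (R : Str → Str) (N s : ℕ) (ψ₀ a ψ ψ' y : Str),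
  Ev3 K G N (s + 1) R ψ₀ a ψ → ψ'.length = ψ.length → ψ' ∉ Rea G R N ψ₀ (s + 2) →
  false :: R ψ' ∉ lst G R (false :: R ψ) → y.length = 10 * ψ.length + 1 → (∀ u, R u ≠ y) →
  Reg (up (up R ψ y) ψ' (R ψ)) ∧ ψ ∈ Rea G (up (up R ψ y) ψ' (R ψ)) N ψ₀ (s + 1) ∧
    a ∈ The K G (up (up R ψ y) ψ' (R ψ)) ψ'

/-! ### Probabilities; `C = card (Om n N)`, there are `C * 2^(21 n)` samples with `Pl n z` -/

/-- **EV0** (30 min; from PLC, UPX, PRJ). By `KOkV.plant` a union over the `2^n` strings `u`; for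
each of them `Pl n (ex R₀ ω (w u))` has probability `2^-(n+1)` (UPX at `w u`, `|w u| = 2 n`, in
`FF n N` as `N ≥ 10 M n + 2 > 2 n`: `Par.big`, `KOkV.big`). -/
def T_EV0 : Prop := ∀ (K : (Str → Str) → Set Str) (M : Polynomial ℕ) (κ : Str → Str) (G : AlgV)
  (q : Polynomial ℕ) (R₀ : Str → Str) (n N s : ℕ), Par K M κ G q R₀ n N s →
  {t : Smp n N n | Pl n (zz t) ∧ κ t.2.1.toList ∈ K (wd R₀ t)}.ncard * 2 ≤
    Fintype.card (Om n N) * 2 ^ (21 * n)

/-- **EV1** (30 min; from PRJ (3), TRV, TOV). For each `ω` (regular, so `Par.corr` holds) and `w`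
there are at most `2^((s+1)(s+1)) * 2^(2s+2)` strings `w u` in the union of the `TouV`; this is at
most `2^(n-4)`. -/
def T_EV1 : Prop := ∀ (K : (Str → Str) → Set Str) (M : Polynomial ℕ) (κ : Str → Str) (G : AlgV)
  (q : Polynomial ℕ) (R₀ : Str → Str) (n N s : ℕ), Par K M κ G q R₀ n N s →
  {t : Smp n N n | Pl n (zz t) ∧ Reg (wd R₀ t) ∧
    ∃ x ∈ Tre G.G (wd R₀ t) (false :: wd R₀ t (κ t.2.1.toList)) (s + 1),
      aa t ∈ TouV K G (wd R₀ t) x}.ncard * 16 ≤ Fintype.card (Om n N) * 2 ^ (21 * n)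

/-- **EV2** (35 min; from PRJ (4), TRV). For each `ω`, `w`, `u` there are at most `2^(2n)` values
of length `20 n + 1` (only strings of length `2 n` have them), and at most
`2^((s+1)(s+1)) * 2^s` members of the sets `Vls`. -/
def T_EV2 : Prop := ∀ (K : (Str → Str) → Set Str) (M : Polynomial ℕ) (κ : Str → Str) (G : AlgV)
  (q : Polynomial ℕ) (R₀ : Str → Str) (n N s : ℕ), Par K M κ G q R₀ n N s →
  {t : Smp n N n | Reg (wd R₀ t) ∧ ((∃ b, b ≠ aa t ∧ wd R₀ t b = zz t) ∨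
    ∃ x ∈ Tre G.G (wd R₀ t) (false :: wd R₀ t (κ t.2.1.toList)) (s + 1),
      zz t ∈ Vls G.G (wd R₀ t) x)}.ncard * 16 ≤ Fintype.card (Om n N) * 2 ^ (21 * n)

/-- **E3L** (75 min; from SWT, RCH, RCC). `S` = the strings of length `l`, `V` = the vectors of
length `10 l + 1`, `D = s + 1`. For `ω`, `w`, `u`, `ψ ∈ S` with `Ev3` at least `2^(l-1)` strings
`ψ' ∈ S` satisfy `ψ' ∉ Rea .. (s+2)` and `0 R ψ' ∉ list` (RCC, `kids`: at most
`2^((s+1)(s+2)) + 2^s ≤ 2^(l-1)` do not), and at least `2^(10 l)` vectors `y ∈ V` are no values of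
`R = ex R₀ ω`. So
(left side) `* 2^(l-1) * 2^(10 l)` is at most the sum over `w`, `u`, `ψ`, `ψ'` of
`∑ ω, #{y | Ev3, ψ' allowed, y new}`, by RCH
at most `∑ ω, #{y | d (up (up (ex ω) ψ y) ψ' (ex ω ψ))}`, where `d Z` is:
`Reg Z ∧ ψ ∈ Rea G Z N (κ w) (s+1) ∧ w u ∈ The K G Z ψ'`; by SWT this is `#{ω | d (ex ω)} *
2^(10 l + 1)`; and for each `ω` and `ψ'` there are at most `2^(2s+1)` pairs `w`, `u` and for each of
them at most `2^((s+1)(s+1))` strings `ψ` (RCC). So the left side is at most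
`4 * 2^(2s+1) * 2^((s+1)(s+1)) * C`. -/
def T_E3L : Prop := ∀ (K : (Str → Str) → Set Str) (M : Polynomial ℕ) (κ : Str → Str) (G : AlgV)
  (q : Polynomial ℕ) (R₀ : Str → Str) (n N s : ℕ), Par K M κ G q R₀ n N s →
  ∀ l, n < l → l ≤ N →
  ∑ w : List.Vector Bool n, ∑ u : List.Vector Bool n, {ω : Om n N | ∃ ψ : Str, ψ.length = l ∧
    Ev3 K G.G N (s + 1) (ex R₀ ω) (κ w.toList) (w.toList ++ u.toList) ψ}.ncard ≤
    Fintype.card (Om n N) * 2 ^ (s * s + 4 * s + 4)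

/-- **EV3** (30 min; from PRJ (4), UPX at `w u`, E3L). Sum of E3L over `n < l ≤ N` (`|ψ| > 2 |a| >
n`): at most `C * N * 2^(s²+4s+4) ≤ C * 2^(n-4)`. -/
def T_EV3 : Prop := ∀ (K : (Str → Str) → Set Str) (M : Polynomial ℕ) (κ : Str → Str) (G : AlgV)
  (q : Polynomial ℕ) (R₀ : Str → Str) (n N s : ℕ), Par K M κ G q R₀ n N s →
  {t : Smp n N n | ∃ ψ, Ev3 K G.G N (s + 1) (wp R₀ t) (κ t.2.1.toList) (aa t) ψ}.ncard * 16 ≤
    Fintype.card (Om n N) * 2 ^ (21 * n)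

/-- **EV4** (40 min; from `Pool.Agent.RAD.T_IND` with `e = 0`, PRJ (4), UPX at `w u`). The number
of
pairs `w`, `u` for a given `ω` is at most the sum of `|SS K R ψ| ≤ N` over the `ψ ∈ FF n N` with
`ψ ∈ G.G.T R (0 R ψ)` (`2 |a| < |ψ|`; this is a part of `RAD.TD`). By IND the sum over `ω` is at
most `N * (N * (2^s * 3)) * C`. -/
def T_EV4 : Prop := ∀ (K : (Str → Str) → Set Str) (M : Polynomial ℕ) (κ : Str → Str) (G : AlgV)
  (q : Polynomial ℕ) (R₀ : Str → Str) (n N s : ℕ), Par K M κ G q R₀ n N s →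
  {t : Smp n N n | Ev4 K G.G N (wp R₀ t) (aa t)}.ncard * 16 ≤
    Fintype.card (Om n N) * 2 ^ (21 * n)

/-- **EV5** (45 min; from UPX). Fix `ψ ∈ FF n N`, `|ψ| = l`, and `ψ'` with `2 |ψ'| ≤ l` (so
`ψ' ≠ ψ`). For given `ω` the `y` such that the event holds for `up (ex ω) ψ y` are all in the
same list (that of one of them: it does not depend on the value at `ψ`), so there are at most `2^s`
of them (`|0 R ψ'| = 10 |ψ'| + 2`). UPX at `ψ`: `#ω * 2^(10 l + 1) ≤ C * 2^s`. There are at most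
`2^l * 2^l` pairs for each `l > n`; so `#ω * 2^(8 n) ≤ N * 2^s * C`. -/
def T_EV5 : Prop := ∀ (K : (Str → Str) → Set Str) (M : Polynomial ℕ) (κ : Str → Str) (G : AlgV)
  (q : Polynomial ℕ) (R₀ : Str → Str) (n N s : ℕ), Par K M κ G q R₀ n N s →
  {ω : Om n N | Ev5 G.G n N (ex R₀ ω)}.ncard * 16 ≤ Fintype.card (Om n N)

/-- **COV** (40 min; from PRJ (1), `Pool.Agent.RDS.T_INJC`, EV0, EV1, EV2, EV3, EV4, EV5, CHV). The
samples
with `Pl n z` are `C * 2^(21 n) > 0`; not regular: at most `1/8` of them (INJC, PRJ (1));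
`1/2 + 1/8 + 5/16 < 1`. Some sample avoids all bad events; CHV. -/
def T_COV : Prop := ∀ (K : (Str → Str) → Set Str) (M : Polynomial ℕ) (κ : Str → Str) (G : AlgV)
  (q : Polynomial ℕ) (R₀ : Str → Str) (n N s : ℕ), ¬ Par K M κ G q R₀ n N s

/-- **CORE** (assembly, from COV and `Pool.Agent.RDS.T_ASY`; helper35). -/
def T_CORE : Prop := ∀ (K : (Str → Str) → Set Str) (M : Polynomial ℕ) (κ : Str → Str),
  KOkV K M κ → ∀ (G : AlgV) (q : Polynomial ℕ) (R₀ : Str → Str) (m₀ : ℕ), Reg R₀ →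
  ¬ HHV K G q R₀ m₀

/-! ### The construction -/

/-- **PRV** (40 min; edit of `RAD/P_PRD.lean` (author: helper71)). For regular `R`, `R'` which
agree below
`|x|`: `x ∈ AD K R ↔ x ∈ AD K R'`. (1) A failure at `x`: `T R x`, the list and `T R x b` are finite.
(2) A bad chain. -/
def T_PRV : Prop := ∀ (K : (Str → Str) → Set Str) (M : Polynomial ℕ) (κ : Str → Str),
  KOkV K M κ → ∀ (G : AlgV) (q : Polynomial ℕ) (R : Str → Str), Reg R → ¬ CorrV K G q R →
  ∃ m, ∀ R', Reg R' → Agr m R R' → ¬ CorrV K G q R'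

/-- **KPL** (75 min; from `Pool.Agent.RDS.T_CNV`, `Pool.Agent.RAD.T_FMT`). `E i = (G, X)` for the
verifier
which at `((w, u), h)` rejects if `|u| ≠ |w|`, asks `qst |h| (w ++ u)` if `|h| ≤ |w|`, and otherwise
accepts iff all answers are `false`. `κ w = fmt (ins i t w) []`, `t = t |w|` a polynomial which
bounds `tsz u vs` and `|cd (u, vs)|` for this computation (`vs` = the questions `qst j (w ++ u)`,
`j ≤ |w|`, `|u| = |w|`) and is so large that `4 n < M n`, `M n = 2 (i + t + n + 2) + 2`. (`ins` is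
injective; FMT; see `RAD/P_HRE.lean`, in particular `HRE_.length_cd`.) -/
def T_KPL : Prop := ∀ E : ℕ → Ver,
  (∀ v : Ver, PolyTime (encH encPair) (encMv encBool) v.1 → ∃ i, E i = v) →
  ∀ U : Str → Bool, ∃ (M : Polynomial ℕ) (κ : Str → Str), (∀ w, (κ w).length = M.eval w.length) ∧
    (∀ n, 4 * n < M.eval n) ∧ ∀ (R : Str → Str) (w : Str), κ w ∈ K3 E U R ↔
      ∃ u : Str, u.length = w.length ∧ Pl w.length (R (w ++ u))

/-- **ALV** (45 min; from `Pool.Agent.RDS.T_ALG`; compare `RDS/P_ALG.lean`, `RTS/P_ALT.lean`).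
`encLst l = encAns (ask l)`, so the algorithm `G₁` with `ask` applied to its result is in PolyTime
for `encAns` (the same machine), apply `T_ALG` to it. The second part: `T R x b` = the strings
`key v` for the questions `0 v` of the run of `G₂` at `(x, b)`, `P = r₂`
(`|encPair (x, b)| = |x| + |b|`). -/
def T_ALV : Prop := ∀ (U : Str → Bool) (G₁ : Str × List Bool → Mv (List Str))
  (G₂ : (Str × Str) × List Bool → Mv Bool) (r₁ r₂ : Polynomial ℕ),
  PolyTime (encH (id : Str → Str)) (encMv encLst) G₁ →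
  ∃ G : AlgV, (∀ R x, G.G.g R x = (run (orc U R) G₁ x (r₁.eval x.length) []).map Ans.ask) ∧
    ∀ R x b, G.v R x b = run (orc U R) G₂ (x, b) (r₂.eval (encPair (x, b)).length) []

/-- **D2V** (25 min). A disjunctive self-reduction as a non-adaptive one: the same list (empty for
ACCEPT, REJECT), the result for the answers `b` is `true`, `false`, or (for a list) whether `true ∈
b`; `T R x b = G.T R x`, `P = G.P`. -/
def T_D2V : Prop := ∀ G : Alg, ∃ G' : AlgV, ∀ (K : (Str → Str) → Set Str) (q : Polynomial ℕ)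
  (R : Str → Str), CorrD K G q R → CorrV K G' q R

/-- **MAIN** (assembly, helper35). -/
def T_MAIN : Prop := ∃ (O : Orc) (A : Lang), NPCompleteO O A ∧
  Pool.Agent.RTS.GenTuringSelfRed O A ∧ ¬ GenTTSelfRed O A ∧ ¬ GenSelfRed O A

end Pool.Agent.RTT
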